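import Pool.Agent.LP3.Defs

/-! Three-colour robust version: the output of stage 1 (common definition, rows Z3a2, Z3b, Z3). -/

namespace Pool.Agent.LP3

open Pool.Agent.LPI Pool.Agent.LPC
open scoped BigOperators

noncomputable section

/-- The output of stage 1. -/
structure Anch {ι : Type} [Fintype ι] (A : Fin 3 → ι → Set E3) (T : E4 ≃ₗ[ℝ] E4) (δ ρ : ℝ)
    (g : Fin 3 → ι) : Prop where
  anc : Lab (arr A T) g (0, g 0)
  many : ∀ s, δ * (Fintype.card ι : ℝ) ≤ (Nat.card {i : ι // Lab (arr A T) g (s, i)} : ℝ)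
  nbr : ∀ s t, s ≠ t → (Nat.card {i : ι // ¬ (A s (g s) ∩ A t i).Nonempty} : ℝ)
    ≤ ρ * (Fintype.card ι : ℝ)
  meet : ∀ s t, s ≠ t → (A s (g s) ∩ A t (g t)).Nonempty

end

end Pool.Agent.LP3
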