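import Pool.Agent.LP3.Defs

set_option autoImplicit false

/-! [D3] two frames. -/

namespace Pool.Agent.LP3

open Pool.Agent.LPI Pool.Agent.LPC

noncomputable section

lemma d3_common : ∀ s t : Fin 3, s ≠ t → ∀ x y : Bool, ∃ j : Fin 4, chi s j = x ∧ chi t j = y := by
  decide

lemma d3_inj : ∀ s t : Fin 3, s ≠ t → ∀ j j' : Fin 4, chi s j = chi s j' → chi t j = chi t j' →
    j = j' := by
  decide

lemma d3_same : ∀ p j : Fin 4, ∃ s t : Fin 3, s ≠ t ∧ chi s j = chi s p := by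
  decide

lemma d3_third : ∀ s : Fin 3, ∃ t t' : Fin 3, t ≠ s ∧ t' ≠ s ∧ t ≠ t' := by
  decide

/-- equal vertices from a large inner product. -/
lemma d3_eq {e : Fin 4 → E4} (hm : ∀ i j, i ≠ j → |inner ℝ (e i) (e j)| < 1 / 2)
    {i j : Fin 4} {x y : E4} (hx : x = e i ∨ x = - e i) (hy : y = e j ∨ y = - e j)
    (h : 1 / 2 ≤ |inner ℝ x y|) : i = j := by
  by_contra hne
  have h1 := hm i j hne
  have h2 : |inner ℝ x y| = |inner ℝ (e i) (e j)| := by
    rcases hx with rfl | rfl <;> rcases hy with rfl | rfl <;> simp [inner_neg_left, inner_neg_right]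
  rw [h2] at h
  linarith

lemma d3_flat_res {K L : Type} (j : L → K) (u : Fin 3 × K → Fin 3 × K → E4) (v : Fin 3 × L)
    (h : Flat u (v.1, j v.2)) : Flat (res j u) v := by
  intro w₁ w₂ w₃ h1 h2 h3
  exact h (w₁.1, j w₁.2) (w₂.1, j w₂.2) (w₃.1, j w₃.2) h1 h2 h3

/-- [D3] two frames, from the rows D3a, D3m, D3x, D3y. -/
theorem two_frames_of
    (classify : ∀ (r : ℕ), 1 ≤ r → ∀ (u : Fin 3 × Fin r → Fin 3 × Fin r → E4), Iso3 r u →
      (∀ v, Flat u v) →
      ∃ (e : Fin 4 → E4) (κ : Fin 3 × Fin r → Bool), Tet u e κ ∧ ∀ s b, ∃ a, κ (s, a) = b)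
    (masses : ∀ (r : ℕ), 13 ≤ r → ∀ (u : Fin 3 × Fin r → Fin 3 × Fin r → E4), Iso3 r u →
      ∀ (e : Fin 4 → E4) (κ : Fin 3 × Fin r → Bool), Tet u e κ → (∀ s b, ∃ a, κ (s, a) = b) →
      (∀ i j, i ≠ j → |inner ℝ (e i) (e j)| < 1 / 2) ∧
        ∀ s b, ∃ a a' : Fin r, a ≠ a' ∧ κ (s, a) = b ∧ κ (s, a') = b)
    (extend : ∀ {K : Type} (r : ℕ) (j : Fin r → K) (u : Fin 3 × K → Fin 3 × K → E4),
      (∀ v w, ‖u v w‖ = 1) → (∀ v w, u v w = u w v) → (∀ v, Flat u v) →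
      ∀ (e : Fin 4 → E4) (κ₀ : Fin 3 × Fin r → Bool), Tet (res j u) e κ₀ →
      (∀ s b, ∃ a, κ₀ (s, a) = b) →
      ∃ κ : Fin 3 × K → Bool, Tet u e κ ∧ ∀ s a, κ (s, j a) = κ₀ (s, a))
    (row_mem : ∀ {K : Type} (r : ℕ) (j : Fin r → K) (u : Fin 3 × K → Fin 3 × K → E4),
      (∀ v w, ‖u v w‖ = 1) → (∀ v w, u v w = u w v) → (∀ s a, Flat u (s, j a)) →
      ∀ (e : Fin 4 → E4) (κ₀ : Fin 3 × Fin r → Bool), Tet (res j u) e κ₀ →
      (∀ s b, ∃ a, κ₀ (s, a) = b) → ∀ (s : Fin 3) (a : Fin r) (w : Fin 3 × K), s ≠ w.1 →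
      u (s, j a) w ∈ Submodule.span ℝ (e '' {i | chi s i = κ₀ (s, a)}))
    (r : ℕ) (hr : 13 ≤ r) {K : Type} (o : K) (j₀ j₁ : Fin r → K)
    (S : E4 →L[ℝ] E4) (u u' : Fin 3 × K → Fin 3 × K → E4) (hX : XX r o j₀ j₁ S u u') :
    (∃ v, ¬ Flat u v) ∨ ∃ s a, ¬ Flat u' (s, j₁ a) := by
  by_contra hcon
  rw [not_or] at hcon
  have hf : ∀ v, Flat u v := by
    intro v
    by_contra h
    exact hcon.1 ⟨v, h⟩
  have hf' : ∀ s a, Flat u' (s, j₁ a) := by
    intro s a
    by_contra h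
    exact hcon.2 ⟨s, a, h⟩
  have hr1 : 1 ≤ r := by omega
  obtain ⟨e, κ₀, hT, hne⟩ := classify r hr1 (res j₀ u) hX.iso fun v => d3_flat_res j₀ u v (hf _)
  obtain ⟨hm, -⟩ := masses r hr (res j₀ u) hX.iso e κ₀ hT hne
  obtain ⟨κ, hK, hκ⟩ := extend r j₀ u hX.norm hX.sym hf e κ₀ hT hne
  obtain ⟨e', κ', hT', hne'⟩ := classify r hr1 (res j₁ u') hX.iso'
    fun v => d3_flat_res j₁ u' v (hf' _ _)
  have hmem := row_mem r j₁ u' hX.norm' hX.sym' hf' e' κ' hT' hne'
  -- the common vertex of the anchors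
  obtain ⟨p, hp⟩ : ∃ p : Fin 4, ∀ s, chi s p = κ (s, o) := by
    obtain ⟨p, hp0, hp1⟩ := d3_common 0 1 (by decide) (κ (0, o)) (κ (1, o))
    obtain ⟨q, hq0, hq2⟩ := d3_common 0 2 (by decide) (κ (0, o)) (κ (2, o))
    have h1 := hX.anc 1 2 (by simp) (by simp) (by decide)
    have h2 := hK.val (0, o) (1, o) (by simp) p hp0 hp1
    have h3 := hK.val (0, o) (2, o) (by simp) q hq0 hq2
    have h4 : p = q := d3_eq hm h2 h3 h1
    subst h4
    refine ⟨p, fun s => ?_⟩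
    fin_cases s
    · exact hp0
    · exact hp1
    · exact hq2
  -- the labelled vertices pass through it
  have hlab : ∀ s a, κ (s, j₁ a) = chi s p := by
    intro s a
    obtain ⟨t, t', ht, ht', htt⟩ := d3_third s
    obtain ⟨q, hq, hqt⟩ := d3_common s t (Ne.symm ht) (κ (s, j₁ a)) (κ (t, o))
    obtain ⟨q', hq', hqt'⟩ := d3_common s t' (Ne.symm ht') (κ (s, j₁ a)) (κ (t', o))
    have h1 := hX.lab s a t t' ht ht' htt
    have h2 := hK.val (s, j₁ a) (t, o) (Ne.symm ht) q hq hqt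
    have h3 := hK.val (s, j₁ a) (t', o) (Ne.symm ht') q' hq' hqt'
    have h4 : q = q' := d3_eq hm h2 h3 h1
    subst h4
    have h5 : q = p := d3_inj t t' htt q p (by rw [hqt, hp]) (by rw [hqt', hp])
    rw [← hq, h5]
  -- `S` kills every vertex
  have hS : ∀ j, S (e j) = 0 := by
    intro j
    obtain ⟨s, t, hst, hs⟩ := d3_same p j
    obtain ⟨b, hb⟩ := hne t (chi t j)
    have hw : κ (t, j₀ b) = chi t j := by rw [hκ, hb]
    have hin : ∀ x : Bool, S (e j) ∈ Submodule.span ℝ (e' '' {i | chi s i = x}) := by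
      intro x
      obtain ⟨a, ha⟩ := hne' s x
      have h1 := hmem s a (t, j₀ b) hst
      rw [ha] at h1
      have h2 := hK.val (s, j₁ a) (t, j₀ b) hst j (by rw [hlab, hs]) hw.symm
      have h3 : S (u (s, j₁ a) (t, j₀ b)) ∈ Submodule.span ℝ (e' '' {i | chi s i = x}) := by
        rw [hX.rel]
        exact Submodule.smul_mem _ _ h1
      rcases h2 with h2 | h2
      · rw [h2] at h3
        exact h3
      · rw [h2, map_neg] at h3
        exact (Submodule.neg_mem_iff _).1 h3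
    have hdis : Disjoint {i | chi s i = false} {i | chi s i = true} := by
      rw [Set.disjoint_left]
      intro i hi hi'
      rw [Set.mem_ofPred_eq] at hi hi'
      rw [hi] at hi'
      exact absurd hi' (by decide)
    have h4 := hT'.li.disjoint_span_image hdis
    exact (Submodule.disjoint_def.1 h4) _ (hin false) (hin true)
  -- contradiction
  have hspan : Submodule.span ℝ (Set.range e) = ⊤ := by
    apply hT.li.span_eq_top_of_card_eq_finrank'
    simp [E4]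
  have hS0 : S = 0 := by
    ext1 x
    have hx : x ∈ Submodule.span ℝ (Set.range e) := by rw [hspan]; trivial
    induction hx using Submodule.span_induction with
    | mem y hy =>
      obtain ⟨j, rfl⟩ := hy
      rw [hS]
      rfl
    | zero => simp
    | add y z _ _ hy hz => rw [map_add, hy, hz]; simp
    | smul c y _ hy => rw [map_smul, hy]; simp
  have h5 := hX.normS
  rw [hS0, norm_zero] at h5
  norm_num at h5

end

end Pool.Agent.LP3
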