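import Pool.Agent.LP3.H61a

/-!
# Row D3a: classification
-/

namespace Pool.Agent.LP3

open Pool.Agent.LPI

/-- [D3a] classification. -/
theorem classify (r : ℕ) (hr : 1 ≤ r) (u : Fin 3 × Fin r → Fin 3 × Fin r → E4) (hu : Iso3 r u)
    (hf : ∀ v, Flat u v) :
    ∃ (e : Fin 4 → E4) (κ : Fin 3 × Fin r → Bool), Tet u e κ ∧ ∀ s b, ∃ a, κ (s, a) = b :=
  H61.classify r hr u hu hf

end Pool.Agent.LP3
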