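import Pool.Agent.LP3.Defs

/-! Linear algebra of the rows D3a, D3x, D3y: planes of `ℝ⁴`, the four-plane lemma. -/

set_option autoImplicit false

namespace Pool.Agent.LP3.D3aux

open Pool.Agent.LPI Pool.Agent.LPC Pool.Agent.LP3 Module

noncomputable section

/-! ### linear algebra -/

theorem plane {L : Submodule ℝ E4} (hL : finrank ℝ L ≤ 2) {x y z : E4} (hx : x ∈ L) (hy : y ∈ L)
    (hz : z ∈ L) (hxy : LinearIndependent ℝ ![x, y]) : ∃ α β : ℝ, α • x + β • y = z := by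
  have h1 : Submodule.span ℝ (Set.range ![x, y]) ≤ L := by
    rw [Submodule.span_le]
    rintro v ⟨i, rfl⟩
    fin_cases i
    · exact hx
    · exact hy
  have h2 : finrank ℝ (Submodule.span ℝ (Set.range ![x, y])) = 2 := by
    rw [finrank_span_eq_card hxy]
    rfl
  have h3 : Submodule.span ℝ (Set.range ![x, y]) = L :=
    Submodule.eq_of_le_of_finrank_le h1 (by rw [h2]; exact hL)
  rw [← h3] at hz
  have h4 : Set.range ![x, y] = {x, y} := by
    rw [Matrix.range_cons, Matrix.range_cons, Matrix.range_empty, Set.union_empty]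
    rfl
  rw [h4] at hz
  exact Submodule.mem_span_pair.1 hz

theorem par {x y : E4} (hx : x ≠ 0) (hy : y ≠ 0) (h : ¬ LinearIndependent ℝ ![x, y]) :
    ∃ a : ℝ, a ≠ 0 ∧ a • x = y := by
  rw [LinearIndependent.pair_iff' hx] at h
  push Not at h
  obtain ⟨a, ha⟩ := h
  refine ⟨a, ?_, ha⟩
  rintro rfl
  rw [zero_smul] at ha
  exact hy ha.symm

/-- A plane with two independent vectors in `W` lies in `W`. -/
theorem le_of_two {L W : Submodule ℝ E4} (hL : finrank ℝ L ≤ 2) {x y : E4}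
    (hx : x ∈ L) (hy : y ∈ L) (hxW : x ∈ W) (hyW : y ∈ W)
    (hxy : LinearIndependent ℝ ![x, y]) : L ≤ W := fun z hz => by
  obtain ⟨α, β, rfl⟩ := plane hL hx hy hz hxy
  exact W.add_mem (W.smul_mem _ hxW) (W.smul_mem _ hyW)

/-- Two different planes meet in at most a line. -/
theorem meet {L L' : Submodule ℝ E4} (hL : finrank ℝ L ≤ 2) (hL' : finrank ℝ L' ≤ 2)
    (hne : L ≠ L') {x y : E4} (hx : x ≠ 0) (hy : y ≠ 0) (h1 : x ∈ L) (h2 : x ∈ L') (h3 : y ∈ L)
    (h4 : y ∈ L') : ∃ a : ℝ, a ≠ 0 ∧ a • x = y := by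
  refine par hx hy fun h => hne ?_
  exact le_antisymm (le_of_two hL h1 h3 h2 h4 h) (le_of_two hL' h2 h4 h1 h3 h)

/-- FACT. -/
theorem fact {L L' M : Submodule ℝ E4} (hL : finrank ℝ L ≤ 2) (hL' : finrank ℝ L' ≤ 2)
    (hM : finrank ℝ M ≤ 2) (hne : L ≠ L') {q x y : E4} (hq : q ≠ 0) (hx : x ≠ 0) (hy : y ≠ 0)
    (hqL : q ∈ L) (hqL' : q ∈ L') (hxM : x ∈ M) (hxL : x ∈ L) (hyM : y ∈ M) (hyL' : y ∈ L') :
    q ∈ M ∨ M ≤ L ⊔ L' := by
  by_cases h : LinearIndependent ℝ ![x, y]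
  · right
    exact le_of_two hM hxM hyM (Submodule.mem_sup_left hxL) (Submodule.mem_sup_right hyL') h
  · left
    obtain ⟨a, ha, h'⟩ := par hx hy h
    have hxL' : x ∈ L' := (Submodule.smul_mem_iff L' ha).1 (h' ▸ hyL')
    obtain ⟨b, hb, h2⟩ := meet hL hL' hne hx hq hxL hxL' hqL hqL'
    rw [← h2]
    exact M.smul_mem b hxM

theorem finrank_sup {L L' : Submodule ℝ E4} (hL : finrank ℝ L ≤ 2) (hL' : finrank ℝ L' ≤ 2)
    {q : E4} (hq : q ≠ 0) (h1 : q ∈ L) (h2 : q ∈ L') : finrank ℝ (L ⊔ L' : Submodule ℝ E4) ≤ 3 := by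
  have h := Submodule.finrank_sup_add_finrank_inf_eq L L'
  have h3 : 1 ≤ finrank ℝ (L ⊓ L' : Submodule ℝ E4) := by
    rw [Nat.one_le_iff_ne_zero]
    intro h0
    have h4 : (L ⊓ L' : Submodule ℝ E4) = ⊥ := Submodule.finrank_eq_zero.1 h0
    have h5 : q ∈ (L ⊓ L' : Submodule ℝ E4) := ⟨h1, h2⟩
    rw [h4] at h5
    exact hq ((Submodule.mem_bot ℝ).1 h5)
  omega

/-- If `L` is not in `W`, two nonzero vectors of `L ∩ W` are parallel. -/
theorem key {L W : Submodule ℝ E4} (hL : finrank ℝ L ≤ 2) (h : ¬ L ≤ W) {x y : E4} (hx : x ≠ 0)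
    (hy : y ≠ 0) (hxL : x ∈ L) (hyL : y ∈ L) (hxW : x ∈ W) (hyW : y ∈ W) :
    ∃ a : ℝ, a ≠ 0 ∧ a • x = y :=
  par hx hy fun h' => h (le_of_two hL hxL hyL hxW hyW h')


theorem eq_span {L : Submodule ℝ E4} (hL : finrank ℝ L ≤ 2) {x y : E4} (hx : x ∈ L) (hy : y ∈ L)
    (hxy : LinearIndependent ℝ ![x, y]) : L = Submodule.span ℝ {x, y} := by
  refine le_antisymm ?_ ?_
  · exact le_of_two hL hx hy (Submodule.subset_span (by simp)) (Submodule.subset_span (by simp)) hxy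
  · rw [Submodule.span_le]
    rintro z hz
    rcases hz with rfl | hz
    · exact hx
    · rw [Set.mem_singleton_iff.1 hz]
      exact hy

/-- Not all the same line: independence. -/
theorem li_of_span_ne {x y : E4} (hx : x ≠ 0) (h : Submodule.span ℝ {x} ≠ Submodule.span ℝ {y})
    (hy : y ≠ 0) : LinearIndependent ℝ ![x, y] := by
  by_contra h'
  obtain ⟨t, ht, h2⟩ := par hx hy h'
  refine h ?_
  rw [← h2]
  exact (Submodule.span_singleton_smul_eq (IsUnit.mk0 t ht) x).symm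

theorem li_of_bot {L L' : Submodule ℝ E4} (h : L ⊓ L' = ⊥) {x y : E4} (hx : x ∈ L) (hy : y ∈ L')
    (hx0 : x ≠ 0) (hy0 : y ≠ 0) : LinearIndependent ℝ ![x, y] := by
  by_contra h'
  obtain ⟨t, ht, h2⟩ := par hx0 hy0 h'
  have h3 : y ∈ (L ⊓ L' : Submodule ℝ E4) := ⟨h2 ▸ L.smul_mem t hx, hy⟩
  rw [h] at h3
  exact hy0 ((Submodule.mem_bot ℝ).1 h3)

theorem li_four {L L' : Submodule ℝ E4} (h : L ⊓ L' = ⊥) {x₁ x₂ y₁ y₂ : E4}
    (hx₁ : x₁ ∈ L) (hx₂ : x₂ ∈ L) (hy₁ : y₁ ∈ L') (hy₂ : y₂ ∈ L')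
    (hx : LinearIndependent ℝ ![x₁, x₂]) (hy : LinearIndependent ℝ ![y₁, y₂]) :
    LinearIndependent ℝ ![x₁, x₂, y₁, y₂] := by
  rw [Fintype.linearIndependent_iff]
  intro g hg
  simp only [Fin.sum_univ_four, Matrix.cons_val_zero, Matrix.cons_val_one, Matrix.cons_val] at hg
  have h1 : g 0 • x₁ + g 1 • x₂ = -(g 2 • y₁ + g 3 • y₂) := by
    rw [← sub_eq_zero, ← hg]
    abel
  have h2 : g 0 • x₁ + g 1 • x₂ ∈ (L ⊓ L' : Submodule ℝ E4) := by
    refine ⟨L.add_mem (L.smul_mem _ hx₁) (L.smul_mem _ hx₂), ?_⟩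
    rw [h1]
    exact L'.neg_mem (L'.add_mem (L'.smul_mem _ hy₁) (L'.smul_mem _ hy₂))
  rw [h, Submodule.mem_bot] at h2
  have h3 : g 2 • y₁ + g 3 • y₂ = 0 := by
    rw [h2] at h1
    exact neg_eq_zero.1 h1.symm
  have h4 := LinearIndependent.pair_iff.1 hx _ _ h2
  have h5 := LinearIndependent.pair_iff.1 hy _ _ h3
  intro i
  fin_cases i
  · exact h4.1
  · exact h4.2
  · exact h5.1
  · exact h5.2

/-- The four-plane lemma. -/
theorem four_planes {x₁ x₂ y₁ y₂ : E4} (h : LinearIndependent ℝ ![x₁, x₂, y₁, y₂])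
    {L : Submodule ℝ E4} (hL : finrank ℝ L ≤ 2) {p p' q q' : E4}
    (hp0 : p ≠ 0) (hp0' : p' ≠ 0) (hq0 : q ≠ 0) (hq0' : q' ≠ 0)
    (hpL : p ∈ L) (hpL' : p' ∈ L) (hqL : q ∈ L) (hqL' : q' ∈ L)
    (hp : p ∈ Submodule.span ℝ {x₁, y₁}) (hp' : p' ∈ Submodule.span ℝ {x₂, y₂})
    (hq : q ∈ Submodule.span ℝ {x₁, y₂}) (hq' : q' ∈ Submodule.span ℝ {x₂, y₁}) :
    L = Submodule.span ℝ {x₁, x₂} ∨ L = Submodule.span ℝ {y₁, y₂} := by
  have hz : ∀ a b c d : ℝ, a • x₁ + b • x₂ + c • y₁ + d • y₂ = 0 → a = 0 ∧ b = 0 ∧ c = 0 ∧ d = 0 := by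
    intro a b c d h0
    have h1 := Fintype.linearIndependent_iff.1 h ![a, b, c, d] (by
      simpa [Fin.sum_univ_four] using h0)
    exact ⟨h1 0, h1 1, h1 2, h1 3⟩
  obtain ⟨α, β, rfl⟩ := Submodule.mem_span_pair.1 hp
  obtain ⟨γ, δ, rfl⟩ := Submodule.mem_span_pair.1 hp'
  obtain ⟨r, s, rfl⟩ := Submodule.mem_span_pair.1 hq
  obtain ⟨r', s', rfl⟩ := Submodule.mem_span_pair.1 hq'
  have hli : LinearIndependent ℝ ![α • x₁ + β • y₁, γ • x₂ + δ • y₂] := by
    by_contra h'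
    obtain ⟨t, ht, h2⟩ := par hp0 hp0' h'
    have h3 := hz (t * α) (-γ) (t * β) (-δ) (by
      rw [mul_smul, mul_smul, neg_smul, neg_smul]
      rw [smul_add] at h2
      rw [← sub_eq_zero] at h2
      rw [← h2]
      abel)
    refine hp0 ?_
    rw [(mul_eq_zero.1 h3.1).resolve_left ht, (mul_eq_zero.1 h3.2.2.1).resolve_left ht]
    simp
  obtain ⟨l, m, h1⟩ := plane hL hpL hpL' hqL hli
  obtain ⟨l', m', h2⟩ := plane hL hpL hpL' hqL' hli
  have h3 := hz (l * α - r) (m * γ) (l * β) (m * δ - s) (by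
    rw [← sub_eq_zero] at h1
    rw [← h1]
    module)
  have h4 := hz (l' * α) (m' * γ - r') (l' * β - s') (m' * δ) (by
    rw [← sub_eq_zero] at h2
    rw [← h2]
    module)
  have h5 : β = 0 ∨ γ = 0 := by
    by_contra hc
    push Not at hc
    have hl : l = 0 := (mul_eq_zero.1 h3.2.2.1).resolve_right hc.1
    have hm : m = 0 := (mul_eq_zero.1 h3.2.1).resolve_right hc.2
    refine hq0 ?_
    rw [← h1, hl, hm]
    simp
  have h6 : α = 0 ∨ δ = 0 := by
    by_contra hc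
    push Not at hc
    have hl : l' = 0 := (mul_eq_zero.1 h4.1).resolve_right hc.1
    have hm : m' = 0 := (mul_eq_zero.1 h4.2.2.2).resolve_right hc.2
    refine hq0' ?_
    rw [← h2, hl, hm]
    simp
  have hxx : LinearIndependent ℝ ![x₁, x₂] := by
    rw [LinearIndependent.pair_iff]
    intro a b hab
    have := hz a b 0 0 (by rw [zero_smul, zero_smul, add_zero, add_zero]; exact hab)
    exact ⟨this.1, this.2.1⟩
  have hyy : LinearIndependent ℝ ![y₁, y₂] := by
    rw [LinearIndependent.pair_iff]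
    intro a b hab
    have := hz 0 0 a b (by rw [zero_smul, zero_smul, zero_add, zero_add]; exact hab)
    exact ⟨this.2.2.1, this.2.2.2⟩
  rcases h5 with h5 | h5
  · have hα : α ≠ 0 := by
      rintro rfl
      refine hp0 ?_
      rw [h5]
      simp
    have hδ : δ = 0 := h6.resolve_left hα
    have hγ : γ ≠ 0 := by
      rintro rfl
      refine hp0' ?_
      rw [hδ]
      simp
    left
    refine eq_span hL ?_ ?_ hxx
    · rw [h5, zero_smul, add_zero] at hpL
      exact (Submodule.smul_mem_iff L hα).1 hpL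
    · rw [hδ, zero_smul, add_zero] at hpL'
      exact (Submodule.smul_mem_iff L hγ).1 hpL'
  · have hδ : δ ≠ 0 := by
      rintro rfl
      refine hp0' ?_
      rw [h5]
      simp
    have hα : α = 0 := h6.resolve_right hδ
    have hβ : β ≠ 0 := by
      rintro rfl
      refine hp0 ?_
      rw [hα]
      simp
    right
    refine eq_span hL ?_ ?_ hyy
    · rw [hα, zero_smul, zero_add] at hpL
      exact (Submodule.smul_mem_iff L hβ).1 hpL
    · rw [h5, zero_smul, zero_add] at hpL'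
      exact (Submodule.smul_mem_iff L hδ).1 hpL'

/-! ### combinatorics -/

theorem comb_aux {α β ι κ : Type} (f : ι → α × β) (g : κ → α × β)
    (h : ∀ i k, (f i).1 = (g k).1 ∨ (f i).2 = (g k).2) (hf : ∃ i i', f i ≠ f i')
    (hg : ∃ k k', g k ≠ g k') :
    (∃ i i' k k', (f i).1 ≠ (f i').1 ∧ (f i).2 ≠ (f i').2 ∧ g k = ((f i).1, (f i').2) ∧
      g k' = ((f i').1, (f i).2) ∧ (∀ j, f j = f i ∨ f j = f i') ∧ ∀ l, g l = g k ∨ g l = g k') ∨
    (∃ x, (∀ i, (f i).1 = x) ∧ ∀ k, (g k).1 = x) ∨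
    ∃ y, (∀ i, (f i).2 = y) ∧ ∀ k, (g k).2 = y := by
  by_cases hc : ∃ i i', (f i).1 ≠ (f i').1 ∧ (f i).2 ≠ (f i').2
  · left
    obtain ⟨i, i', h1, h2⟩ := hc
    have hgk : ∀ k, g k = ((f i).1, (f i').2) ∨ g k = ((f i').1, (f i).2) := by
      intro k
      rcases h i k with h3 | h3 <;> rcases h i' k with h4 | h4
      · exact (h1 (h3.trans h4.symm)).elim
      · left
        exact Prod.ext h3.symm h4.symm
      · right
        exact Prod.ext h4.symm h3.symm
      · exact (h2 (h3.trans h4.symm)).elim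
    obtain ⟨k, k', hk, hk'⟩ : ∃ k k', g k = ((f i).1, (f i').2) ∧ g k' = ((f i').1, (f i).2) := by
      obtain ⟨k, k', hkk⟩ := hg
      rcases hgk k with h3 | h3 <;> rcases hgk k' with h4 | h4
      · exact (hkk (h3.trans h4.symm)).elim
      · exact ⟨k, k', h3, h4⟩
      · exact ⟨k', k, h4, h3⟩
      · exact (hkk (h3.trans h4.symm)).elim
    refine ⟨i, i', k, k', h1, h2, hk, hk', fun j => ?_, fun l => ?_⟩
    · have h3 := h j k
      have h4 := h j k'
      rw [hk] at h3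
      rw [hk'] at h4
      rcases h3 with h3 | h3 <;> rcases h4 with h4 | h4
      · exact (h1 (h3.symm.trans h4)).elim
      · left
        exact Prod.ext h3 h4
      · right
        exact Prod.ext h4 h3
      · exact (h2 (h4.symm.trans h3)).elim
    · rw [hk, hk']
      exact hgk l
  · right
    push Not at hc
    obtain ⟨i, i', hi⟩ := hf
    obtain ⟨k, k', hk⟩ := hg
    by_cases h1 : (f i).1 = (f i').1
    · left
      have h2 : (f i).2 ≠ (f i').2 := fun h2 => hi (Prod.ext h1 h2)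
      have h3 : ∀ k, (g k).1 = (f i).1 := by
        intro k
        rcases h i k with h3 | h3
        · exact h3.symm
        · rcases h i' k with h4 | h4
          · rw [h1, h4]
          · exact (h2 (h3.trans h4.symm)).elim
      refine ⟨(f i).1, fun j => ?_, h3⟩
      have h4 : (g k).2 ≠ (g k').2 := fun h4 => hk (Prod.ext ((h3 k).trans (h3 k').symm) h4)
      rcases h j k with h5 | h5
      · rw [h5, h3]
      · rcases h j k' with h6 | h6
        · rw [h6, h3]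
        · exact (h4 (h5.symm.trans h6)).elim
    · right
      have h2 : (f i).2 = (f i').2 := hc i i' h1
      have h3 : ∀ k, (g k).2 = (f i).2 := by
        intro k
        rcases h i k with h3 | h3
        · rcases h i' k with h4 | h4
          · exact (h1 (h3.trans h4.symm)).elim
          · rw [h2, h4]
        · exact h3.symm
      refine ⟨(f i).2, fun j => ?_, h3⟩
      have h4 : (g k).1 ≠ (g k').1 := fun h4 => hk (Prod.ext h4 ((h3 k).trans (h3 k').symm))
      rcases h j k with h5 | h5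
      · rcases h j k' with h6 | h6
        · exact (h4 (h5.symm.trans h6)).elim
        · rw [h6, h3]
      · rw [h5, h3]

end

end Pool.Agent.LP3.D3aux
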