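import Pool.Agent.LP3.H61a

/-!
# Row D3m: masses of the classes of a tetrahedral array
-/

namespace Pool.Agent.LP3.H61

open Pool.Agent.LPI Module
open scoped BigOperators

noncomputable section

theorem chi_one : ∀ (c c' : Fin 3) (b b' : Bool), c ≠ c' →
    (∑ j : Fin 4, if chi c j = b ∧ chi c' j = b' then 1 else 0) = 1 := by decide

theorem chi_ex : ∀ (c c' : Fin 3) (b b' : Bool), c ≠ c' → ∃ j, chi c j = b ∧ chi c' j = b' := by
  decide

theorem chi_uniq : ∀ (c c' : Fin 3) (j j' : Fin 4), c ≠ c' → chi c j = chi c j' →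
    chi c' j = chi c' j' → j = j' := by decide

theorem chi_pair : ∀ (c : Fin 3) (b : Bool), ∃ i j : Fin 4, i ≠ j ∧ chi c i = b ∧ chi c j = b := by
  decide

/-- The number of ordered cross pairs with common vertex `j`. -/
def mas {r : ℕ} (κ : Fin 3 × Fin r → Bool) (j : Fin 4) : ℝ :=
  ∑ v : Fin 3 × Fin r, ∑ w : Fin 3 × Fin r,
    if v.1 ≠ w.1 ∧ chi v.1 j = κ v ∧ chi w.1 j = κ w then (1 : ℝ) else 0

theorem mas_sum {r : ℕ} (κ : Fin 3 × Fin r → Bool) : ∑ j, mas κ j = 6 * (r : ℝ) ^ 2 := by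
  unfold mas
  rw [← d3_tot r, Finset.sum_comm]
  refine Finset.sum_congr rfl fun v _ => ?_
  rw [Finset.sum_comm]
  refine Finset.sum_congr rfl fun w _ => ?_
  by_cases hvw : v.1 = w.1
  · rw [if_pos hvw]
    refine Finset.sum_eq_zero fun j _ => ?_
    rw [if_neg fun h => h.1 hvw]
  · rw [if_neg hvw]
    have h1 := chi_one v.1 w.1 (κ v) (κ w) hvw
    have h2 := congrArg (Nat.cast (R := ℝ)) h1
    push_cast at h2
    refine Eq.trans ?_ h2
    refine Finset.sum_congr rfl fun j _ => ?_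
    by_cases h : chi v.1 j = κ v ∧ chi w.1 j = κ w
    · rw [if_pos h, if_pos ⟨hvw, h⟩]
    · rw [if_neg h, if_neg fun h' => h h'.2]

theorem tet_norm {r : ℕ} {u : Fin 3 × Fin r → Fin 3 × Fin r → E4} (h1 : ∀ v w, ‖u v w‖ = 1)
    {e : Fin 4 → E4} {κ : Fin 3 × Fin r → Bool} (h : Tet u e κ) (hne : ∀ s b, ∃ a, κ (s, a) = b)
    (j : Fin 4) : ‖e j‖ = 1 := by
  obtain ⟨a, ha⟩ := hne 0 (chi 0 j)
  obtain ⟨b, hb⟩ := hne 1 (chi 1 j)
  have h01 : ((0, a) : Fin 3 × Fin r).1 ≠ ((1, b) : Fin 3 × Fin r).1 := by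
    show (0 : Fin 3) ≠ 1
    decide
  rcases h.val (0, a) (1, b) h01 j ha.symm hb.symm with h' | h'
  · rw [← h']; exact h1 _ _
  · rw [← norm_neg, ← h']; exact h1 _ _

/-- The isotropy bound in the direction `e i`. -/
theorem mas_le {r : ℕ} {u : Fin 3 × Fin r → Fin 3 × Fin r → E4} (hu : Iso3 r u)
    {e : Fin 4 → E4} {κ : Fin 3 × Fin r → Bool} (h : Tet u e κ) (hne : ∀ s b, ∃ a, κ (s, a) = b)
    (i j : Fin 4) (hij : i ≠ j) :
    mas κ i + mas κ j * (inner ℝ (e i) (e j)) ^ 2 ≤ 156 / 100 * (r : ℝ) ^ 2 := by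
  have hn := tet_norm hu.1 h hne
  have iso : (∑ v, ∑ w, if v.1 = w.1 then (0 : ℝ) else (inner ℝ (e i) (u v w)) ^ 2) ≤
      156 / 100 * (r : ℝ) ^ 2 := by
    have := (abs_le.1 (hu.2.2 (e i) (hn i))).2
    linarith
  refine le_trans ?_ iso
  unfold mas
  rw [Finset.sum_mul, ← Finset.sum_add_distrib]
  refine Finset.sum_le_sum fun v _ => ?_
  rw [Finset.sum_mul, ← Finset.sum_add_distrib]
  refine Finset.sum_le_sum fun w _ => ?_
  by_cases hvw : v.1 = w.1
  · rw [if_pos hvw, if_neg fun h' => h'.1 hvw, if_neg fun h' => h'.1 hvw, zero_mul, add_zero]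
  · rw [if_neg hvw]
    by_cases hi : chi v.1 i = κ v ∧ chi w.1 i = κ w
    · have hj : ¬ (v.1 ≠ w.1 ∧ chi v.1 j = κ v ∧ chi w.1 j = κ w) := fun h' =>
        hij (chi_uniq v.1 w.1 i j hvw (hi.1.trans h'.2.1.symm) (hi.2.trans h'.2.2.symm))
      rw [if_pos ⟨hvw, hi⟩, if_neg hj, zero_mul, add_zero]
      have e1 : (inner ℝ (e i) (u v w)) ^ 2 = 1 := by
        rcases h.val v w hvw i hi.1 hi.2 with h' | h'
        · rw [h', real_inner_self_eq_norm_sq, hn]
          norm_num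
        · rw [h', inner_neg_right, real_inner_self_eq_norm_sq, hn]
          norm_num
      rw [e1]
    · rw [if_neg fun h' => hi h'.2, zero_add]
      by_cases hj : chi v.1 j = κ v ∧ chi w.1 j = κ w
      · rw [if_pos ⟨hvw, hj⟩, one_mul]
        rcases h.val v w hvw j hj.1 hj.2 with h' | h'
        · rw [h']
        · rw [h', inner_neg_right, neg_sq]
      · rw [if_neg fun h' => hj h'.2, zero_mul]
        exact sq_nonneg _

theorem mas_nonneg {r : ℕ} (κ : Fin 3 × Fin r → Bool) (j : Fin 4) : 0 ≤ mas κ j := by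
  unfold mas
  refine Finset.sum_nonneg fun v _ => Finset.sum_nonneg fun w _ => ?_
  split_ifs <;> norm_num

theorem mas_ge {r : ℕ} {u : Fin 3 × Fin r → Fin 3 × Fin r → E4} (hu : Iso3 r u)
    {e : Fin 4 → E4} {κ : Fin 3 × Fin r → Bool} (h : Tet u e κ) (hne : ∀ s b, ∃ a, κ (s, a) = b)
    (j : Fin 4) : 132 / 100 * (r : ℝ) ^ 2 ≤ mas κ j := by
  have hs := mas_sum κ
  have hle : ∀ i, mas κ i ≤ 156 / 100 * (r : ℝ) ^ 2 := by
    intro i
    obtain ⟨i', hi'⟩ : ∃ i' : Fin 4, i ≠ i' := by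
      revert i
      decide
    have := mas_le hu h hne i i' hi'
    have h2 := mul_nonneg (mas_nonneg κ i') (sq_nonneg (inner ℝ (e i) (e i')))
    linarith
  rw [Fin.sum_univ_four] at hs
  have l0 := hle 0
  have l1 := hle 1
  have l2 := hle 2
  have l3 := hle 3
  fin_cases j
  · show _ ≤ mas κ 0
    linarith
  · show _ ≤ mas κ 1
    linarith
  · show _ ≤ mas κ 2
    linarith
  · show _ ≤ mas κ 3
    linarith

theorem mas_pair {r : ℕ} (κ : Fin 3 × Fin r → Bool) (s : Fin 3) (b : Bool) (i j : Fin 4)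
    (hij : i ≠ j) (hi : chi s i = b) (hj : chi s j = b) :
    mas κ i + mas κ j ≤
      4 * r * (Finset.univ.filter fun a : Fin r => κ (s, a) = b).card + 2 * (r : ℝ) ^ 2 := by
  have e0 : (∑ v : Fin 3 × Fin r, if v.1 = s ∧ κ v = b then (1 : ℝ) else 0) =
      (Finset.univ.filter fun a : Fin r => κ (s, a) = b).card := by
    rw [Fintype.sum_prod_type, Finset.sum_eq_single s]
    · simp
    · intro c _ hc
      refine Finset.sum_eq_zero fun a _ => ?_
      rw [if_neg fun h => hc h.1]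
    · intro h
      exact absurd (Finset.mem_univ _) h
  have e3 : (∑ v : Fin 3 × Fin r, ∑ w : Fin 3 × Fin r,
      (if v.1 = s ∧ κ v = b then (1 : ℝ) else 0) * (if v.1 = w.1 then (0 : ℝ) else 1)) =
      (Finset.univ.filter fun a : Fin r => κ (s, a) = b).card * (2 * r) := by
    rw [← e0, Finset.sum_mul]
    refine Finset.sum_congr rfl fun v _ => ?_
    rw [← Finset.mul_sum, d3_row]
  have e4 : (∑ v : Fin 3 × Fin r, ∑ w : Fin 3 × Fin r,
      (if w.1 = s ∧ κ w = b then (1 : ℝ) else 0) * (if w.1 = v.1 then (0 : ℝ) else 1)) =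
      (Finset.univ.filter fun a : Fin r => κ (s, a) = b).card * (2 * r) := by
    rw [Finset.sum_comm]
    exact e3
  have e5 : mas κ i + mas κ j ≤
      (∑ v : Fin 3 × Fin r, ∑ w : Fin 3 × Fin r,
        (if v.1 = s ∧ κ v = b then (1 : ℝ) else 0) * (if v.1 = w.1 then (0 : ℝ) else 1)) +
      ((∑ v : Fin 3 × Fin r, ∑ w : Fin 3 × Fin r,
        (if w.1 = s ∧ κ w = b then (1 : ℝ) else 0) * (if w.1 = v.1 then (0 : ℝ) else 1)) +
      ∑ v : Fin 3 × Fin r, ∑ w : Fin 3 × Fin r,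
        if v.1 ≠ w.1 ∧ v.1 ≠ s ∧ w.1 ≠ s then (1 : ℝ) else 0) := by
    unfold mas
    rw [← Finset.sum_add_distrib, ← Finset.sum_add_distrib, ← Finset.sum_add_distrib]
    refine Finset.sum_le_sum fun v _ => ?_
    rw [← Finset.sum_add_distrib, ← Finset.sum_add_distrib, ← Finset.sum_add_distrib]
    refine Finset.sum_le_sum fun w _ => ?_
    have p1 : (0 : ℝ) ≤ if v.1 = s ∧ κ v = b then (1 : ℝ) else 0 := by split_ifs <;> norm_num
    have p2 : (0 : ℝ) ≤ if w.1 = s ∧ κ w = b then (1 : ℝ) else 0 := by split_ifs <;> norm_num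
    have p3 : (0 : ℝ) ≤ if v.1 ≠ w.1 ∧ v.1 ≠ s ∧ w.1 ≠ s then (1 : ℝ) else 0 := by
      split_ifs <;> norm_num
    by_cases hvw : v.1 = w.1
    · rw [if_neg fun h' => h'.1 hvw, if_neg fun h' => h'.1 hvw, if_pos hvw, if_pos hvw.symm]
      linarith
    · rw [if_neg hvw, if_neg (Ne.symm hvw), mul_one, mul_one]
      -- the common vertex
      have main : ∀ k : Fin 4, chi s k = b → chi v.1 k = κ v → chi w.1 k = κ w →
          (1 : ℝ) ≤ (if v.1 = s ∧ κ v = b then (1 : ℝ) else 0) +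
            ((if w.1 = s ∧ κ w = b then (1 : ℝ) else 0) +
            if v.1 ≠ w.1 ∧ v.1 ≠ s ∧ w.1 ≠ s then (1 : ℝ) else 0) := by
        intro k hk hv hw
        by_cases hvs : v.1 = s
        · rw [if_pos (⟨hvs, by rw [← hv, hvs, hk]⟩ : v.1 = s ∧ κ v = b)]
          linarith
        · by_cases hws : w.1 = s
          · rw [if_pos (⟨hws, by rw [← hw, hws, hk]⟩ : w.1 = s ∧ κ w = b)]
            linarith
          · rw [if_pos (⟨hvw, hvs, hws⟩ : v.1 ≠ w.1 ∧ v.1 ≠ s ∧ w.1 ≠ s)]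
            linarith
      by_cases ci : chi v.1 i = κ v ∧ chi w.1 i = κ w
      · have cj : ¬ (v.1 ≠ w.1 ∧ chi v.1 j = κ v ∧ chi w.1 j = κ w) := fun h' =>
          hij (chi_uniq v.1 w.1 i j hvw (ci.1.trans h'.2.1.symm) (ci.2.trans h'.2.2.symm))
        rw [if_pos (⟨hvw, ci⟩ : v.1 ≠ w.1 ∧ chi v.1 i = κ v ∧ chi w.1 i = κ w), if_neg cj, add_zero]
        exact main i hi ci.1 ci.2
      · rw [if_neg fun h' => ci h'.2, zero_add]
        by_cases cj : chi v.1 j = κ v ∧ chi w.1 j = κ w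
        · rw [if_pos (⟨hvw, cj⟩ : v.1 ≠ w.1 ∧ chi v.1 j = κ v ∧ chi w.1 j = κ w)]
          exact main j hj cj.1 cj.2
        · rw [if_neg fun h' => cj h'.2]
          linarith
  rw [e3, e4, d3_one] at e5
  linarith

end

end Pool.Agent.LP3.H61

namespace Pool.Agent.LP3

open Pool.Agent.LPI Pool.Agent.LP3.H61 Module
open scoped BigOperators

noncomputable section

/-- [D3m] masses. -/
theorem masses (r : ℕ) (hr : 13 ≤ r) (u : Fin 3 × Fin r → Fin 3 × Fin r → E4) (hu : Iso3 r u)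
    (e : Fin 4 → E4) (κ : Fin 3 × Fin r → Bool) (h : Tet u e κ) (hne : ∀ s b, ∃ a, κ (s, a) = b) :
    (∀ i j, i ≠ j → |inner ℝ (e i) (e j)| < 1 / 2) ∧
      ∀ s b, ∃ a a' : Fin r, a ≠ a' ∧ κ (s, a) = b ∧ κ (s, a') = b := by
  have hr1 : (13 : ℝ) ≤ r := by exact_mod_cast hr
  have hr0 : (0 : ℝ) < (r : ℝ) ^ 2 := by positivity
  constructor
  · intro i j hij
    by_contra hcon
    push Not at hcon
    have h1 := mas_le hu h hne i j hij
    have h2 := mas_ge hu h hne i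
    have h3 := mas_ge hu h hne j
    have h4 : (1 / 4 : ℝ) ≤ (inner ℝ (e i) (e j)) ^ 2 := by
      rw [← sq_abs]
      nlinarith
    have h5 : 132 / 100 * (r : ℝ) ^ 2 * (1 / 4) ≤ mas κ j * (inner ℝ (e i) (e j)) ^ 2 :=
      mul_le_mul h3 h4 (by norm_num) (mas_nonneg κ j)
    nlinarith
  · intro s b
    obtain ⟨i, j, hij, hi, hj⟩ := chi_pair s b
    have h1 := mas_pair κ s b i j hij hi hj
    have h2 := mas_ge hu h hne i
    have h3 := mas_ge hu h hne j
    have h4 : 1 < (Finset.univ.filter fun a : Fin r => κ (s, a) = b).card := by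
      by_contra hcon
      push Not at hcon
      have h5 : ((Finset.univ.filter fun a : Fin r => κ (s, a) = b).card : ℝ) ≤ 1 := by
        exact_mod_cast hcon
      have h6 : 4 * (r : ℝ) * (Finset.univ.filter fun a : Fin r => κ (s, a) = b).card ≤
          4 * r * 1 := mul_le_mul_of_nonneg_left h5 (by positivity)
      nlinarith
    obtain ⟨a, ha, a', ha', hne'⟩ := Finset.one_lt_card.1 h4
    exact ⟨a, a', hne', (Finset.mem_filter.1 ha).2, (Finset.mem_filter.1 ha').2⟩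

end

end Pool.Agent.LP3
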