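import Pool.Agent.LP3.Defs

set_option autoImplicit false

/-! [D3p] flat arrays have property `P` (second copy, helper40). -/

namespace Pool.Agent.LP3

open Pool.Agent.LPI Pool.Agent.LPC

theorem pp_of_flat_of
    (classify : ∀ (r : ℕ), 1 ≤ r → ∀ (u : Fin 3 × Fin r → Fin 3 × Fin r → E4), Iso3 r u →
      (∀ v, Flat u v) →
      ∃ (e : Fin 4 → E4) (κ : Fin 3 × Fin r → Bool), Tet u e κ ∧ ∀ s b, ∃ a, κ (s, a) = b)
    (masses : ∀ (r : ℕ), 13 ≤ r → ∀ (u : Fin 3 × Fin r → Fin 3 × Fin r → E4), Iso3 r u →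
      ∀ (e : Fin 4 → E4) (κ : Fin 3 × Fin r → Bool), Tet u e κ → (∀ s b, ∃ a, κ (s, a) = b) →
      (∀ i j, i ≠ j → |inner ℝ (e i) (e j)| < 1 / 2) ∧
        ∀ s b, ∃ a a' : Fin r, a ≠ a' ∧ κ (s, a) = b ∧ κ (s, a') = b)
    (r : ℕ) (hr : 13 ≤ r) (u : Fin 3 × Fin r → Fin 3 × Fin r → E4)
    (hu : Iso3 r u) (hf : ∀ v, Flat u v) : PP r u := by
  obtain ⟨e, κ, hT, hne⟩ := classify r (by omega) u hu hf
  obtain ⟨-, hm⟩ := masses r hr u hu e κ hT hne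
  have h1 : ∀ s : Fin 3, ∃ a a' : Fin r, a ≠ a' ∧ κ (s, a) = chi s 0 ∧ κ (s, a') = chi s 0 :=
    fun s => hm s _
  choose a b hab ha hb using h1
  have key : ∀ v w w' : Fin 3 × Fin r, v.1 ≠ w.1 → v.1 ≠ w'.1 → κ v = chi v.1 0 →
      κ w = chi w.1 0 → κ w' = chi w'.1 0 → 1 / 2 < |inner ℝ (u v w) (u v w')| := by
    intro v w w' h1 h2 h3 h4 h5
    have h6 := hT.val v w h1 0 h3.symm h4.symm
    have h7 := hT.val v w' h2 0 h3.symm h5.symm
    have h8 : |inner ℝ (u v w) (u v w')| = |inner ℝ (u v w) (u v w)| := by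
      rcases h6 with h6 | h6 <;> rcases h7 with h7 | h7 <;> rw [h6, h7] <;>
        simp [inner_neg_left, inner_neg_right]
    rw [h8, real_inner_self_eq_norm_sq, hu.1]
    norm_num
  refine ⟨a, b, hab, ?_, fun s => ?_⟩
  · intro t t' ht ht' _
    exact key (0, a 0) (t, a t) (t', a t') (Ne.symm ht) (Ne.symm ht') (ha 0) (ha t) (ha t')
  · intro t t' ht ht' _
    exact key (s, b s) (t, a t) (t', a t') (Ne.symm ht) (Ne.symm ht') (hb s) (ha t) (ha t')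

end Pool.Agent.LP3
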