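import Pool.Agent.LP3.D3aux

/-! [D3x] the tetrahedral structure of a sample extends to all vertices. -/

set_option autoImplicit false

namespace Pool.Agent.LP3.D3xaux

open Pool.Agent.LPI Pool.Agent.LPC Pool.Agent.LP3 Pool.Agent.LP3.D3aux Module

noncomputable section

/-! ### edges -/

/-- The edge `b` of colour `s` of the tetrahedron `e`. -/
def edge (e : Fin 4 → E4) (s : Fin 3) (b : Bool) : Submodule ℝ E4 :=
  Submodule.span ℝ (e '' {i | chi s i = b})

theorem chi_false : ∀ (s : Fin 3) (j : Fin 4), chi s j = false ↔ j = 0 ∨ j = s.succ := by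
  decide

theorem chi_true : ∀ s t t' : Fin 3, s ≠ t → s ≠ t' → t ≠ t' → ∀ j : Fin 4,
    chi s j = true ↔ j = t.succ ∨ j = t'.succ := by
  decide

theorem chi_ne : ∀ s s' : Fin 3, s ≠ s' → ∀ b b' : Bool, ∃ k : Fin 4, chi s k = b ∧ chi s' k ≠ b' := by
  decide

theorem chi_surj : ∀ (s : Fin 3) (b : Bool), ∃ k : Fin 4, chi s k = b := by
  decide

theorem col_three : ∀ s : Fin 3, ∃ t t' : Fin 3, s ≠ t ∧ s ≠ t' ∧ t ≠ t' := by
  decide

theorem four_inj : ∀ s t t' : Fin 3, s ≠ t → s ≠ t' → t ≠ t' →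
    Function.Injective ![(0 : Fin 4), s.succ, t.succ, t'.succ] := by
  decide

theorem edge_false (e : Fin 4 → E4) (s : Fin 3) :
    edge e s false = Submodule.span ℝ {e 0, e s.succ} := by
  unfold edge
  congr 1
  ext x
  simp only [Set.mem_image, Set.mem_ofPred_eq, chi_false, Set.mem_insert_iff, Set.mem_singleton_iff]
  constructor
  · rintro ⟨j, rfl | rfl, rfl⟩
    · left
      rfl
    · right
      rfl
  · rintro (rfl | rfl)
    · exact ⟨0, Or.inl rfl, rfl⟩
    · exact ⟨s.succ, Or.inr rfl, rfl⟩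

theorem edge_true (e : Fin 4 → E4) {s t t' : Fin 3} (h1 : s ≠ t) (h2 : s ≠ t') (h3 : t ≠ t') :
    edge e s true = Submodule.span ℝ {e t.succ, e t'.succ} := by
  unfold edge
  congr 1
  ext x
  simp only [Set.mem_image, Set.mem_ofPred_eq, chi_true s t t' h1 h2 h3, Set.mem_insert_iff,
    Set.mem_singleton_iff]
  constructor
  · rintro ⟨j, rfl | rfl, rfl⟩
    · left
      rfl
    · right
      rfl
  · rintro (rfl | rfl)
    · exact ⟨t.succ, Or.inl rfl, rfl⟩
    · exact ⟨t'.succ, Or.inr rfl, rfl⟩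

theorem mem_edge {e : Fin 4 → E4} {s : Fin 3} {b : Bool} {j : Fin 4} (h : chi s j = b) :
    e j ∈ edge e s b := Submodule.subset_span ⟨j, h, rfl⟩

theorem edge_ne {e : Fin 4 → E4} (he : LinearIndependent ℝ e) {s s' : Fin 3} (h : s ≠ s')
    (b b' : Bool) : edge e s b ≠ edge e s' b' := by
  intro heq
  obtain ⟨k, hk, hk'⟩ := chi_ne s s' h b b'
  have h1 : e k ∈ edge e s' b' := heq ▸ mem_edge hk
  exact he.notMem_span_image (s := {i | chi s' i = b'}) hk' h1

theorem edge_inj {e : Fin 4 → E4} (he : LinearIndependent ℝ e) {s : Fin 3} {b b' : Bool}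
    (h : edge e s b = edge e s b') : b = b' := by
  by_contra hb
  obtain ⟨k, hk⟩ := chi_surj s b
  have h1 : e k ∈ edge e s b' := h ▸ mem_edge hk
  exact he.notMem_span_image (s := {i | chi s i = b'}) (fun h2 : chi s k = b' => hb (hk.symm.trans h2))
    h1

/-- A plane containing the vertices of an edge is the edge. -/
theorem eq_edge {e : Fin 4 → E4} (he : LinearIndependent ℝ e) {L : Submodule ℝ E4}
    (hL : finrank ℝ L ≤ 2) (s : Fin 3) (b : Bool) (h : ∀ i, chi s i = b → e i ∈ L) :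
    L = edge e s b := by
  have hpair : ∀ i j : Fin 4, i ≠ j → LinearIndependent ℝ ![e i, e j] := by
    intro i j hij
    have h1 : Function.Injective ![i, j] := by
      intro a c hac
      fin_cases a <;> fin_cases c
      · rfl
      · exact (hij hac).elim
      · exact (hij hac.symm).elim
      · rfl
    have h2 : ![e i, e j] = e ∘ ![i, j] := by
      funext k
      fin_cases k <;> rfl
    rw [h2]
    exact he.comp _ h1
  obtain ⟨t, t', h1, h2, h3⟩ := col_three s
  cases b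
  · rw [edge_false]
    exact eq_span hL (h 0 ((chi_false s 0).2 (Or.inl rfl))) (h s.succ ((chi_false s _).2 (Or.inr rfl)))
      (hpair _ _ (Fin.succ_ne_zero s).symm)
  · rw [edge_true e h1 h2 h3]
    exact eq_span hL (h t.succ ((chi_true s t t' h1 h2 h3 _).2 (Or.inl rfl)))
      (h t'.succ ((chi_true s t t' h1 h2 h3 _).2 (Or.inr rfl)))
      (hpair _ _ fun h4 => h3 (Fin.succ_injective _ h4))

/-- A plane which meets the four edges of the two other colours is an edge. -/
theorem edge_of_meet {e : Fin 4 → E4} (he : LinearIndependent ℝ e) {L : Submodule ℝ E4}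
    (hL : finrank ℝ L ≤ 2) (s : Fin 3)
    (h : ∀ t, t ≠ s → ∀ b, ∃ x : E4, x ≠ 0 ∧ x ∈ L ∧ x ∈ edge e t b) : ∃ b, L = edge e s b := by
  obtain ⟨t, t', h1, h2, h3⟩ := col_three s
  have hli : LinearIndependent ℝ ![e 0, e s.succ, e t.succ, e t'.succ] := by
    have h4 : ![e 0, e s.succ, e t.succ, e t'.succ] = e ∘ ![(0 : Fin 4), s.succ, t.succ, t'.succ] := by
      funext k
      fin_cases k <;> rfl
    rw [h4]
    exact he.comp _ (four_inj s t t' h1 h2 h3)
  obtain ⟨p, hp0, hpL, hp⟩ := h t h1.symm false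
  obtain ⟨p', hp0', hpL', hp'⟩ := h t h1.symm true
  obtain ⟨q, hq0, hqL, hq⟩ := h t' h2.symm false
  obtain ⟨q', hq0', hqL', hq'⟩ := h t' h2.symm true
  rw [edge_false] at hp hq
  rw [edge_true e h1.symm h3 h2] at hp'
  rw [edge_true e h2.symm h3.symm h1] at hq'
  rcases four_planes hli hL hp0 hp0' hq0 hq0' hpL hpL' hqL hqL' hp hp' hq hq' with h4 | h4
  · exact ⟨false, by rw [edge_false]; exact h4⟩
  · exact ⟨true, by rw [edge_true e h1 h2 h3]; exact h4⟩

/-! ### rows -/

/-- The span of the row `v`. -/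
def rowK {K : Type} (u : Fin 3 × K → Fin 3 × K → E4) (v : Fin 3 × K) : Submodule ℝ E4 :=
  Submodule.span ℝ (u v '' {w | v.1 ≠ w.1})

theorem rowK_mem {K : Type} (u : Fin 3 × K → Fin 3 × K → E4) {v w : Fin 3 × K} (h : v.1 ≠ w.1) :
    u v w ∈ rowK u v := Submodule.subset_span ⟨w, h, rfl⟩

theorem rowK_finrank {K : Type} (u : Fin 3 × K → Fin 3 × K → E4) (v : Fin 3 × K)
    (h : Flat u v) : finrank ℝ (rowK u v) ≤ 2 := by
  by_contra hc
  push Not at hc
  obtain ⟨f, hf, _, hli⟩ := Submodule.exists_fun_fin_finrank_span_eq ℝ (u v '' {w | v.1 ≠ w.1})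
  have hc' : 3 ≤ finrank ℝ (Submodule.span ℝ (u v '' {w | v.1 ≠ w.1})) := hc
  have h1 : LinearIndependent ℝ (f ∘ Fin.castLE hc') := hli.comp _ (Fin.castLE_injective hc')
  obtain ⟨b, hb', hb⟩ := hf (Fin.castLE hc' 0)
  obtain ⟨c, hc1', hc1⟩ := hf (Fin.castLE hc' 1)
  obtain ⟨d, hd', hd⟩ := hf (Fin.castLE hc' 2)
  refine h b c d hb' hc1' hd' ?_
  have h2 : ![u v b, u v c, u v d] = f ∘ Fin.castLE hc' := by
    funext i
    fin_cases i
    · exact hb
    · exact hc1
    · exact hd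
  rw [h2]
  exact h1

end

end Pool.Agent.LP3.D3xaux

namespace Pool.Agent.LP3

open Pool.Agent.LPI Pool.Agent.LPC Pool.Agent.LP3 Pool.Agent.LP3.D3aux Pool.Agent.LP3.D3xaux Module

noncomputable section

/-- [D3x] extension of the tetrahedral structure to all vertices. -/
theorem extend {K : Type} (r : ℕ) (j : Fin r → K) (u : Fin 3 × K → Fin 3 × K → E4)
    (h1 : ∀ v w, ‖u v w‖ = 1) (hs : ∀ v w, u v w = u w v) (hf : ∀ v, Flat u v)
    (e : Fin 4 → E4) (κ₀ : Fin 3 × Fin r → Bool) (h : Tet (res j u) e κ₀)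
    (hne : ∀ s b, ∃ a, κ₀ (s, a) = b) :
    ∃ κ : Fin 3 × K → Bool, Tet u e κ ∧ ∀ s a, κ (s, j a) = κ₀ (s, a) := by
  have hL : ∀ v, finrank ℝ (rowK u v) ≤ 2 := fun v => rowK_finrank u v (hf v)
  have hu0 : ∀ a b, u a b ≠ 0 := fun a b h => by
    have := h1 a b
    rw [h, norm_zero] at this
    exact zero_ne_one this
  have he := h.li
  -- the rows of the sample
  have hrow : ∀ s a, rowK u (s, j a) = edge e s (κ₀ (s, a)) := by
    intro s a
    refine eq_edge he (hL _) s _ fun i hi => ?_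
    obtain ⟨t, -, ht, -, -⟩ := col_three s
    obtain ⟨a', ha'⟩ := hne t (chi t i)
    have hm : u (s, j a) (t, j a') ∈ rowK u (s, j a) := rowK_mem u ht
    rcases h.val (s, a) (t, a') ht i hi ha'.symm with h2 | h2
    · have h3 : u (s, j a) (t, j a') = e i := h2
      rwa [h3] at hm
    · have h3 : u (s, j a) (t, j a') = - e i := h2
      rw [h3] at hm
      exact (Submodule.neg_mem_iff _).1 hm
  -- all rows
  have hall : ∀ v, ∃ b, rowK u v = edge e v.1 b := by
    intro v
    refine edge_of_meet he (hL v) v.1 fun t ht b => ?_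
    obtain ⟨a, ha⟩ := hne t b
    refine ⟨u v (t, j a), hu0 _ _, rowK_mem u ht.symm, ?_⟩
    rw [← ha, ← hrow t a, hs]
    exact rowK_mem u ht
  choose κ hκ using hall
  have hnorm : ∀ i, ‖e i‖ = 1 := by
    intro i
    obtain ⟨a, ha⟩ := hne 0 (chi 0 i)
    obtain ⟨a', ha'⟩ := hne 1 (chi 1 i)
    have h3 := h1 (0, j a) (1, j a')
    rcases h.val (0, a) (1, a') (by simp) i ha.symm ha'.symm with h2 | h2
    · have h4 : u (0, j a) (1, j a') = e i := h2
      rwa [h4] at h3
    · have h4 : u (0, j a) (1, j a') = - e i := h2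
      rwa [h4, norm_neg] at h3
  refine ⟨κ, ⟨he, fun v w hvw i hi hi' => ?_⟩, fun s a => ?_⟩
  · have h2 : e i ∈ rowK u v := by
      rw [hκ v]
      exact mem_edge hi
    have h3 : e i ∈ rowK u w := by
      rw [hκ w]
      exact mem_edge hi'
    have h4 : rowK u v ≠ rowK u w := by
      rw [hκ v, hκ w]
      exact edge_ne he hvw _ _
    have h5 : u v w ∈ rowK u w := by
      rw [hs]
      exact rowK_mem u hvw.symm
    obtain ⟨t, ht, h6⟩ := meet (hL v) (hL w) h4 (he.ne_zero i) (hu0 v w) h2 h3 (rowK_mem u hvw) h5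
    have h7 : |t| = 1 := by
      have h8 : ‖t • e i‖ = 1 := by
        rw [h6]
        exact h1 v w
      rwa [norm_smul, hnorm, mul_one, Real.norm_eq_abs] at h8
    rcases (abs_eq (zero_le_one' ℝ)).1 h7 with h8 | h8
    · left
      rw [← h6, h8, one_smul]
    · right
      rw [← h6, h8, neg_one_smul]
  · refine edge_inj he (s := s) ?_
    rw [← hrow s a]
    exact (hκ (s, j a)).symm

end

end Pool.Agent.LP3
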