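import Pool.Agent.LP3.D3m

/-!
# Row D3y: the row of a vertex of the sample lies in its edge
-/

namespace Pool.Agent.LP3.H61

open Pool.Agent.LPI Module
open scoped BigOperators

noncomputable section

theorem pm_mem {W : Submodule ℝ E4} {x y : E4} (h : x = y ∨ x = -y) : x ∈ W ↔ y ∈ W := by
  rcases h with h | h
  · rw [h]
  · rw [h, Submodule.neg_mem_iff]

end

end Pool.Agent.LP3.H61

namespace Pool.Agent.LP3

open Pool.Agent.LPI Pool.Agent.LP3.H61 Module
open scoped BigOperators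

noncomputable section

/-- [D3y] the row of a vertex of the sample lies in its edge. -/
theorem row_mem {K : Type} (r : ℕ) (j : Fin r → K) (u : Fin 3 × K → Fin 3 × K → E4)
    (h1 : ∀ v w, ‖u v w‖ = 1) (hs : ∀ v w, u v w = u w v) (hf : ∀ s a, Flat u (s, j a))
    (e : Fin 4 → E4) (κ₀ : Fin 3 × Fin r → Bool) (h : Tet (res j u) e κ₀)
    (hne : ∀ s b, ∃ a, κ₀ (s, a) = b) (s : Fin 3) (a : Fin r) (w : Fin 3 × K) (hw : s ≠ w.1) :
    u (s, j a) w ∈ Submodule.span ℝ (e '' {i | chi s i = κ₀ (s, a)}) := by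
  obtain ⟨i₁, i₂, hi, h1i, h2i⟩ := chi_pair s (κ₀ (s, a))
  obtain ⟨t, ht⟩ := d3_other s
  obtain ⟨a₁, ha₁⟩ := hne t (chi t i₁)
  obtain ⟨a₂, ha₂⟩ := hne t (chi t i₂)
  have v1 : u (s, j a) (t, j a₁) = e i₁ ∨ u (s, j a) (t, j a₁) = -(e i₁) :=
    h.val (s, a) (t, a₁) (Ne.symm ht) i₁ h1i ha₁.symm
  have v2 : u (s, j a) (t, j a₂) = e i₂ ∨ u (s, j a) (t, j a₂) = -(e i₂) :=
    h.val (s, a) (t, a₂) (Ne.symm ht) i₂ h2i ha₂.symm
  by_contra hcon
  refine hf s a w (t, j a₁) (t, j a₂) hw (Ne.symm ht) (Ne.symm ht) ?_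
  have key : LinearIndependent ℝ (Fin.cons (u (s, j a) w)
      ![u (s, j a) (t, j a₁), u (s, j a) (t, j a₂)] : Fin 3 → E4) := by
    rw [linearIndependent_finCons]
    constructor
    · rw [LinearIndependent.pair_iff' (fun h0 => by
        have := h1 (s, j a) (t, j a₁)
        rw [h0, norm_zero] at this
        exact zero_ne_one this)]
      intro c hc
      have m1 : e i₁ ∈ Submodule.span ℝ (e '' {i₁}) := Submodule.subset_span ⟨i₁, rfl, rfl⟩
      have m2 : u (s, j a) (t, j a₁) ∈ Submodule.span ℝ (e '' {i₁}) := (pm_mem v1).2 m1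
      have m3 : e i₂ ∈ Submodule.span ℝ (e '' {i₁}) := by
        rw [← pm_mem v2, ← hc]
        exact Submodule.smul_mem _ c m2
      exact h.li.notMem_span_image (s := {i₁}) (fun h' => hi (Set.mem_singleton_iff.1 h').symm) m3
    · intro hm
      apply hcon
      have hle : Submodule.span ℝ (Set.range ![u (s, j a) (t, j a₁), u (s, j a) (t, j a₂)]) ≤
          Submodule.span ℝ (e '' {i | chi s i = κ₀ (s, a)}) := by
        rw [Submodule.span_le]
        rintro z ⟨i, rfl⟩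
        fin_cases i
        · exact (pm_mem v1).2 (Submodule.subset_span ⟨i₁, h1i, rfl⟩)
        · exact (pm_mem v2).2 (Submodule.subset_span ⟨i₂, h2i, rfl⟩)
      exact hle hm
  exact key

end

end Pool.Agent.LP3
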