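import Pool.Agent.LP3.D3a
import Pool.Agent.LP3.D3m
import Pool.Agent.LP3.D3x
import Pool.Agent.LP3.D3y
import Pool.Agent.LP3.D3
import Pool.Agent.LP3.D3p40

/-! Rows D3p and D3 with the rows D3a, D3m, D3x, D3y put in. -/

namespace Pool.Agent.LP3

open Pool.Agent.LPI Pool.Agent.LPC

/-- [D3p] flat arrays have property `P`. -/
theorem pp_of_flat (r : ℕ) (hr : 13 ≤ r) (u : Fin 3 × Fin r → Fin 3 × Fin r → E4)
    (hu : Iso3 r u) (hf : ∀ v, Flat u v) : PP r u :=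
  pp_of_flat_of classify masses r hr u hu hf

/-- [D3] two frames. -/
theorem two_frames (r : ℕ) (hr : 13 ≤ r) {K : Type} (o : K) (j₀ j₁ : Fin r → K)
    (S : E4 →L[ℝ] E4) (u u' : Fin 3 × K → Fin 3 × K → E4) (hX : XX r o j₀ j₁ S u u') :
    (∃ v, ¬ Flat u v) ∨ ∃ s a, ¬ Flat u' (s, j₁ a) :=
  two_frames_of classify masses (fun {K} => extend (K := K)) (fun {K} => row_mem (K := K))
    r hr o j₀ j₁ S u u' hX

end Pool.Agent.LP3
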