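import Pool.Agent.LPC.Defs

/-! Three-colour robust version: common definitions (lift, unit, E3, E4 are those of `LPI.Defs`,
`met` is that of `LPC.Defs`). -/

namespace Pool.Agent.LP3

open Pool.Agent.LPI Pool.Agent.LPC
open scoped BigOperators

noncomputable section

/-- Three-coloured array of unit vectors, vertices `(s, a)`, `s : Fin 3` the colour; only the entries
with two different colours count; they are isotropic up to `1/100`. -/
def Iso3 (r : ℕ) (u : Fin 3 × Fin r → Fin 3 × Fin r → E4) : Prop :=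
  (∀ v w, ‖u v w‖ = 1) ∧ (∀ v w, u v w = u w v) ∧
    ∀ ν : E4, ‖ν‖ = 1 →
      |(∑ v, ∑ w, if v.1 = w.1 then (0 : ℝ) else (inner ℝ ν (u v w)) ^ 2) - (6 * r ^ 2 : ℝ) / 4|
        ≤ (6 * r ^ 2 : ℝ) / 100

/-- The row `v` has no three independent vectors (`w` of colours different from that of `v`). -/
def Flat {K : Type} (u : Fin 3 × K → Fin 3 × K → E4) (v : Fin 3 × K) : Prop :=
  ∀ w₁ w₂ w₃ : Fin 3 × K, v.1 ≠ w₁.1 → v.1 ≠ w₂.1 → v.1 ≠ w₃.1 →
    ¬ LinearIndependent ℝ ![u v w₁, u v w₂, u v w₃]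

/-- `v` is labelled by the anchors `(t, g t)`. -/
def Lab {K : Type} (u : Fin 3 × K → Fin 3 × K → E4) (g : Fin 3 → K) (v : Fin 3 × K) : Prop :=
  ∀ t t' : Fin 3, t ≠ v.1 → t' ≠ v.1 → t ≠ t' →
    1 / 2 ≤ |inner ℝ (u v (t, g t)) (u v (t', g t'))|

/-- strict form of `Lab`. -/
def SLab {K : Type} (u : Fin 3 × K → Fin 3 × K → E4) (g : Fin 3 → K) (v : Fin 3 × K) : Prop :=
  ∀ t t' : Fin 3, t ≠ v.1 → t' ≠ v.1 → t ≠ t' →
    1 / 2 < |inner ℝ (u v (t, g t)) (u v (t', g t'))|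

/-- The open property `P` of stage 1. -/
def PP (r : ℕ) (u : Fin 3 × Fin r → Fin 3 × Fin r → E4) : Prop :=
  ∃ a b : Fin 3 → Fin r, (∀ s, a s ≠ b s) ∧ SLab u a (0, a 0) ∧ ∀ s, SLab u a (s, b s)

/-- The class (edge) of colour `s` of the tetrahedron through the vertex `j`:
colour 0: `01 | 23`, colour 1: `02 | 13`, colour 2: `03 | 12`. -/
def chi : Fin 3 → Fin 4 → Bool :=
  ![![false, false, true, true], ![false, true, false, true], ![false, true, true, false]]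

/-- Tetrahedral array: the vertex `v` of the array has the edge `(v.1, κ v)` of the tetrahedron and
`u v w = ± e j`, `j` the common vertex of the edges of `v` and `w`. -/
structure Tet {K : Type} (u : Fin 3 × K → Fin 3 × K → E4) (e : Fin 4 → E4)
    (κ : Fin 3 × K → Bool) : Prop where
  li : LinearIndependent ℝ e
  val : ∀ v w : Fin 3 × K, v.1 ≠ w.1 → ∀ j, chi v.1 j = κ v → chi w.1 j = κ w →
    u v w = e j ∨ u v w = - e j

/-- Restriction of an array. -/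
def res {K L : Type} (j : L → K) (u : Fin 3 × K → Fin 3 × K → E4) :
    Fin 3 × L → Fin 3 × L → E4 := fun v w => u (v.1, j v.2) (w.1, j w.2)

/-- The compact set of stage 2: `o` the anchors, `j₀`, `j₁` the two samples. -/
structure XX (r : ℕ) {K : Type} (o : K) (j₀ j₁ : Fin r → K) (S : E4 →L[ℝ] E4)
    (u u' : Fin 3 × K → Fin 3 × K → E4) : Prop where
  normS : ‖S‖ = 1
  norm : ∀ v w, ‖u v w‖ = 1
  sym : ∀ v w, u v w = u w v
  norm' : ∀ v w, ‖u' v w‖ = 1
  sym' : ∀ v w, u' v w = u' w v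
  rel : ∀ v w, S (u v w) = ‖S (u v w)‖ • u' v w
  iso : Iso3 r (res j₀ u)
  iso' : Iso3 r (res j₁ u')
  anc : Lab u (fun _ => o) (0, o)
  lab : ∀ s a, Lab u (fun _ => o) (s, j₁ a)

/-- The row `v` is crossed by the plane through `P`, `Q`. -/
def Crossed {K : Type} (u : Fin 3 × K → Fin 3 × K → E4) (v : Fin 3 × K) (P Q : E4) : Prop :=
  ∃ (w₁ w₂ w₃ : Fin 3 × K) (α β γ ω : ℝ), v.1 ≠ w₁.1 ∧ v.1 ≠ w₂.1 ∧ v.1 ≠ w₃.1 ∧
    0 < α ∧ 0 < β ∧ 0 < γ ∧ α • u v w₁ + β • u v w₂ + γ • u v w₃ = P + ω • Q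

open Classical in
/-- A point of the set (if any). -/
def pick (K : Set E3) : E3 := if h : K.Nonempty then h.some else 0

/-- The chosen point of `A v ∩ A w`. -/
def pt {ι : Type} (A : Fin 3 → ι → Set E3) (v w : Fin 3 × ι) : E3 :=
  pick (A v.1 v.2 ∩ A w.1 w.2)

/-- The array of the family in the frame `T`. -/
def arr {ι : Type} (A : Fin 3 → ι → Set E3) (T : E4 ≃ₗ[ℝ] E4) (v w : Fin 3 × ι) : E4 :=
  unit (T (lift (pt A v w)))

/-- `T` is an isotropic frame of the family. -/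
def IsoF {ι : Type} [Fintype ι] (A : Fin 3 → ι → Set E3) (T : E4 ≃ₗ[ℝ] E4) : Prop :=
  ∀ ν : E4, ‖ν‖ = 1 →
    |(∑ v, ∑ w, if v.1 = w.1 then (0 : ℝ) else (inner ℝ ν (arr A T v w)) ^ 2)
      / (6 * (Fintype.card ι : ℝ) ^ 2) - 1 / 4| ≤ 1 / 400

/-- Convex sets, few disjoint pairs of different colours, every line meets few members. -/
structure Fam {ι : Type} [Fintype ι] (c e : ℝ) (A : Fin 3 → ι → Set E3) : Prop where
  conv : ∀ s i, Convex ℝ (A s i)
  disj : ∀ s t, s ≠ t → (Nat.card {ij : ι × ι // ¬ (A s ij.1 ∩ A t ij.2).Nonempty} : ℝ)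
    ≤ e * (Fintype.card ι : ℝ) ^ 2
  few : ∀ s (x d : E3), d ≠ 0 → (met (A s) x d : ℝ) < c * Fintype.card ι

end

end Pool.Agent.LP3
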