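import Pool.Agent.LPC.Defs
import Pool.Agent.LPI.P

set_option autoImplicit false

namespace Pool.Agent.LP3

open Pool.Agent.LPI Pool.Agent.LPC Finset

/-- [P3] -/
theorem plane_bound {ι : Type} [Fintype ι] (A : Fin 3 → ι → Set E3)
    (hconv : ∀ s i, Convex ℝ (A s i)) (R : Fin 3 × ι → Fin 3 × ι → Prop)
    (p : Fin 3 × ι → Fin 3 × ι → E3)
    (hp : ∀ v w, R v w → p v w ∈ A v.1 v.2) (hR : ∀ v w, R v w → R w v)
    (hsym : ∀ v w, p v w = p w v) (e : ℝ)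
    (he : (Nat.card {vw : (Fin 3 × ι) × (Fin 3 × ι) //
      vw.1.1 ≠ vw.2.1 ∧ ¬ R vw.1 vw.2} : ℝ) ≤ e * (6 * (Fintype.card ι : ℝ) ^ 2))
    (c : ℝ) (hc : ∀ s (x d : E3), d ≠ 0 → (met (A s) x d : ℝ) < c * Fintype.card ι)
    (a : E3) (ha : a ≠ 0) (b : ℝ) :
    (Nat.card {vw : (Fin 3 × ι) × (Fin 3 × ι) // vw.1.1 ≠ vw.2.1 ∧ inner ℝ a (p vw.1 vw.2) = b} : ℝ)
      ≤ (2 * c + e) * (6 * (Fintype.card ι : ℝ) ^ 2) := by
  classical
  obtain ⟨q, hq⟩ := exists_onb a ha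
  have hn0 : ‖a‖ ≠ 0 := norm_ne_zero_iff.2 ha
  obtain ⟨t, ht⟩ : ∃ t : Fin 3 × ι → Fin 3 × ι → ℝ, ∀ i j, t i j = inner ℝ (q 1) (p i j) :=
    ⟨_, fun _ _ => rfl⟩
  obtain ⟨G, hG⟩ : ∃ G : Fin 3 × ι → Fin 3 × ι → Prop,
      ∀ i j, G i j ↔ i.1 ≠ j.1 ∧ R i j ∧ inner ℝ a (p i j) = b :=
    ⟨fun i j => i.1 ≠ j.1 ∧ R i j ∧ inner ℝ a (p i j) = b, fun _ _ => Iff.rfl⟩
  have hGs : ∀ i j, G i j → G j i := fun i j h => by
    rw [hG] at h ⊢
    exact ⟨Ne.symm h.1, hR _ _ h.2.1, by rw [hsym j i]; exact h.2.2⟩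
  have hts : ∀ i j, t i j = t j i := fun i j => by rw [ht, ht, hsym]
  have hmin : ∀ i, ∃ j0, (∃ j, G i j) → G i j0 ∧ ∀ j, G i j → t i j0 ≤ t i j := by
    intro i
    by_cases h : ∃ j, G i j
    · obtain ⟨j, hj⟩ := h
      obtain ⟨j0, h0, h1⟩ := Finset.exists_min_image (univ.filter fun j => G i j) (t i)
        ⟨j, by simpa using hj⟩
      exact ⟨j0, fun _ => ⟨by simpa using h0, fun j hj => h1 j (by simpa using hj)⟩⟩
    · exact ⟨i, fun h' => absurd h' h⟩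
  choose j0 hj0 using hmin
  obtain ⟨S, hS⟩ : ∃ S : Fin 3 × ι → Finset (Fin 3 × ι), ∀ i j, j ∈ S i ↔ (∃ k, G i k) ∧
      i.1 ≠ j.1 ∧ ∃ j1 j2, G j j1 ∧ G j j2 ∧ t j j1 ≤ t i (j0 i) ∧ t i (j0 i) ≤ t j j2 :=
    ⟨fun i => univ.filter fun j => (∃ k, G i k) ∧ i.1 ≠ j.1 ∧
      ∃ j1 j2, G j j1 ∧ G j j2 ∧ t j j1 ≤ t i (j0 i) ∧ t i (j0 i) ≤ t j j2, fun i j => by simp⟩
  have he2 : q 2 ≠ 0 := q.orthonormal.ne_zero 2
  -- each `S i` is met by a line
  have hSc : ∀ i, ((S i).card : ℝ) ≤ 2 * (c * Fintype.card ι) := by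
    intro i
    obtain ⟨Ln, hLn⟩ : ∃ Ln : Fin 3 → Finset ι, ∀ s k, k ∈ Ln s ↔
        ∃ r : ℝ, p i (j0 i) + r • q 2 ∈ A s k :=
      ⟨fun s => univ.filter fun k => ∃ r : ℝ, p i (j0 i) + r • q 2 ∈ A s k, fun s k => by simp⟩
    have hLc : ∀ s, ((Ln s).card : ℝ) ≤ c * Fintype.card ι := by
      intro s
      refine le_trans ?_ (hc s (p i (j0 i)) (q 2) he2).le
      unfold met
      rw [Nat.card_eq_fintype_card, Fintype.card_subtype]
      exact_mod_cast Finset.card_le_card fun k hk => by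
        simpa using (hLn s k).1 hk
    have hsub : S i ⊆ (univ.filter fun s => i.1 ≠ s).biUnion fun s =>
        (Ln s).map ⟨fun k => (s, k), fun x y h => (Prod.mk.inj h).2⟩ := by
      intro j hj
      obtain ⟨hi, hij, j1, j2, h1, h2, h3, h4⟩ := (hS i j).1 hj
      have h0 := (hj0 i hi).1
      rw [Finset.mem_biUnion]
      refine ⟨j.1, by simpa using hij, ?_⟩
      rw [Finset.mem_map]
      refine ⟨j.2, ?_, rfl⟩
      rw [hLn]
      obtain ⟨α, β, hα, hβ, hαβ, hval⟩ : ∃ α β : ℝ, 0 ≤ α ∧ 0 ≤ β ∧ α + β = 1 ∧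
          α * t j j1 + β * t j j2 = t i (j0 i) := by
        have hm : t i (j0 i) ∈ Set.Icc (t j j1) (t j j2) := ⟨h3, h4⟩
        rw [← segment_eq_Icc (h3.trans h4)] at hm
        obtain ⟨α, β, h5, h6, h7, h8⟩ := hm
        exact ⟨α, β, h5, h6, h7, by simpa using h8⟩
      have hy : α • p j j1 + β • p j j2 ∈ A j.1 j.2 :=
        hconv j.1 j.2 (hp j j1 ((hG _ _).1 h1).2.1) (hp j j2 ((hG _ _).1 h2).2.1) hα hβ hαβ
      refine ⟨inner ℝ (q 2) (α • p j j1 + β • p j j2 - p i (j0 i)), ?_⟩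
      have e0 : inner ℝ (q 0) (α • p j j1 + β • p j j2 - p i (j0 i)) = 0 := by
        rw [hq, real_inner_smul_left, inner_sub_right, inner_add_right, real_inner_smul_right,
          real_inner_smul_right, ((hG _ _).1 h1).2.2, ((hG _ _).1 h2).2.2, ((hG _ _).1 h0).2.2,
          ← add_mul, hαβ]
        ring
      have e1 : inner ℝ (q 1) (α • p j j1 + β • p j j2 - p i (j0 i)) = 0 := by
        rw [inner_sub_right, inner_add_right, real_inner_smul_right,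
          real_inner_smul_right, ← ht, ← ht, ← ht, hval]
        ring
      have hrep := q.sum_repr' (α • p j j1 + β • p j j2 - p i (j0 i))
      rw [Fin.sum_univ_three, e0, e1, zero_smul, zero_smul, zero_add, zero_add] at hrep
      rw [hrep]
      simpa using hy
    have h3 : (univ.filter fun s : Fin 3 => i.1 ≠ s).card = 2 := by
      have h4 : (univ.filter fun s : Fin 3 => i.1 ≠ s) = univ.erase i.1 := by
        ext s
        simp [eq_comm]
      rw [h4, Finset.card_erase_of_mem (mem_univ _), Finset.card_univ, Fintype.card_fin]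
    calc ((S i).card : ℝ) ≤ ((∑ s ∈ univ.filter (fun s => i.1 ≠ s), (Ln s).card : ℕ) : ℝ) := by
          have h5 := (Finset.card_le_card hsub).trans Finset.card_biUnion_le
          simp only [Finset.card_map] at h5
          exact_mod_cast h5
      _ = ∑ s ∈ univ.filter (fun s => i.1 ≠ s), ((Ln s).card : ℝ) := by push_cast; rfl
      _ ≤ ∑ _s ∈ univ.filter (fun s : Fin 3 => i.1 ≠ s), c * Fintype.card ι :=
          Finset.sum_le_sum fun s _ => hLc s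
      _ = 2 * (c * Fintype.card ι) := by
          rw [Finset.sum_const, h3, nsmul_eq_mul]
          norm_num
  have hcov : ∀ i j, G i j → j ∈ S i ∨ i ∈ S j := by
    intro i j hij
    have hji := hGs i j hij
    have hi := hj0 i ⟨j, hij⟩
    have hj := hj0 j ⟨i, hji⟩
    rcases le_total (t j (j0 j)) (t i (j0 i)) with h | h
    · left
      refine (hS i j).2 ⟨⟨j, hij⟩, ((hG _ _).1 hij).1, j0 j, i, hj.1, hji, h, ?_⟩
      rw [← hts i j]
      exact hi.2 j hij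
    · right
      refine (hS j i).2 ⟨⟨i, hji⟩, ((hG _ _).1 hji).1, j0 i, j, hi.1, hij, h, ?_⟩
      rw [hts i j]
      exact hj.2 i hji
  have hcard : (Nat.card {vw : (Fin 3 × ι) × (Fin 3 × ι) //
      vw.1.1 ≠ vw.2.1 ∧ inner ℝ a (p vw.1 vw.2) = b}) ≤
      (∑ i, (S i).card + ∑ i, (S i).card) + Nat.card {vw : (Fin 3 × ι) × (Fin 3 × ι) //
      vw.1.1 ≠ vw.2.1 ∧ ¬ R vw.1 vw.2} := by
    rw [Nat.card_eq_fintype_card, Fintype.card_subtype, Nat.card_eq_fintype_card,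
      Fintype.card_subtype]
    have h1 : (univ.filter fun vw : (Fin 3 × ι) × (Fin 3 × ι) =>
        vw.1.1 ≠ vw.2.1 ∧ inner ℝ a (p vw.1 vw.2) = b) ⊆
        ((univ.filter fun vw : (Fin 3 × ι) × (Fin 3 × ι) => vw.2 ∈ S vw.1) ∪
          (univ.filter fun vw : (Fin 3 × ι) × (Fin 3 × ι) => vw.1 ∈ S vw.2)) ∪
          (univ.filter fun vw : (Fin 3 × ι) × (Fin 3 × ι) => vw.1.1 ≠ vw.2.1 ∧ ¬ R vw.1 vw.2) := by
      intro vw hvw
      have hvw' := (mem_filter.1 hvw).2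
      rw [mem_union, mem_union, mem_filter, mem_filter, mem_filter]
      by_cases hRvw : R vw.1 vw.2
      · rcases hcov vw.1 vw.2 ((hG _ _).2 ⟨hvw'.1, hRvw, hvw'.2⟩) with h | h
        · exact Or.inl (Or.inl ⟨mem_univ _, h⟩)
        · exact Or.inl (Or.inr ⟨mem_univ _, h⟩)
      · exact Or.inr ⟨mem_univ _, hvw'.1, hRvw⟩
    refine (card_le_card h1).trans ((card_union_le _ _).trans (Nat.add_le_add_right ?_ _))
    refine (card_union_le _ _).trans (le_of_eq ?_)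
    congr 1
    · rw [card_filter, Fintype.sum_prod_type]
      refine sum_congr rfl fun i _ => ?_
      simp
    · rw [card_filter, Fintype.sum_prod_type_right]
      refine sum_congr rfl fun i _ => ?_
      simp
  have hsum : ((∑ i, (S i).card : ℕ) : ℝ) ≤
      (3 * Fintype.card ι) * (2 * (c * Fintype.card ι)) := by
    push_cast
    calc ∑ i, ((S i).card : ℝ) ≤ ∑ _i : Fin 3 × ι, 2 * (c * Fintype.card ι) :=
          sum_le_sum fun i _ => hSc i
      _ = (3 * Fintype.card ι) * (2 * (c * Fintype.card ι)) := by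
          rw [Finset.sum_const, Finset.card_univ, Fintype.card_prod, Fintype.card_fin,
            nsmul_eq_mul]
          push_cast
          ring
  calc (Nat.card {vw : (Fin 3 × ι) × (Fin 3 × ι) //
        vw.1.1 ≠ vw.2.1 ∧ inner ℝ a (p vw.1 vw.2) = b} : ℝ)
      ≤ (((∑ i, (S i).card + ∑ i, (S i).card) + Nat.card {vw : (Fin 3 × ι) × (Fin 3 × ι) //
          vw.1.1 ≠ vw.2.1 ∧ ¬ R vw.1 vw.2} : ℕ) : ℝ) := by exact_mod_cast hcard
    _ = ((∑ i, (S i).card : ℕ) : ℝ) + ((∑ i, (S i).card : ℕ) : ℝ) +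
        (Nat.card {vw : (Fin 3 × ι) × (Fin 3 × ι) //
          vw.1.1 ≠ vw.2.1 ∧ ¬ R vw.1 vw.2} : ℝ) := by push_cast; ring
    _ ≤ (3 * Fintype.card ι) * (2 * (c * Fintype.card ι)) +
        (3 * Fintype.card ι) * (2 * (c * Fintype.card ι)) +
        e * (6 * (Fintype.card ι : ℝ) ^ 2) := add_le_add (add_le_add hsum hsum) he
    _ = (2 * c + e) * (6 * (Fintype.card ι : ℝ) ^ 2) := by ring

end Pool.Agent.LP3
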