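import Pool.Agent.LP3.Defs
import Pool.Agent.LP3.P3
import Pool.Agent.LPC.A4

set_option autoImplicit false

namespace Pool.Agent.LP3

open Pool.Agent.LPI Pool.Agent.LPC

noncomputable section

theorem pick_mem {K : Set E3} (h : K.Nonempty) : pick K ∈ K := by
  unfold pick
  rw [dif_pos h]
  exact h.some_mem

theorem pt_mem {ι : Type} (A : Fin 3 → ι → Set E3) {v w : Fin 3 × ι}
    (h : (A v.1 v.2 ∩ A w.1 w.2).Nonempty) : pt A v w ∈ A v.1 v.2 := (pick_mem h).1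

theorem pt_symm {ι : Type} (A : Fin 3 → ι → Set E3) (v w : Fin 3 × ι) : pt A v w = pt A w v := by
  unfold pt
  rw [Set.inter_comm]

/-! ## Cross pairs -/

theorem f3_cross {ι : Type} [Fintype ι] (F : Fin 3 × ι → Fin 3 × ι → ℝ) :
    (∑ v, ∑ w, if v.1 = w.1 then (0 : ℝ) else F v w) =
      ∑ s : Fin 3, ∑ t : Fin 3, if s = t then (0 : ℝ) else ∑ i, ∑ j, F (s, i) (t, j) := by
  simp only [Fintype.sum_prod_type]
  refine Finset.sum_congr rfl fun s _ => ?_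
  rw [Finset.sum_comm]
  refine Finset.sum_congr rfl fun t _ => ?_
  by_cases h : s = t
  · simp [h]
  · simp [h]

open Classical in
theorem f3_cardP {ι : Type} [Fintype ι] (P : ι → ι → Prop) :
    (Nat.card {ij : ι × ι // P ij.1 ij.2} : ℝ) = ∑ i, ∑ j, if P i j then (1 : ℝ) else 0 := by
  rw [Nat.card_eq_fintype_card, Fintype.card_subtype, Finset.card_filter, Fintype.sum_prod_type]
  push_cast
  rfl

open Classical in
theorem f3_cardC {ι : Type} [Fintype ι] (P : Fin 3 × ι → Fin 3 × ι → Prop) :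
    (Nat.card {vw : (Fin 3 × ι) × (Fin 3 × ι) // vw.1.1 ≠ vw.2.1 ∧ P vw.1 vw.2} : ℝ) =
      ∑ v, ∑ w, if v.1 = w.1 then (0 : ℝ) else if P v w then 1 else 0 := by
  rw [Nat.card_eq_fintype_card, Fintype.card_subtype, Finset.card_filter, Fintype.sum_prod_type]
  push_cast
  refine Finset.sum_congr rfl fun v _ => Finset.sum_congr rfl fun w _ => ?_
  by_cases h : v.1 = w.1
  · simp [h]
  · by_cases h2 : P v w
    · simp [h, h2]
    · simp [h, h2]

theorem f3_sumC {ι : Type} [Fintype ι] (F : Fin 3 × ι → Fin 3 × ι → ℝ) :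
    ∑ k : {vw : (Fin 3 × ι) × (Fin 3 × ι) // vw.1.1 ≠ vw.2.1}, F k.1.1 k.1.2 =
      ∑ v, ∑ w, if v.1 = w.1 then (0 : ℝ) else F v w := by
  classical
  have h1 := Finset.sum_subtype (F := inferInstance)
    (Finset.univ.filter fun vw : (Fin 3 × ι) × (Fin 3 × ι) => vw.1.1 ≠ vw.2.1)
    (p := fun vw => vw.1.1 ≠ vw.2.1) (fun x => by simp) (fun vw => F vw.1 vw.2)
  rw [← h1, Finset.sum_filter, Fintype.sum_prod_type]
  refine Finset.sum_congr rfl fun v _ => Finset.sum_congr rfl fun w _ => ?_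
  by_cases h : v.1 = w.1
  · simp [h]
  · simp [h]

theorem f3_card_cross (ι : Type) [Fintype ι] :
    (Fintype.card {vw : (Fin 3 × ι) × (Fin 3 × ι) // vw.1.1 ≠ vw.2.1} : ℝ) =
      6 * (Fintype.card ι : ℝ) ^ 2 := by
  have h1 := f3_sumC (ι := ι) fun _ _ => 1
  rw [f3_cross] at h1
  simp only [Finset.sum_const, Finset.card_univ, nsmul_eq_mul, mul_one] at h1
  rw [h1]
  simp [Fin.sum_univ_three]
  ring

/-- [F3] isotropic frame of a family (from P3 and LPC `uniform_iso`, first half of Z4full). -/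
theorem frame {ι : Type} [Fintype ι] [Nonempty ι] (A : Fin 3 → ι → Set E3)
    (hA : Fam (1 / 16000) (1 / 8000) A) : ∃ T : E4 ≃ₗ[ℝ] E4, IsoF A T := by
  classical
  obtain ⟨m, hm⟩ : ∃ m : ℝ, m = Fintype.card ι := ⟨_, rfl⟩
  have hm0 : 0 < m := by
    rw [hm]
    exact_mod_cast Fintype.card_pos
  obtain ⟨R, hR⟩ : ∃ R : Fin 3 × ι → Fin 3 × ι → Prop,
      ∀ v w, R v w ↔ (A v.1 v.2 ∩ A w.1 w.2).Nonempty :=
    ⟨fun v w => (A v.1 v.2 ∩ A w.1 w.2).Nonempty, fun _ _ => Iff.rfl⟩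
  obtain ⟨Q, hQ⟩ : ∃ Q : Fin 3 × ι → Fin 3 × ι → Prop, ∀ v w, Q v w ↔ ¬ R v w :=
    ⟨fun v w => ¬ R v w, fun _ _ => Iff.rfl⟩
  have hRs : ∀ v w, R v w → R w v := fun v w h => by
    rw [hR] at h ⊢
    rwa [Set.inter_comm]
  have hpR : ∀ v w, R v w → pt A v w ∈ A v.1 v.2 := fun v w h => pt_mem A ((hR v w).1 h)
  have hbad : ∀ s t : Fin 3, s ≠ t →
      (∑ i : ι, ∑ j : ι, if Q (s, i) (t, j) then (1 : ℝ) else 0) ≤ (1 / 8000) * m ^ 2 := by
    intro s t hst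
    have h1 := hA.disj s t hst
    rw [f3_cardP (fun i j => ¬ (A s i ∩ A t j).Nonempty), ← hm] at h1
    refine le_trans (le_of_eq ?_) h1
    refine Finset.sum_congr rfl fun i _ => Finset.sum_congr rfl fun j _ => ?_
    by_cases h : (A s i ∩ A t j).Nonempty
    · rw [if_neg (fun h' => (hQ _ _).1 h' ((hR _ _).2 h)), if_neg (not_not.2 h)]
    · rw [if_pos ((hQ _ _).2 fun h' => h ((hR _ _).1 h')), if_pos h]
  have hbadC : (Nat.card {vw : (Fin 3 × ι) × (Fin 3 × ι) //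
      vw.1.1 ≠ vw.2.1 ∧ ¬ R vw.1 vw.2} : ℝ) ≤ (1 / 8000) * (6 * (Fintype.card ι : ℝ) ^ 2) := by
    have h0 : Nat.card {vw : (Fin 3 × ι) × (Fin 3 × ι) // vw.1.1 ≠ vw.2.1 ∧ ¬ R vw.1 vw.2} =
        Nat.card {vw : (Fin 3 × ι) × (Fin 3 × ι) // vw.1.1 ≠ vw.2.1 ∧ Q vw.1 vw.2} := by
      simp only [hQ]
    rw [h0, f3_cardC Q, f3_cross, ← hm]
    have h1 : ∀ s t : Fin 3, (if s = t then (0 : ℝ) else
        ∑ i : ι, ∑ j : ι, if Q (s, i) (t, j) then (1 : ℝ) else 0) ≤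
        if s = t then (0 : ℝ) else (1 / 8000) * m ^ 2 := by
      intro s t
      by_cases hst : s = t
      · rw [if_pos hst, if_pos hst]
      · rw [if_neg hst, if_neg hst]
        exact hbad s t hst
    calc _ ≤ ∑ s : Fin 3, ∑ t : Fin 3, if s = t then (0 : ℝ) else (1 / 8000) * m ^ 2 :=
          Finset.sum_le_sum fun s _ => Finset.sum_le_sum fun t _ => h1 s t
      _ = (1 / 8000) * (6 * m ^ 2) := by
          simp [Fin.sum_univ_three]
          ring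
  have hplane : ∀ a : E3, a ≠ 0 → ∀ b : ℝ,
      (Nat.card {vw : (Fin 3 × ι) × (Fin 3 × ι) //
        vw.1.1 ≠ vw.2.1 ∧ inner ℝ a (pt A vw.1 vw.2) = b} : ℝ)
        ≤ (2 * (1 / 16000) + 1 / 8000) * (6 * (Fintype.card ι : ℝ) ^ 2) := fun a ha b =>
    plane_bound A hA.conv R (pt A) hpR hRs (pt_symm A) (1 / 8000) hbadC (1 / 16000) hA.few a ha b
  have hκ := f3_card_cross ι
  have : Nonempty {vw : (Fin 3 × ι) × (Fin 3 × ι) // vw.1.1 ≠ vw.2.1} :=
    ⟨⟨((0, Classical.arbitrary ι), (1, Classical.arbitrary ι)), by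
      change (0 : Fin 3) ≠ 1
      decide⟩⟩
  obtain ⟨T, hT⟩ := uniform_iso
    (fun k : {vw : (Fin 3 × ι) × (Fin 3 × ι) // vw.1.1 ≠ vw.2.1} => pt A k.1.1 k.1.2) (by
      intro a ha b
      have h1 := hplane a ha b
      have h2 : Nat.card {k : {vw : (Fin 3 × ι) × (Fin 3 × ι) // vw.1.1 ≠ vw.2.1} //
          inner ℝ a (pt A k.1.1 k.1.2) = b} = Nat.card {vw : (Fin 3 × ι) × (Fin 3 × ι) //
            vw.1.1 ≠ vw.2.1 ∧ inner ℝ a (pt A vw.1 vw.2) = b} :=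
        Nat.card_congr (Equiv.subtypeSubtypeEquivSubtypeInter
          (fun vw : (Fin 3 × ι) × (Fin 3 × ι) => vw.1.1 ≠ vw.2.1)
          (fun vw => inner ℝ a (pt A vw.1 vw.2) = b))
      rw [h2, hκ]
      refine h1.trans (le_of_eq ?_)
      ring)
  refine ⟨T, fun ν hν => ?_⟩
  have h := hT ν hν
  rw [hκ, f3_sumC (fun v w => (inner ℝ ν (unit (T (lift (pt A v w))))) ^ 2)] at h
  exact h

end

end Pool.Agent.LP3
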