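import Pool.Agent.LP3.Defs

/-! K3: counting through a projection. -/

namespace Pool.Agent.LP3

noncomputable section

/-- [K3] counting through a projection. -/
theorem count3 {V J ι : Type} [Fintype V] [DecidableEq V] [Fintype J] [Fintype ι] (j : J → V)
    (hj : Function.Injective j) (D : Set (J → ι)) :
    (Nat.card {f : V → ι // f ∘ j ∈ D} : ℝ) * (Fintype.card ι : ℝ) ^ Fintype.card J =
      (Nat.card D : ℝ) * (Fintype.card ι : ℝ) ^ Fintype.card V := by
  classical
  let Y := {x : V // x ∉ Set.range j}
  let Φ : {f : V → ι // f ∘ j ∈ D} → D × (Y → ι) := fun f => (⟨f.1 ∘ j, f.2⟩, fun x => f.1 x.1)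
  have hΦ : Function.Bijective Φ := by
    constructor
    · intro f g hfg
      have h1 : f.1 ∘ j = g.1 ∘ j := congrArg (fun z => z.1.1) hfg
      have h2 : (fun x : Y => f.1 x.1) = fun x : Y => g.1 x.1 := congrArg (fun z => z.2) hfg
      apply Subtype.ext
      funext x
      by_cases hx : x ∈ Set.range j
      · obtain ⟨y, rfl⟩ := hx
        exact congrFun h1 y
      · exact congrFun h2 ⟨x, hx⟩
    · rintro ⟨⟨d, hd⟩, h⟩
      let f : V → ι := fun x => if hx : x ∈ Set.range j then d hx.choose else h ⟨x, hx⟩
      have hf : f ∘ j = d := by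
        funext y
        have hy : j y ∈ Set.range j := ⟨y, rfl⟩
        simp only [f, Function.comp]
        rw [dif_pos hy]
        exact congrArg d (hj hy.choose_spec)
      refine ⟨⟨f, by rw [hf]; exact hd⟩, ?_⟩
      refine Prod.ext (Subtype.ext hf) ?_
      funext x
      simp only [Φ, f]
      rw [dif_neg x.2]
  have hc : Nat.card {f : V → ι // f ∘ j ∈ D} = Nat.card D * Fintype.card ι ^ Fintype.card Y := by
    rw [Nat.card_congr (Equiv.ofBijective Φ hΦ), Nat.card_prod, Nat.card_fun]
    simp only [Nat.card_eq_fintype_card]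
  have hV : Fintype.card V = Fintype.card J + Fintype.card Y := by
    have h1 : Fintype.card Y = Fintype.card V - Fintype.card {x : V // x ∈ Set.range j} := by
      simpa [Y] using Fintype.card_subtype_compl (fun x : V => x ∈ Set.range j)
    have h2 : Fintype.card {x : V // x ∈ Set.range j} = Fintype.card J :=
      (Fintype.card_congr (Equiv.ofInjective j hj)).symm
    have h3 : Fintype.card J ≤ Fintype.card V := Fintype.card_le_of_injective j hj
    omega
  rw [hc, hV]
  push_cast
  ring

end

end Pool.Agent.LP3
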