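import Pool.Agent.LP3.Defs

/-! Three-colour robust theorem: families of different sizes from families of equal size. -/

set_option autoImplicit false

namespace Pool.Agent.LP3

open Pool.Agent.LPI Pool.Agent.LPC

noncomputable section

/-- counting along one coordinate of a product -/
theorem card_coord {m : Fin 3 → ℕ} (s : Fin 3) (P : Fin (m s) → Prop) :
    Nat.card {x : (∀ j, Fin (m j)) // P (x s)} =
      Nat.card {a : Fin (m s) // P a} * Nat.card (∀ j : {j : Fin 3 // j ≠ s}, Fin (m j.1)) := by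
  rw [← Nat.card_prod]
  refine Nat.card_congr ?_
  refine Equiv.trans ?_ Equiv.prodSubtypeFstEquivSubtypeProd
  exact (Equiv.piSplitAt s fun j => Fin (m j)).subtypeEquiv fun x => Iff.rfl

theorem card_pi (m : Fin 3 → ℕ) (s : Fin 3) :
    Fintype.card (∀ j, Fin (m j)) = m s * Nat.card (∀ j : {j : Fin 3 // j ≠ s}, Fin (m j.1)) := by
  rw [← Nat.card_eq_fintype_card, Nat.card_congr (Equiv.piSplitAt s fun j => Fin (m j)), Nat.card_prod,
    Nat.card_eq_fintype_card, Fintype.card_fin]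

/-- counting along two coordinates of a product of two products -/
theorem card_coord2 {m : Fin 3 → ℕ} (s t : Fin 3) (P : Fin (m s) → Fin (m t) → Prop) :
    Nat.card {x : (∀ j, Fin (m j)) × (∀ j, Fin (m j)) // P (x.1 s) (x.2 t)} =
      Nat.card {a : Fin (m s) × Fin (m t) // P a.1 a.2} *
        (Nat.card (∀ j : {j : Fin 3 // j ≠ s}, Fin (m j.1)) * Nat.card (∀ j : {j : Fin 3 // j ≠ t}, Fin (m j.1))) := by
  rw [← Nat.card_prod, ← Nat.card_prod]
  refine Nat.card_congr ?_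
  refine Equiv.trans ?_ (Equiv.prodSubtypeFstEquivSubtypeProd (p := fun a : Fin (m s) × Fin (m t) => P a.1 a.2))
  exact (((Equiv.piSplitAt s fun j => Fin (m j)).prodCongr (Equiv.piSplitAt t fun j => Fin (m j))).trans
    (Equiv.prodProdProdComm _ _ _ _)).subtypeEquiv fun x => Iff.rfl

/-- [R3] from [Z3]. -/
theorem main_of_core (hcore : ∃ c e : ℝ, 0 < c ∧ 0 < e ∧ ∀ (ι : Type) [Fintype ι] [Nonempty ι]
    (A : Fin 3 → ι → Set E3), (∀ s i, Convex ℝ (A s i)) →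
    (∀ s t, s ≠ t → (Nat.card {ij : ι × ι // ¬ (A s ij.1 ∩ A t ij.2).Nonempty} : ℝ)
      ≤ e * (Fintype.card ι : ℝ) ^ 2) →
      ∃ (s : Fin 3) (x d : E3), d ≠ 0 ∧ c * Fintype.card ι ≤ (met (A s) x d : ℝ)) :
    ∃ c e : ℝ, 0 < c ∧ 0 < e ∧ ∀ (m : Fin 3 → ℕ), (∀ s, 1 ≤ m s) →
    ∀ A : (s : Fin 3) → Fin (m s) → Set E3, (∀ s i, Convex ℝ (A s i)) →
    (∀ s t, s ≠ t → (Nat.card {ij : Fin (m s) × Fin (m t) // ¬ (A s ij.1 ∩ A t ij.2).Nonempty} : ℝ)
      ≤ e * (m s * m t : ℝ)) →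
      ∃ (s : Fin 3) (x d : E3), d ≠ 0 ∧ c * (m s : ℝ) ≤ (met (A s) x d : ℝ) := by
  obtain ⟨c, e, hc, he, H⟩ := hcore
  refine ⟨c, e, hc, he, fun m hm A hA hE => ?_⟩
  have hne : ∀ s, Nonempty (Fin (m s)) := fun s => ⟨⟨0, hm s⟩⟩
  have hK : ∀ s, 0 < Nat.card (∀ j : {j : Fin 3 // j ≠ s}, Fin (m j.1)) := fun s => Nat.card_pos
  obtain ⟨s, x, d, hd, h⟩ := H (∀ j, Fin (m j)) (fun s x => A s (x s)) (fun s x => hA s (x s)) (by
    intro s t hst
    have h1 := card_coord2 (m := m) s t fun a b => ¬ (A s a ∩ A t b).Nonempty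
    have h2 := hE s t hst
    have h3 := card_pi m s
    have h4 := card_pi m t
    have hs : (0 : ℝ) < Nat.card (∀ j : {j : Fin 3 // j ≠ s}, Fin (m j.1)) := by exact_mod_cast hK s
    have ht : (0 : ℝ) < Nat.card (∀ j : {j : Fin 3 // j ≠ t}, Fin (m j.1)) := by exact_mod_cast hK t
    calc (Nat.card {ij : (∀ j, Fin (m j)) × (∀ j, Fin (m j)) // ¬ (A s (ij.1 s) ∩ A t (ij.2 t)).Nonempty} : ℝ)
        = (Nat.card {a : Fin (m s) × Fin (m t) // ¬ (A s a.1 ∩ A t a.2).Nonempty} : ℝ) *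
          ((Nat.card (∀ j : {j : Fin 3 // j ≠ s}, Fin (m j.1)) : ℝ) *
            (Nat.card (∀ j : {j : Fin 3 // j ≠ t}, Fin (m j.1)) : ℝ)) := by rw [h1]; push_cast; ring
      _ ≤ (e * (m s * m t : ℝ)) * ((Nat.card (∀ j : {j : Fin 3 // j ≠ s}, Fin (m j.1)) : ℝ) *
            (Nat.card (∀ j : {j : Fin 3 // j ≠ t}, Fin (m j.1)) : ℝ)) :=
          mul_le_mul_of_nonneg_right h2 (by positivity)
      _ = e * ((Fintype.card (∀ j, Fin (m j)) : ℝ) * (Fintype.card (∀ j, Fin (m j)) : ℝ)) := by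
          nth_rewrite 1 [h3]
          rw [h4]
          push_cast
          ring
      _ = e * (Fintype.card (∀ j, Fin (m j)) : ℝ) ^ 2 := by ring)
  refine ⟨s, x, d, hd, ?_⟩
  have h1 : met (fun y : (∀ j, Fin (m j)) => A s (y s)) x d =
      met (A s) x d * Nat.card (∀ j : {j : Fin 3 // j ≠ s}, Fin (m j.1)) :=
    card_coord (m := m) s fun a => ∃ t : ℝ, x + t • d ∈ A s a
  have hs : (0 : ℝ) < Nat.card (∀ j : {j : Fin 3 // j ≠ s}, Fin (m j.1)) := by exact_mod_cast hK s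
  rw [card_pi m s, h1] at h
  push_cast at h
  refine le_of_mul_le_mul_right ?_ hs
  linarith

end

end Pool.Agent.LP3
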