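import Pool.Agent.LP3.Anch

/-! Row Z3: the core theorem (families of equal size) from the frame, the lines of the planes,
the anchors and stage 2; row R3's input. -/

namespace Pool.Agent.LP3

open Pool.Agent.LPI Pool.Agent.LPC

noncomputable section

theorem Fam.mono {ι : Type} [Fintype ι] {c e c' e' : ℝ} {A : Fin 3 → ι → Set E3}
    (h : Fam c e A) (hc : c ≤ c') (he : e ≤ e') : Fam c' e' A where
  conv := h.conv
  disj s t hst := (h.disj s t hst).trans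
    (mul_le_mul_of_nonneg_right he (by positivity))
  few s x d hd := (h.few s x d hd).trans_le
    (mul_le_mul_of_nonneg_right hc (by positivity))

/-- [Z3] core (from F3, H3, Z3a2, Z3b). -/
theorem core_of
    (hframe : ∀ (ι : Type) [Fintype ι] [Nonempty ι] (A : Fin 3 → ι → Set E3),
      Fam (1 / 16000) (1 / 8000) A → ∃ T : E4 ≃ₗ[ℝ] E4, IsoF A T)
    (hcross : ∀ (T : E4 ≃ₗ[ℝ] E4) (P Q : E4), LinearIndependent ℝ ![P, Q] →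
      ∃ x d : E3, d ≠ 0 ∧ ∀ {ι : Type} (A : Fin 3 → ι → Set E3), (∀ s i, Convex ℝ (A s i)) →
      ∀ (v w₁ w₂ w₃ : Fin 3 × ι) (α β γ ω : ℝ),
        (A v.1 v.2 ∩ A w₁.1 w₁.2).Nonempty → (A v.1 v.2 ∩ A w₂.1 w₂.2).Nonempty →
        (A v.1 v.2 ∩ A w₃.1 w₃.2).Nonempty → 0 < α → 0 < β → 0 < γ →
        α • arr A T v w₁ + β • arr A T v w₂ + γ • arr A T v w₃ = P + ω • Q →
        ∃ t : ℝ, x + t • d ∈ A v.1 v.2)
    (hanch : ∃ δ : ℝ, 0 < δ ∧ ∀ (N : ℕ) (ρ : ℝ), 0 < ρ → ∃ c e : ℝ, 0 < c ∧ 0 < e ∧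
      ∀ (ι : Type) [Fintype ι] [Nonempty ι] (A : Fin 3 → ι → Set E3), Fam c e A →
      ∀ T : E4 ≃ₗ[ℝ] E4, IsoF A T → ∀ x d : Fin N → E3, (∀ k, d k ≠ 0) →
      ∃ g : Fin 3 → ι, Anch A T δ ρ g ∧ ∀ k s, ¬ ∃ t : ℝ, x k + t • d k ∈ A s (g s))
    (hstage : ∀ δ : ℝ, 0 < δ → ∃ (N : ℕ) (P Q : Fin N → E4) (ρ c e : ℝ),
      (∀ k, LinearIndependent ℝ ![P k, Q k]) ∧ 0 < ρ ∧ 0 < c ∧ 0 < e ∧
      ∀ (ι : Type) [Fintype ι] [Nonempty ι] (A : Fin 3 → ι → Set E3), Fam c e A →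
      ∀ T : E4 ≃ₗ[ℝ] E4, IsoF A T → ∀ x d : Fin N → E3, (∀ k, d k ≠ 0) →
      (∀ k (v w₁ w₂ w₃ : Fin 3 × ι) (α β γ ω : ℝ),
          (A v.1 v.2 ∩ A w₁.1 w₁.2).Nonempty → (A v.1 v.2 ∩ A w₂.1 w₂.2).Nonempty →
          (A v.1 v.2 ∩ A w₃.1 w₃.2).Nonempty → 0 < α → 0 < β → 0 < γ →
          α • arr A T v w₁ + β • arr A T v w₂ + γ • arr A T v w₃ = P k + ω • Q k →
          ∃ t : ℝ, x k + t • d k ∈ A v.1 v.2) →
      ∀ g : Fin 3 → ι, Anch A T δ ρ g → (∀ k s, ¬ ∃ t : ℝ, x k + t • d k ∈ A s (g s)) → False) :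
    ∃ c e : ℝ, 0 < c ∧ 0 < e ∧ ∀ (ι : Type) [Fintype ι] [Nonempty ι]
    (A : Fin 3 → ι → Set E3), (∀ s i, Convex ℝ (A s i)) →
    (∀ s t, s ≠ t → (Nat.card {ij : ι × ι // ¬ (A s ij.1 ∩ A t ij.2).Nonempty} : ℝ)
      ≤ e * (Fintype.card ι : ℝ) ^ 2) →
      ∃ (s : Fin 3) (x d : E3), d ≠ 0 ∧ c * Fintype.card ι ≤ (met (A s) x d : ℝ) := by
  obtain ⟨δ, hδ, hA⟩ := hanch
  obtain ⟨N, P, Q, ρ, c2, e2, hPQ, hρ, hc2, he2, h2⟩ := hstage δ hδ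
  obtain ⟨c1, e1, hc1, he1, h1⟩ := hA N ρ hρ
  refine ⟨min (min c1 c2) (1 / 16000), min (min e1 e2) (1 / 8000), by positivity,
    by positivity, ?_⟩
  intro ι _ _ A hconv hdisj
  by_contra hno
  push Not at hno
  have hF : Fam (min (min c1 c2) (1 / 16000)) (min (min e1 e2) (1 / 8000)) A :=
    { conv := hconv, disj := hdisj, few := fun s x d hd => hno s x d hd }
  have hc1' : min (min c1 c2) (1 / 16000) ≤ c1 := (min_le_left _ _).trans (min_le_left _ _)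
  have hc2' : min (min c1 c2) (1 / 16000) ≤ c2 := (min_le_left _ _).trans (min_le_right _ _)
  have he1' : min (min e1 e2) (1 / 8000) ≤ e1 := (min_le_left _ _).trans (min_le_left _ _)
  have he2' : min (min e1 e2) (1 / 8000) ≤ e2 := (min_le_left _ _).trans (min_le_right _ _)
  obtain ⟨T, hT⟩ := hframe ι A (hF.mono (min_le_right _ _) (min_le_right _ _))
  have hx : ∀ k, ∃ x d : E3, d ≠ 0 ∧ ∀ (v w₁ w₂ w₃ : Fin 3 × ι) (α β γ ω : ℝ),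
      (A v.1 v.2 ∩ A w₁.1 w₁.2).Nonempty → (A v.1 v.2 ∩ A w₂.1 w₂.2).Nonempty →
      (A v.1 v.2 ∩ A w₃.1 w₃.2).Nonempty → 0 < α → 0 < β → 0 < γ →
      α • arr A T v w₁ + β • arr A T v w₂ + γ • arr A T v w₃ = P k + ω • Q k →
      ∃ t : ℝ, x + t • d ∈ A v.1 v.2 := by
    intro k
    obtain ⟨x, d, hd, h⟩ := hcross T (P k) (Q k) (hPQ k)
    exact ⟨x, d, hd, h A hconv⟩
  choose x d hd hline using hx
  obtain ⟨g, hg, hgl⟩ := h1 ι A (hF.mono hc1' he1') T hT x d hd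
  exact h2 ι A (hF.mono hc2' he2') T hT x d hd hline g hg hgl

end

end Pool.Agent.LP3
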