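import Pool.Agent.LP3.Defs

/-! Three-colour robust theorem, row [Z3a1]: many anchors with labelled triples. -/

set_option autoImplicit false

namespace Pool.Agent.LP3

open Pool.Agent.LPI Pool.Agent.LPC Pool.Agent.LP3

noncomputable section

theorem z3a1_lift_ne (x : E3) : lift x ≠ 0 := by
  intro h
  have h0 : lift x 0 = 0 := by rw [h]; rfl
  simp [lift] at h0

theorem z3a1_arr_norm {ι : Type} (A : Fin 3 → ι → Set E3) (T : E4 ≃ₗ[ℝ] E4) (v w : Fin 3 × ι) :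
    ‖arr A T v w‖ = 1 := by
  have h : T (lift (pt A v w)) ≠ 0 := fun h => z3a1_lift_ne _ ((LinearEquiv.map_eq_zero_iff T).1 h)
  unfold arr unit
  rw [norm_smul, norm_inv, norm_norm, inv_mul_cancel₀ (norm_ne_zero_iff.2 h)]

theorem z3a1_arr_symm {ι : Type} (A : Fin 3 → ι → Set E3) (T : E4 ≃ₗ[ℝ] E4) (v w : Fin 3 × ι) :
    arr A T v w = arr A T w v := by
  unfold arr pt
  rw [Set.inter_comm]

/-- [Z3a1] with the other rows as hypotheses. -/
theorem pairs_of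
    (hS3 : ∃ r : ℕ, 13 ≤ r ∧ 1 ≤ r ∧ ∀ (ι : Type) [Fintype ι] [Nonempty ι],
      ∀ u : Fin 3 × ι → Fin 3 × ι → E4,
      (∀ v w, ‖u v w‖ = 1) → (∀ v w, u v w = u w v) →
      (∀ ν : E4, ‖ν‖ = 1 →
        |(∑ v, ∑ w, if v.1 = w.1 then (0 : ℝ) else (inner ℝ ν (u v w)) ^ 2)
          / (6 * (Fintype.card ι : ℝ) ^ 2) - 1 / 4| ≤ 1 / 400) →
      (Fintype.card ι : ℝ) ^ (3 * r) / 2 ≤
        (Nat.card {f : Fin 3 × Fin r → ι //
          Iso3 r (fun v w => u (v.1, f v) (w.1, f w))} : ℝ))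
    (hPP : ∀ r : ℕ, 13 ≤ r → ∀ u : Fin 3 × Fin r → Fin 3 × Fin r → E4,
      Iso3 r u → (∀ v, Flat u v) → PP r u)
    (hN1 : ∀ r : ℕ, (∀ u : Fin 3 × Fin r → Fin 3 × Fin r → E4, Iso3 r u → ¬ PP r u →
        ∃ v, ¬ Flat u v) →
      ∃ (N : ℕ) (P Q : Fin N → E4), (∀ k, LinearIndependent ℝ ![P k, Q k]) ∧
        ∀ u : Fin 3 × Fin r → Fin 3 × Fin r → E4, Iso3 r u → ¬ PP r u →
          ∃ k v, Crossed u v (P k) (Q k))
    (hH3 : ∀ (T : E4 ≃ₗ[ℝ] E4) (P Q : E4), LinearIndependent ℝ ![P, Q] →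
      ∃ x d : E3, d ≠ 0 ∧ ∀ {ι : Type} (A : Fin 3 → ι → Set E3), (∀ s i, Convex ℝ (A s i)) →
        ∀ (v w₁ w₂ w₃ : Fin 3 × ι) (α β γ ω : ℝ),
          (A v.1 v.2 ∩ A w₁.1 w₁.2).Nonempty → (A v.1 v.2 ∩ A w₂.1 w₂.2).Nonempty →
          (A v.1 v.2 ∩ A w₃.1 w₃.2).Nonempty → 0 < α → 0 < β → 0 < γ →
          α • arr A T v w₁ + β • arr A T v w₂ + γ • arr A T v w₃ = P + ω • Q →
          ∃ t : ℝ, x + t • d ∈ A v.1 v.2)
    (hK1 : ∀ {V ι : Type} [Fintype V] [DecidableEq V] [Fintype ι] [Nonempty ι] (ε : ℝ),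
      ε * ((Fintype.card V : ℝ) + (Fintype.card V : ℝ) ^ 2) ≤ 1 / 4 → ∀ G : Set (V → ι),
      (Fintype.card ι : ℝ) ^ Fintype.card V / 2 ≤ (Nat.card G : ℝ) →
      ∀ H : V → Set ι, (∀ v, (Nat.card (H v) : ℝ) ≤ ε * Fintype.card ι) →
      ∀ B : V → V → Set (ι × ι),
      (∀ v w, v ≠ w → (Nat.card (B v w) : ℝ) ≤ ε * (Fintype.card ι : ℝ) ^ 2) →
      (Fintype.card ι : ℝ) ^ Fintype.card V / 4 ≤
        (Nat.card {f : V → ι // f ∈ G ∧ (∀ v, f v ∉ H v) ∧ ∀ v w, v ≠ w → (f v, f w) ∉ B v w} : ℝ))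
    (hK3 : ∀ {V J ι : Type} [Fintype V] [DecidableEq V] [Fintype J] [Fintype ι] (j : J → V),
      Function.Injective j → ∀ D : Set (J → ι),
      (Nat.card {f : V → ι // f ∘ j ∈ D} : ℝ) * (Fintype.card ι : ℝ) ^ Fintype.card J =
        (Nat.card D : ℝ) * (Fintype.card ι : ℝ) ^ Fintype.card V) :
    ∃ η c e : ℝ, 0 < η ∧ 0 < c ∧ 0 < e ∧ ∀ (ι : Type) [Fintype ι] [Nonempty ι]
    (A : Fin 3 → ι → Set E3), Fam c e A → ∀ T : E4 ≃ₗ[ℝ] E4, IsoF A T →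
    η * (Fintype.card ι : ℝ) ^ 6 ≤ (Nat.card {gh : (Fin 3 → ι) × (Fin 3 → ι) //
      Lab (arr A T) gh.1 (0, gh.1 0) ∧ ∀ s, Lab (arr A T) gh.1 (s, gh.2 s)} : ℝ) := by
  classical
  obtain ⟨r, hr13, hr1, hS⟩ := hS3
  obtain ⟨N, P, Q, hPQ, hnet⟩ := hN1 r (by
    intro u hu hnp
    by_contra hne
    push Not at hne
    exact hnp (hPP r hr13 u hu hne))
  have hr0 : (0 : ℝ) < r := by exact_mod_cast (show 0 < r by omega)
  have hcV : Fintype.card (Fin 3 × Fin r) = 3 * r := by simp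
  have hcVr : (Fintype.card (Fin 3 × Fin r) : ℝ) = 3 * r := by rw [hcV]; push_cast; ring
  set ε : ℝ := 1 / (4 * (3 * r + (3 * r) ^ 2)) with hε
  have hε0 : 0 < ε := by positivity
  have hN0 : (0 : ℝ) < N + 1 := by positivity
  refine ⟨1 / (4 * (r : ℝ) ^ 6), ε / (N + 1), ε, by positivity, by positivity, hε0, ?_⟩
  intro ι _ _ A hA T hT
  set n : ℝ := (Fintype.card ι : ℝ) with hn
  have hn0 : 0 < n := by
    rw [hn]
    exact_mod_cast Fintype.card_pos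
  -- the lines
  choose x d hd hline using fun k => hH3 T (P k) (Q k) (hPQ k)
  -- the good samples
  let G : Set (Fin 3 × Fin r → ι) :=
    {f | Iso3 r (fun v w => arr A T (v.1, f v) (w.1, f w))}
  have hG : n ^ Fintype.card (Fin 3 × Fin r) / 2 ≤ (Nat.card G : ℝ) := by
    rw [hcV]
    exact hS ι (arr A T) (z3a1_arr_norm A T) (z3a1_arr_symm A T) hT
  let H : Fin 3 × Fin r → Set ι := fun v => {i | ∃ k, ∃ t : ℝ, x k + t • d k ∈ A v.1 i}
  have hH : ∀ v, (Nat.card (H v) : ℝ) ≤ ε * n := by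
    intro v
    have hsub : H v = ⋃ k : Fin N, {i | ∃ t : ℝ, x k + t • d k ∈ A v.1 i} := by
      ext i
      simp [H]
    have h1 : (H v).ncard ≤ ∑ k : Fin N, ({i | ∃ t : ℝ, x k + t • d k ∈ A v.1 i} : Set ι).ncard := by
      rw [hsub]
      exact Set.ncard_iUnion_le_of_fintype _
    have h2 : ∀ k : Fin N, ((({i | ∃ t : ℝ, x k + t • d k ∈ A v.1 i} : Set ι).ncard : ℕ) : ℝ)
        ≤ ε / (N + 1) * n := by
      intro k
      have := (hA.few v.1 (x k) (d k) (hd k)).le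
      unfold met at this
      rw [← Nat.card_coe_set_eq]
      exact this
    have h3 : (Nat.card (H v) : ℝ) ≤ ∑ k : Fin N, ε / (N + 1) * n := by
      rw [Nat.card_coe_set_eq]
      calc ((H v).ncard : ℝ) ≤ ((∑ k : Fin N,
            ({i | ∃ t : ℝ, x k + t • d k ∈ A v.1 i} : Set ι).ncard : ℕ) : ℝ) := by exact_mod_cast h1
        _ = ∑ k : Fin N, ((({i | ∃ t : ℝ, x k + t • d k ∈ A v.1 i} : Set ι).ncard : ℕ) : ℝ) := by
            push_cast; rfl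
        _ ≤ ∑ k : Fin N, ε / (N + 1) * n := Finset.sum_le_sum fun k _ => h2 k
    refine h3.trans ?_
    rw [Finset.sum_const, Finset.card_univ, Fintype.card_fin, nsmul_eq_mul]
    have h4 : (N : ℝ) * (ε / (N + 1) * n) = ε * n * (N / (N + 1)) := by
      field_simp
    rw [h4]
    have h5 : (N : ℝ) / (N + 1) ≤ 1 := by
      rw [div_le_one hN0]
      linarith
    nlinarith [mul_pos hε0 hn0]
  let B : Fin 3 × Fin r → Fin 3 × Fin r → Set (ι × ι) := fun v w =>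
    {ij | v.1 ≠ w.1 ∧ ¬ (A v.1 ij.1 ∩ A w.1 ij.2).Nonempty}
  have hB : ∀ v w, v ≠ w → (Nat.card (B v w) : ℝ) ≤ ε * n ^ 2 := by
    intro v w _
    by_cases hvw : v.1 = w.1
    · have : B v w = ∅ := by
        ext ij
        simp [B, hvw]
      rw [this]
      simp
      positivity
    · have : B v w = {ij | ¬ (A v.1 ij.1 ∩ A w.1 ij.2).Nonempty} := by
        ext ij
        simp [B, hvw]
      rw [this]
      exact hA.disj v.1 w.1 hvw
  have hcount := hK1 (V := Fin 3 × Fin r) (ι := ι) ε (by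
    rw [hcVr, hε]
    have : (0 : ℝ) < 3 * r + (3 * r) ^ 2 := by positivity
    rw [div_mul_eq_mul_div, div_le_div_iff₀ (by positivity) (by norm_num)]
    linarith) G hG H hH B hB
  -- the set of the good samples, covered by the (a, b)
  let D : Set (Fin 3 ⊕ Fin 3 → ι) := {h | Lab (arr A T) (fun s => h (Sum.inl s)) (0, h (Sum.inl 0)) ∧
    ∀ s, Lab (arr A T) (fun s => h (Sum.inl s)) (s, h (Sum.inr s))}
  let j : (Fin 3 → Fin r) × (Fin 3 → Fin r) → Fin 3 ⊕ Fin 3 → Fin 3 × Fin r := fun ab q =>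
    Sum.elim (fun s => (s, ab.1 s)) (fun s => (s, ab.2 s)) q
  let I : Set ((Fin 3 → Fin r) × (Fin 3 → Fin r)) := {ab | ∀ s, ab.1 s ≠ ab.2 s}
  have hjinj : ∀ ab ∈ I, Function.Injective (j ab) := by
    intro ab hab
    rintro (s | s) (t | t) h
    · simp only [j, Sum.elim_inl, Prod.mk.injEq] at h
      rw [h.1]
    · simp only [j, Sum.elim_inl, Sum.elim_inr, Prod.mk.injEq] at h
      obtain ⟨rfl, h2⟩ := h
      exact absurd h2 (hab s)
    · simp only [j, Sum.elim_inl, Sum.elim_inr, Prod.mk.injEq] at h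
      obtain ⟨rfl, h2⟩ := h
      exact absurd h2.symm (hab s)
    · simp only [j, Sum.elim_inr, Prod.mk.injEq] at h
      rw [h.1]
  have hcover : {f : Fin 3 × Fin r → ι | f ∈ G ∧ (∀ v, f v ∉ H v) ∧
      ∀ v w, v ≠ w → (f v, f w) ∉ B v w} ⊆
      ⋃ ab : (Fin 3 → Fin r) × (Fin 3 → Fin r), {f | ab ∈ I ∧ f ∘ j ab ∈ D} := by
    rintro f ⟨hfG, hfH, hfB⟩
    have hpp : PP r (fun v w => arr A T (v.1, f v) (w.1, f w)) := by
      by_contra hnp
      obtain ⟨k, v, w₁, w₂, w₃, α, β, γ, ω, h1, h2, h3, ha, hb, hc, heq⟩ := hnet _ hfG hnp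
      have hne : ∀ w : Fin 3 × Fin r, v.1 ≠ w.1 → (A v.1 (f v) ∩ A w.1 (f w)).Nonempty := by
        intro w hw
        by_contra hc
        exact hfB v w (fun h => hw (by rw [h])) ⟨hw, hc⟩
      obtain ⟨t, ht⟩ := hline k A hA.conv (v.1, f v) (w₁.1, f w₁) (w₂.1, f w₂) (w₃.1, f w₃) α β γ ω
        (hne w₁ h1) (hne w₂ h2) (hne w₃ h3) ha hb hc heq
      exact hfH v ⟨k, t, ht⟩
    obtain ⟨a, b, hab, ha, hb⟩ := hpp
    rw [Set.mem_iUnion]
    refine ⟨(a, b), hab, ?_, ?_⟩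
    · intro t t' h1 h2 h3
      exact (ha t t' h1 h2 h3).le
    · intro s t t' h1 h2 h3
      exact (hb s t t' h1 h2 h3).le
  have hcard : ∀ ab : (Fin 3 → Fin r) × (Fin 3 → Fin r),
      (({f : Fin 3 × Fin r → ι | ab ∈ I ∧ f ∘ j ab ∈ D}.ncard : ℕ) : ℝ) * n ^ 6 ≤
        (Nat.card D : ℝ) * n ^ (3 * r) := by
    intro ab
    by_cases hab : ab ∈ I
    · have h1 := hK3 (ι := ι) (j ab) (hjinj ab hab) D
      rw [hcV] at h1
      have h2 : Fintype.card (Fin 3 ⊕ Fin 3) = 6 := by simp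
      rw [h2] at h1
      have h3 : ({f : Fin 3 × Fin r → ι | ab ∈ I ∧ f ∘ j ab ∈ D}.ncard : ℕ) =
          Nat.card {f : Fin 3 × Fin r → ι // f ∘ j ab ∈ D} := by
        rw [← Nat.card_coe_set_eq]
        refine Nat.card_congr (Equiv.subtypeEquivRight fun f => ?_)
        simp [hab]
      rw [h3, h1]
    · have h3 : {f : Fin 3 × Fin r → ι | ab ∈ I ∧ f ∘ j ab ∈ D} = ∅ := by
        ext f
        simp [hab]
      rw [h3]
      simp
      positivity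
  have hD : n ^ 6 ≤ 4 * (r : ℝ) ^ 6 * (Nat.card D : ℝ) := by
    have h1 : ((({f : Fin 3 × Fin r → ι | f ∈ G ∧ (∀ v, f v ∉ H v) ∧
        ∀ v w, v ≠ w → (f v, f w) ∉ B v w} : Set (Fin 3 × Fin r → ι)).ncard : ℕ) : ℝ) ≤
        ∑ ab : (Fin 3 → Fin r) × (Fin 3 → Fin r),
          (({f : Fin 3 × Fin r → ι | ab ∈ I ∧ f ∘ j ab ∈ D}.ncard : ℕ) : ℝ) := by
      have h2 := (Set.ncard_le_ncard hcover (Set.toFinite _)).trans (Set.ncard_iUnion_le_of_fintype _)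
      exact_mod_cast h2
    have h2 : n ^ (3 * r) / 4 ≤ ((({f : Fin 3 × Fin r → ι | f ∈ G ∧ (∀ v, f v ∉ H v) ∧
        ∀ v w, v ≠ w → (f v, f w) ∉ B v w} : Set (Fin 3 × Fin r → ι)).ncard : ℕ) : ℝ) := by
      rw [hcV] at hcount
      rw [← Nat.card_coe_set_eq]
      exact hcount
    have h3 : (∑ ab : (Fin 3 → Fin r) × (Fin 3 → Fin r),
          (({f : Fin 3 × Fin r → ι | ab ∈ I ∧ f ∘ j ab ∈ D}.ncard : ℕ) : ℝ)) * n ^ 6 ≤
        (r : ℝ) ^ 6 * ((Nat.card D : ℝ) * n ^ (3 * r)) := by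
      rw [Finset.sum_mul]
      refine (Finset.sum_le_sum fun ab _ => hcard ab).trans ?_
      rw [Finset.sum_const, Finset.card_univ, nsmul_eq_mul]
      have h4 : (Fintype.card ((Fin 3 → Fin r) × (Fin 3 → Fin r)) : ℝ) = (r : ℝ) ^ 6 := by
        simp only [Fintype.card_prod, Fintype.card_pi, Fintype.card_fin, Finset.prod_const,
          Finset.card_univ]
        push_cast
        ring
      rw [h4]
    have h5 : n ^ (3 * r) / 4 * n ^ 6 ≤ (r : ℝ) ^ 6 * ((Nat.card D : ℝ) * n ^ (3 * r)) :=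
      (mul_le_mul_of_nonneg_right (h2.trans h1) (by positivity)).trans h3
    have h6 : 0 < n ^ (3 * r) := by positivity
    have h7 : n ^ (3 * r) * n ^ 6 ≤ n ^ (3 * r) * (4 * (r : ℝ) ^ 6 * (Nat.card D : ℝ)) := by
      linarith
    exact le_of_mul_le_mul_left h7 h6
  have hDe : Nat.card D = Nat.card {gh : (Fin 3 → ι) × (Fin 3 → ι) //
      Lab (arr A T) gh.1 (0, gh.1 0) ∧ ∀ s, Lab (arr A T) gh.1 (s, gh.2 s)} := by
    refine Nat.card_congr ((Equiv.sumArrowEquivProdArrow (Fin 3) (Fin 3) ι).subtypeEquiv ?_)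
    intro h
    exact Iff.rfl
  rw [← hDe]
  have hr6 : (0 : ℝ) < 4 * (r : ℝ) ^ 6 := by positivity
  rw [div_mul_eq_mul_div, one_mul, div_le_iff₀ hr6]
  linarith

end

end Pool.Agent.LP3
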