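import Pool.Agent.LP3.Anch

/-! Row Z3a2: anchors (counting from the pairs of row Z3a1). -/

namespace Pool.Agent.LP3

open Pool.Agent.LPI Pool.Agent.LPC
open scoped BigOperators

noncomputable section

open Classical in
/-- The maps `f` with `f a ∈ H`. -/
theorem za_card_le {V ι : Type} [Fintype V] [DecidableEq V] [Fintype ι] (a : V) (H : Finset ι) :
    ((Finset.univ.filter fun f : V → ι => f a ∈ H).card : ℝ) * Fintype.card ι ≤
      H.card * (Fintype.card ι : ℝ) ^ Fintype.card V := by
  have h1 : (Finset.univ.filter fun f : V → ι => f a ∈ H) =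
      Fintype.piFinset fun b : V => if b = a then H else Finset.univ := by
    ext f
    simp only [Finset.mem_filter, Finset.mem_univ, true_and, Fintype.mem_piFinset]
    constructor
    · intro hf b
      by_cases hb : b = a
      · subst hb
        simpa using hf
      · simp [hb]
    · intro hf
      have := hf a
      simpa using this
  rw [h1, Fintype.card_piFinset]
  have h2 : ∀ b : V, (if b = a then H else (Finset.univ : Finset ι)).card =
      if b = a then H.card else Fintype.card ι := by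
    intro b
    split_ifs <;> simp
  rw [Finset.prod_congr rfl fun b _ => h2 b, ← Finset.mul_prod_erase Finset.univ _ (Finset.mem_univ a)]
  have h3 : ∏ b ∈ Finset.univ.erase a, (if b = a then H.card else Fintype.card ι) =
      Fintype.card ι ^ (Fintype.card V - 1) := by
    rw [Finset.prod_congr rfl fun b hb => if_neg (Finset.ne_of_mem_erase hb), Finset.prod_const,
      Finset.card_erase_of_mem (Finset.mem_univ a), Finset.card_univ]
  rw [h3, if_pos rfl]
  have hr : Fintype.card V - 1 + 1 = Fintype.card V := by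
    have : 0 < Fintype.card V := Fintype.card_pos_iff.2 ⟨a⟩
    omega
  push_cast
  have h4 : (Fintype.card ι : ℝ) ^ Fintype.card V =
      (Fintype.card ι : ℝ) ^ (Fintype.card V - 1) * Fintype.card ι := by
    rw [← pow_succ, hr]
  rw [h4]
  nlinarith

open Classical in
/-- The maps `f` with `f a = i`, `f b = j` (`a ≠ b`). -/
theorem za_card_two {V ι : Type} [Fintype V] [DecidableEq V] [Fintype ι] (a b : V) (hab : a ≠ b) (i j : ι) :
    ((Finset.univ.filter fun f : V → ι => f a = i ∧ f b = j).card : ℝ) *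
      (Fintype.card ι : ℝ) ^ 2 = (Fintype.card ι : ℝ) ^ Fintype.card V := by
  have h1 : (Finset.univ.filter fun f : V → ι => f a = i ∧ f b = j) =
      Fintype.piFinset fun c : V => if c = a then {i} else if c = b then {j} else Finset.univ := by
    ext f
    simp only [Finset.mem_filter, Finset.mem_univ, true_and, Fintype.mem_piFinset]
    constructor
    · rintro ⟨hfa, hfb⟩ c
      by_cases hc : c = a
      · subst hc
        simpa using hfa
      · by_cases hc' : c = b
        · subst hc'
          simpa [hc] using hfb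
        · simp [hc, hc']
    · intro hf
      have h1 := hf a
      have h2 := hf b
      simp only [if_true, Finset.mem_singleton] at h1
      rw [if_neg hab.symm, if_pos rfl, Finset.mem_singleton] at h2
      exact ⟨h1, h2⟩
  rw [h1, Fintype.card_piFinset]
  have h2 : ∀ c : V, (if c = a then ({i} : Finset ι) else if c = b then {j} else
      (Finset.univ : Finset ι)).card =
      if c = a then 1 else if c = b then 1 else Fintype.card ι := by
    intro c
    split_ifs <;> simp
  have hb : b ∈ (Finset.univ : Finset V).erase a :=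
    Finset.mem_erase.2 ⟨hab.symm, Finset.mem_univ _⟩
  rw [Finset.prod_congr rfl fun c _ => h2 c, ← Finset.mul_prod_erase Finset.univ _ (Finset.mem_univ a),
    ← Finset.mul_prod_erase _ _ hb]
  have h3 : ∏ c ∈ (Finset.univ.erase a).erase b, (if c = a then 1 else if c = b then 1 else
      Fintype.card ι) = Fintype.card ι ^ (Fintype.card V - 1 - 1) := by
    have h4 : ∀ c ∈ (Finset.univ.erase a).erase b, (if c = a then 1 else if c = b then 1 else
      Fintype.card ι) = Fintype.card ι := by
      intro c hc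
      rw [Finset.mem_erase, Finset.mem_erase] at hc
      rw [if_neg hc.2.1, if_neg hc.1]
    rw [Finset.prod_congr rfl h4, Finset.prod_const,
      Finset.card_erase_of_mem hb, Finset.card_erase_of_mem (Finset.mem_univ a), Finset.card_univ]
  rw [h3, if_pos rfl, if_neg hab.symm, if_pos rfl]
  have hr : Fintype.card V - 1 - 1 + 2 = Fintype.card V := by
    have h5 : 1 < Fintype.card V := Fintype.one_lt_card_iff.2 ⟨a, b, hab⟩
    omega
  push_cast
  rw [one_mul, one_mul, ← pow_add, hr]

open Classical in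
/-- The maps `f` with `(f a, f b) ∈ D` (`a ≠ b`). -/
theorem za_card_pair {V ι : Type} [Fintype V] [DecidableEq V] [Fintype ι] (a b : V) (hab : a ≠ b)
    (D : Finset (ι × ι)) :
    ((Finset.univ.filter fun f : V → ι => (f a, f b) ∈ D).card : ℝ) * (Fintype.card ι : ℝ) ^ 2 =
      D.card * (Fintype.card ι : ℝ) ^ Fintype.card V := by
  have h1 : (Finset.univ.filter fun f : V → ι => (f a, f b) ∈ D).card =
      ∑ ij ∈ D, (Finset.univ.filter fun f : V → ι => f a = ij.1 ∧ f b = ij.2).card := by
    rw [Finset.card_eq_sum_card_fiberwise (f := fun f : V → ι => (f a, f b)) (t := D)]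
    · refine Finset.sum_congr rfl fun ij hij => ?_
      congr 1
      ext f
      simp only [Finset.mem_filter, Finset.mem_univ, true_and]
      constructor
      · rintro ⟨-, h⟩
        rw [← h]
        exact ⟨rfl, rfl⟩
      · rintro ⟨h1, h2⟩
        have h3 : (f a, f b) = ij := by rw [h1, h2]
        rw [h3]
        exact ⟨hij, rfl⟩
    · intro f hf
      simpa using hf
  rw [h1]
  push_cast
  rw [Finset.sum_mul, Finset.sum_congr rfl fun ij _ => za_card_two a b hab ij.1 ij.2,
    Finset.sum_const, nsmul_eq_mul]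


open Classical in
/-- Many pairs give many good first members. -/
theorem za_fibre {ι : Type} [Fintype ι] [Nonempty ι] (P : (Fin 3 → ι) → Prop)
    (L : (Fin 3 → ι) → Fin 3 → ι → Prop) (δ : ℝ) (hδ : 0 ≤ δ) :
    (Nat.card {gh : (Fin 3 → ι) × (Fin 3 → ι) // P gh.1 ∧ ∀ s, L gh.1 s (gh.2 s)} : ℝ) ≤
      ((Finset.univ.filter fun g : Fin 3 → ι =>
        P g ∧ ∀ s, δ * (Fintype.card ι : ℝ) ≤ (Nat.card {i : ι // L g s i} : ℝ)).card : ℝ)
        * (Fintype.card ι : ℝ) ^ 3 + δ * (Fintype.card ι : ℝ) ^ 6 := by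
  have hn : (0 : ℝ) < Fintype.card ι := by exact_mod_cast Fintype.card_pos
  set n : ℝ := (Fintype.card ι : ℝ) with hndef
  have h1 : (Nat.card {gh : (Fin 3 → ι) × (Fin 3 → ι) // P gh.1 ∧ ∀ s, L gh.1 s (gh.2 s)} : ℝ) =
      ∑ g : Fin 3 → ι, ((Finset.univ.filter fun h : Fin 3 → ι => P g ∧ ∀ s, L g s (h s)).card : ℝ) := by
    rw [Nat.card_eq_fintype_card, Fintype.card_subtype, Finset.card_filter, Fintype.sum_prod_type]
    push_cast
    refine Finset.sum_congr rfl fun g _ => ?_
    rw [Finset.card_filter]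
    push_cast
    rfl
  have hc3 : (Fintype.card (Fin 3 → ι) : ℝ) = n ^ 3 := by
    rw [Fintype.card_fun, Fintype.card_fin]
    push_cast
    rfl
  have h2 : ∀ g : Fin 3 → ι,
      ((Finset.univ.filter fun h : Fin 3 → ι => P g ∧ ∀ s, L g s (h s)).card : ℝ) ≤
        (if P g ∧ ∀ s, δ * n ≤ (Nat.card {i : ι // L g s i} : ℝ) then n ^ 3 else 0) + δ * n ^ 3 := by
    intro g
    by_cases hP : P g
    · by_cases hs : ∀ s, δ * n ≤ (Nat.card {i : ι // L g s i} : ℝ)
      · rw [if_pos ⟨hP, hs⟩]
        have h3 : ((Finset.univ.filter fun h : Fin 3 → ι => P g ∧ ∀ s, L g s (h s)).card : ℝ) ≤ n ^ 3 := by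
          rw [← hc3]
          exact_mod_cast Finset.card_le_univ _
        have : 0 ≤ δ * n ^ 3 := by positivity
        linarith
      · rw [if_neg (fun h => hs h.2), zero_add]
        push Not at hs
        obtain ⟨s, hs⟩ := hs
        have h4 := za_card_le s (Finset.univ.filter fun i : ι => L g s i)
        have h5 : ((Finset.univ.filter fun h : Fin 3 → ι => P g ∧ ∀ s, L g s (h s)).card : ℝ) ≤
            ((Finset.univ.filter fun f : Fin 3 → ι =>
              f s ∈ (Finset.univ.filter fun i : ι => L g s i)).card : ℝ) := by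
          exact_mod_cast Finset.card_le_card fun h hh => by
            simp only [Finset.mem_filter, Finset.mem_univ, true_and] at hh ⊢
            exact hh.2 s
        rw [Nat.card_eq_fintype_card, Fintype.card_subtype] at hs
        rw [Fintype.card_fin, ← hndef] at h4
        have h6 : ((Finset.univ.filter fun f : Fin 3 → ι =>
              f s ∈ (Finset.univ.filter fun i : ι => L g s i)).card : ℝ) * n ≤ (δ * n ^ 3) * n := by
          refine h4.trans ?_
          have : ((Finset.univ.filter fun i : ι => L g s i).card : ℝ) * n ^ 3 ≤ (δ * n) * n ^ 3 :=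
            mul_le_mul_of_nonneg_right hs.le (by positivity)
          nlinarith
        exact h5.trans (le_of_mul_le_mul_right h6 hn)
    · have h7 : (Finset.univ.filter fun h : Fin 3 → ι => P g ∧ ∀ s, L g s (h s)) = ∅ := by
        ext h
        simp [hP]
      rw [h7, if_neg (fun h => hP h.1)]
      simp only [Finset.card_empty, Nat.cast_zero, zero_add]
      positivity
  rw [h1]
  refine (Finset.sum_le_sum fun g _ => h2 g).trans ?_
  rw [Finset.sum_add_distrib, Finset.sum_const, Finset.card_univ, nsmul_eq_mul, hc3,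
    ← Finset.sum_filter, Finset.sum_const, nsmul_eq_mul]
  have : n ^ 3 * (δ * n ^ 3) = δ * n ^ 6 := by ring
  rw [this]

open Classical in
/-- [Z3a2] anchors (from Z3a1). -/
theorem anchors_of_pairs
    (hpairs : ∃ η c e : ℝ, 0 < η ∧ 0 < c ∧ 0 < e ∧ ∀ (ι : Type) [Fintype ι] [Nonempty ι]
      (A : Fin 3 → ι → Set E3), Fam c e A → ∀ T : E4 ≃ₗ[ℝ] E4, IsoF A T →
      η * (Fintype.card ι : ℝ) ^ 6 ≤ (Nat.card {gh : (Fin 3 → ι) × (Fin 3 → ι) //
        Lab (arr A T) gh.1 (0, gh.1 0) ∧ ∀ s, Lab (arr A T) gh.1 (s, gh.2 s)} : ℝ)) :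
    ∃ δ : ℝ, 0 < δ ∧ ∀ (N : ℕ) (ρ : ℝ), 0 < ρ → ∃ c e : ℝ, 0 < c ∧ 0 < e ∧
    ∀ (ι : Type) [Fintype ι] [Nonempty ι] (A : Fin 3 → ι → Set E3), Fam c e A →
    ∀ T : E4 ≃ₗ[ℝ] E4, IsoF A T → ∀ x d : Fin N → E3, (∀ k, d k ≠ 0) →
    ∃ g : Fin 3 → ι, Anch A T δ ρ g ∧ ∀ k s, ¬ ∃ t : ℝ, x k + t • d k ∈ A s (g s) := by
  obtain ⟨η, c0, e0, hη, hc0, he0, hp⟩ := hpairs
  refine ⟨η / 2, by positivity, fun N ρ hρ => ?_⟩
  have hc1 : 0 < η / (16 * ((N : ℝ) + 1)) := by positivity
  have he1 : 0 < η * ρ / 80 := by positivity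
  have he2 : 0 < η / 80 := by positivity
  refine ⟨min c0 (η / (16 * ((N : ℝ) + 1))), min e0 (min (η * ρ / 80) (η / 80)),
    lt_min hc0 hc1, lt_min he0 (lt_min he1 he2), ?_⟩
  intro ι _ _ A hA T hT x d hd
  have hn : (0 : ℝ) < Fintype.card ι := by exact_mod_cast Fintype.card_pos
  have hA0 : Fam c0 e0 A := ⟨hA.conv,
    fun s t h => (hA.disj s t h).trans (mul_le_mul_of_nonneg_right (min_le_left _ _) (by positivity)),
    fun s x d hd => (hA.few s x d hd).trans_le
      (mul_le_mul_of_nonneg_right (min_le_left _ _) hn.le)⟩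
  have h1 := hp ι A hA0 T hT
  have h2 := za_fibre (fun g : Fin 3 → ι => Lab (arr A T) g (0, g 0))
    (fun g s i => Lab (arr A T) g (s, i)) (η / 2) (by positivity)
  have hc3 : (Fintype.card (Fin 3 → ι) : ℝ) = (Fintype.card ι : ℝ) ^ 3 := by
    rw [Fintype.card_fun, Fintype.card_fin]
    push_cast
    rfl
  set n : ℝ := (Fintype.card ι : ℝ) with hndef
  set G : Finset (Fin 3 → ι) := Finset.univ.filter fun g : Fin 3 → ι =>
    Lab (arr A T) g (0, g 0) ∧ ∀ s, η / 2 * n ≤ (Nat.card {i : ι // Lab (arr A T) g (s, i)} : ℝ) with hG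
  have hGc : η / 2 * n ^ 3 ≤ (G.card : ℝ) := by
    have h3 : (η / 2 * n ^ 3) * n ^ 3 ≤ (G.card : ℝ) * n ^ 3 := by nlinarith [h1, h2]
    exact le_of_mul_le_mul_right h3 (by positivity)
  have hdj : ∀ s t, s ≠ t → (Nat.card {ij : ι × ι // ¬ (A s ij.1 ∩ A t ij.2).Nonempty} : ℝ)
      ≤ (η * ρ / 80) * n ^ 2 := fun s t h => (hA.disj s t h).trans
    (mul_le_mul_of_nonneg_right ((min_le_right _ _).trans (min_le_left _ _)) (by positivity))
  have hdj' : ∀ s t, s ≠ t → (Nat.card {ij : ι × ι // ¬ (A s ij.1 ∩ A t ij.2).Nonempty} : ℝ)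
      ≤ (η / 80) * n ^ 2 := fun s t h => (hA.disj s t h).trans
    (mul_le_mul_of_nonneg_right ((min_le_right _ _).trans (min_le_right _ _)) (by positivity))
  have hfew : ∀ s (x d : E3), d ≠ 0 → (met (A s) x d : ℝ) ≤ (η / (16 * ((N : ℝ) + 1))) * n :=
    fun s x d hd => (hA.few s x d hd).le.trans
      (mul_le_mul_of_nonneg_right (min_le_right _ _) hn.le)
  -- bad sets
  set B1 : Fin 3 × Fin 3 → Finset (Fin 3 → ι) := fun st => if st.1 = st.2 then ∅ else
    Finset.univ.filter fun g : Fin 3 → ι => g st.1 ∈ (Finset.univ.filter fun a : ι =>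
      ρ * n < (Nat.card {i : ι // ¬ (A st.1 a ∩ A st.2 i).Nonempty} : ℝ)) with hB1
  set B2 : Fin 3 × Fin 3 → Finset (Fin 3 → ι) := fun st => if st.1 = st.2 then ∅ else
    Finset.univ.filter fun g : Fin 3 → ι => (g st.1, g st.2) ∈ (Finset.univ.filter fun ij : ι × ι =>
      ¬ (A st.1 ij.1 ∩ A st.2 ij.2).Nonempty) with hB2
  set B3 : Fin N × Fin 3 → Finset (Fin 3 → ι) := fun ks =>
    Finset.univ.filter fun g : Fin 3 → ι => g ks.2 ∈ (Finset.univ.filter fun a : ι =>
      ∃ t : ℝ, x ks.1 + t • d ks.1 ∈ A ks.2 a) with hB3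
  have hb1 : ∀ st, ((B1 st).card : ℝ) ≤ η / 80 * n ^ 3 := by
    intro st
    simp only [hB1]
    split_ifs with h
    · simp only [Finset.card_empty, Nat.cast_zero]
      positivity
    · set H := (Finset.univ.filter fun a : ι =>
        ρ * n < (Nat.card {i : ι // ¬ (A st.1 a ∩ A st.2 i).Nonempty} : ℝ)) with hH
      have h3 := za_card_le st.1 H
      rw [Fintype.card_fin, ← hndef] at h3
      have h4 : (H.card : ℝ) * (ρ * n) ≤ (η * ρ / 80) * n ^ 2 := by
        refine le_trans ?_ (hdj st.1 st.2 h)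
        have h5 : (Nat.card {ij : ι × ι // ¬ (A st.1 ij.1 ∩ A st.2 ij.2).Nonempty} : ℝ) =
            ∑ a : ι, (Nat.card {i : ι // ¬ (A st.1 a ∩ A st.2 i).Nonempty} : ℝ) := by
          rw [Nat.card_eq_fintype_card, Fintype.card_subtype, Finset.card_filter,
            Fintype.sum_prod_type]
          push_cast
          refine Finset.sum_congr rfl fun a _ => ?_
          rw [Nat.card_eq_fintype_card, Fintype.card_subtype, Finset.card_filter]
          push_cast
          rfl
        rw [h5]
        calc (H.card : ℝ) * (ρ * n) = ∑ a ∈ H, ρ * n := by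
              rw [Finset.sum_const, nsmul_eq_mul]
          _ ≤ ∑ a ∈ H, (Nat.card {i : ι // ¬ (A st.1 a ∩ A st.2 i).Nonempty} : ℝ) := by
              refine Finset.sum_le_sum fun a ha => ?_
              rw [hH, Finset.mem_filter] at ha
              exact ha.2.le
          _ ≤ _ := Finset.sum_le_sum_of_subset_of_nonneg (Finset.subset_univ _)
              fun _ _ _ => by positivity
      have h6 : (H.card : ℝ) ≤ η / 80 * n := by
        have : (H.card : ℝ) * (ρ * n) ≤ (η / 80 * n) * (ρ * n) := by nlinarith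
        exact le_of_mul_le_mul_right this (by positivity)
      have h7 : ((Finset.univ.filter fun g : Fin 3 → ι => g st.1 ∈ H).card : ℝ) * n ≤
          (η / 80 * n ^ 3) * n := by
        refine h3.trans ?_
        have : (H.card : ℝ) * n ^ 3 ≤ (η / 80 * n) * n ^ 3 :=
          mul_le_mul_of_nonneg_right h6 (by positivity)
        nlinarith
      exact le_of_mul_le_mul_right h7 hn
  have hb2 : ∀ st, ((B2 st).card : ℝ) ≤ η / 80 * n ^ 3 := by
    intro st
    simp only [hB2]
    split_ifs with h
    · simp only [Finset.card_empty, Nat.cast_zero]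
      positivity
    · have h3 := za_card_pair st.1 st.2 h (Finset.univ.filter fun ij : ι × ι =>
        ¬ (A st.1 ij.1 ∩ A st.2 ij.2).Nonempty)
      rw [Fintype.card_fin, ← hndef] at h3
      have h4 := hdj' st.1 st.2 h
      rw [Nat.card_eq_fintype_card, Fintype.card_subtype] at h4
      have h5 : ((Finset.univ.filter fun g : Fin 3 → ι => (g st.1, g st.2) ∈
          (Finset.univ.filter fun ij : ι × ι => ¬ (A st.1 ij.1 ∩ A st.2 ij.2).Nonempty)).card : ℝ)
          * n ^ 2 ≤ (η / 80 * n ^ 3) * n ^ 2 := by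
        rw [h3]
        have := mul_le_mul_of_nonneg_right h4 (show (0 : ℝ) ≤ n ^ 3 by positivity)
        calc _ ≤ (η / 80 * n ^ 2) * n ^ 3 := this
          _ = _ := by ring
      exact le_of_mul_le_mul_right h5 (by positivity)
  have hb3 : ∀ ks, ((B3 ks).card : ℝ) ≤ η / (16 * ((N : ℝ) + 1)) * n ^ 3 := by
    intro ks
    simp only [hB3]
    have h3 := za_card_le ks.2 (Finset.univ.filter fun a : ι =>
      ∃ t : ℝ, x ks.1 + t • d ks.1 ∈ A ks.2 a)
    rw [Fintype.card_fin, ← hndef] at h3
    have h4 := hfew ks.2 (x ks.1) (d ks.1) (hd ks.1)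
    unfold met at h4
    rw [Nat.card_eq_fintype_card, Fintype.card_subtype] at h4
    have h5 : ((Finset.univ.filter fun g : Fin 3 → ι => g ks.2 ∈ (Finset.univ.filter fun a : ι =>
        ∃ t : ℝ, x ks.1 + t • d ks.1 ∈ A ks.2 a)).card : ℝ) * n ≤
        (η / (16 * ((N : ℝ) + 1)) * n ^ 3) * n := by
      refine h3.trans ?_
      have := mul_le_mul_of_nonneg_right h4 (show (0 : ℝ) ≤ n ^ 3 by positivity)
      calc _ ≤ (η / (16 * ((N : ℝ) + 1)) * n) * n ^ 3 := this
        _ = _ := by ring
    exact le_of_mul_le_mul_right h5 hn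
  set Bad : Finset (Fin 3 → ι) := (Finset.univ.biUnion B1 ∪ Finset.univ.biUnion B2) ∪
    Finset.univ.biUnion B3 with hBad
  have hbad : (Bad.card : ℝ) < η / 2 * n ^ 3 := by
    have h3 : (Bad.card : ℝ) ≤ ((∑ st, (B1 st).card : ℕ) : ℝ) + ((∑ st, (B2 st).card : ℕ) : ℝ) +
        ((∑ ks, (B3 ks).card : ℕ) : ℝ) := by
      have h4 : Bad.card ≤ (∑ st, (B1 st).card) + (∑ st, (B2 st).card) + ∑ ks, (B3 ks).card := by
        refine (Finset.card_union_le _ _).trans (add_le_add ((Finset.card_union_le _ _).trans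
          (add_le_add Finset.card_biUnion_le Finset.card_biUnion_le)) Finset.card_biUnion_le)
      exact_mod_cast h4
    push_cast at h3
    have h5 : (∑ st, ((B1 st).card : ℝ)) ≤ 9 * (η / 80 * n ^ 3) := by
      refine (Finset.sum_le_sum fun st _ => hb1 st).trans ?_
      rw [Finset.sum_const, Finset.card_univ, nsmul_eq_mul, Fintype.card_prod, Fintype.card_fin]
      norm_num
    have h6 : (∑ st, ((B2 st).card : ℝ)) ≤ 9 * (η / 80 * n ^ 3) := by
      refine (Finset.sum_le_sum fun st _ => hb2 st).trans ?_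
      rw [Finset.sum_const, Finset.card_univ, nsmul_eq_mul, Fintype.card_prod, Fintype.card_fin]
      norm_num
    have h7 : (∑ ks, ((B3 ks).card : ℝ)) ≤ (3 / 16) * (η * n ^ 3) := by
      refine (Finset.sum_le_sum fun ks _ => hb3 ks).trans ?_
      rw [Finset.sum_const, Finset.card_univ, nsmul_eq_mul, Fintype.card_prod, Fintype.card_fin,
        Fintype.card_fin]
      push_cast
      have h8 : (N : ℝ) * 3 * (η / (16 * ((N : ℝ) + 1)) * n ^ 3) =
          (3 / 16) * (η * n ^ 3) * ((N : ℝ) / ((N : ℝ) + 1)) := by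
        field_simp
      rw [h8]
      have h9 : (N : ℝ) / ((N : ℝ) + 1) ≤ 1 := by
        rw [div_le_one (by positivity)]
        linarith
      have h10 : 0 ≤ (3 / 16 : ℝ) * (η * n ^ 3) := by positivity
      nlinarith
    have h11 : 0 < η * n ^ 3 := by positivity
    nlinarith
  have hex : ∃ g ∈ G, g ∉ Bad := by
    by_contra hcon
    push Not at hcon
    have : G.card ≤ Bad.card := Finset.card_le_card fun g hg => hcon g hg
    have : (G.card : ℝ) ≤ Bad.card := by exact_mod_cast this
    linarith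
  obtain ⟨g, hg, hgb⟩ := hex
  rw [hG, Finset.mem_filter] at hg
  rw [hBad] at hgb
  simp only [Finset.mem_union, Finset.mem_biUnion, Finset.mem_univ, true_and, not_or,
    not_exists] at hgb
  obtain ⟨⟨hg1, hg2⟩, hg3⟩ := hgb
  refine ⟨g, ⟨hg.2.1, hg.2.2, fun s t hst => ?_, fun s t hst => ?_⟩, fun k s hks => ?_⟩
  · have := hg1 (s, t)
    simp only [hB1, hst, if_false, Finset.mem_filter, Finset.mem_univ, true_and, not_lt] at this
    exact this
  · have := hg2 (s, t)
    simp only [hB2, hst, if_false, Finset.mem_filter, Finset.mem_univ, true_and, not_not] at this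
    exact this
  · have := hg3 (k, s)
    simp only [hB3, Finset.mem_filter, Finset.mem_univ, true_and] at this
    exact this hks

end

end Pool.Agent.LP3
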