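import Pool.Agent.LP3.Z3b25
import Pool.Agent.LP3.Z3a1
import Pool.Agent.LP3.Z3a2
import Pool.Agent.LP3.Z3
import Pool.Agent.LP3.R3
import Pool.Agent.LP3.K3

/-! The three-colour robust theorem: the rows put together. -/

namespace Pool.Agent.LP3

open Pool.Agent.LPI Pool.Agent.LPC

theorem pairs : ∃ η c e : ℝ, 0 < η ∧ 0 < c ∧ 0 < e ∧ ∀ (ι : Type) [Fintype ι] [Nonempty ι]
    (A : Fin 3 → ι → Set E3), Fam c e A → ∀ T : E4 ≃ₗ[ℝ] E4, IsoF A T →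
    η * (Fintype.card ι : ℝ) ^ 6 ≤ (Nat.card {gh : (Fin 3 → ι) × (Fin 3 → ι) //
      Lab (arr A T) gh.1 (0, gh.1 0) ∧ ∀ s, Lab (arr A T) gh.1 (s, gh.2 s)} : ℝ) :=
  pairs_of (sampling 13) pp_of_flat net1 cross_line count1 count3

theorem core : ∃ c e : ℝ, 0 < c ∧ 0 < e ∧ ∀ (ι : Type) [Fintype ι] [Nonempty ι]
    (A : Fin 3 → ι → Set E3), (∀ s i, Convex ℝ (A s i)) →
    (∀ s t, s ≠ t → (Nat.card {ij : ι × ι // ¬ (A s ij.1 ∩ A t ij.2).Nonempty} : ℝ)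
      ≤ e * (Fintype.card ι : ℝ) ^ 2) →
      ∃ (s : Fin 3) (x d : E3), d ≠ 0 ∧ c * Fintype.card ι ≤ (met (A s) x d : ℝ) :=
  core_of (fun _ _ _ A => frame A) cross_line (anchors_of_pairs pairs) stage2

theorem main : ∃ c e : ℝ, 0 < c ∧ 0 < e ∧ ∀ (m : Fin 3 → ℕ), (∀ s, 1 ≤ m s) →
    ∀ A : (s : Fin 3) → Fin (m s) → Set E3, (∀ s i, Convex ℝ (A s i)) →
    (∀ s t, s ≠ t → (Nat.card {ij : Fin (m s) × Fin (m t) // ¬ (A s ij.1 ∩ A t ij.2).Nonempty} : ℝ)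
      ≤ e * (m s * m t : ℝ)) →
      ∃ (s : Fin 3) (x d : E3), d ≠ 0 ∧ c * (m s : ℝ) ≤ (met (A s) x d : ℝ) :=
  main_of_core core

end Pool.Agent.LP3
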