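import Pool.Agent.LP3.Defs
import Pool.Agent.LPI.L46

set_option autoImplicit false

namespace Pool.Agent.LP3

open Pool.Agent.LPI Pool.Agent.LPC

noncomputable section

theorem h3_lift_ne (x : E3) : lift x ≠ 0 := by
  intro h
  have := congrArg (fun v : E4 => v 0) h
  simp [lift] at this

theorem h3_pt_mem {ι : Type} (A : Fin 3 → ι → Set E3) {v w : Fin 3 × ι}
    (h : (A v.1 v.2 ∩ A w.1 w.2).Nonempty) : pt A v w ∈ A v.1 v.2 := by
  have h1 : pick (A v.1 v.2 ∩ A w.1 w.2) ∈ A v.1 v.2 ∩ A w.1 w.2 := by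
    unfold pick
    rw [dif_pos h]
    exact h.some_mem
  exact h1.1

/-- The lift of a convex combination. -/
theorem h3_lift_comb (x y z : E3) (a b c : ℝ) (h : a + b + c ≠ 0) :
    lift ((a + b + c)⁻¹ • (a • x + b • y + c • z)) =
      (a + b + c)⁻¹ • (a • lift x + b • lift y + c • lift z) := by
  ext i
  fin_cases i
  · simp [lift]
    field_simp
  · simp [lift]
  · simp [lift]
  · simp [lift]

theorem h3_cone {K : Set E3} (hK : Convex ℝ K) {x y z : E3} (hx : x ∈ K) (hy : y ∈ K) (hz : z ∈ K)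
    {a b c : ℝ} (ha : 0 < a) (hb : 0 < b) (hc : 0 < c) {P : Submodule ℝ E4}
    (h : a • lift x + b • lift y + c • lift z ∈ P) : ∃ w ∈ K, lift w ∈ P := by
  have hs : 0 < a + b + c := by positivity
  refine ⟨(a + b + c)⁻¹ • (a • x + b • y + c • z), ?_, ?_⟩
  · have h1 : (a + b + c)⁻¹ • (a • x + b • y + c • z) =
        ((a + b) / (a + b + c)) • ((a / (a + b)) • x + (b / (a + b)) • y) +
          (c / (a + b + c)) • z := by
      have hab : a + b ≠ 0 := by positivity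
      rw [smul_add, smul_add, smul_add, smul_smul, smul_smul, smul_smul, smul_smul, smul_smul]
      congr 2
      · congr 1
        field_simp
      · congr 1
        field_simp
      · field_simp
    rw [h1]
    refine hK (hK hx hy ?_ ?_ ?_) hz ?_ ?_ ?_
    · positivity
    · positivity
    · field_simp
    · positivity
    · positivity
    · field_simp
  · rw [h3_lift_comb x y z a b c hs.ne']
    exact P.smul_mem _ h

/-- [H3] a plane gives a line of `ℝ³` meeting all sets whose row it crosses. -/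
theorem cross_line (T : E4 ≃ₗ[ℝ] E4) (P Q : E4) (h : LinearIndependent ℝ ![P, Q]) :
    ∃ x d : E3, d ≠ 0 ∧ ∀ {ι : Type} (A : Fin 3 → ι → Set E3), (∀ s i, Convex ℝ (A s i)) →
      ∀ (v w₁ w₂ w₃ : Fin 3 × ι) (α β γ ω : ℝ),
        (A v.1 v.2 ∩ A w₁.1 w₁.2).Nonempty → (A v.1 v.2 ∩ A w₂.1 w₂.2).Nonempty →
        (A v.1 v.2 ∩ A w₃.1 w₃.2).Nonempty → 0 < α → 0 < β → 0 < γ →
        α • arr A T v w₁ + β • arr A T v w₂ + γ • arr A T v w₃ = P + ω • Q →
        ∃ t : ℝ, x + t • d ∈ A v.1 v.2 := by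
  have hind : LinearIndependent ℝ ![T.symm P, T.symm Q] := by
    have h1 := h.map' (T.symm : E4 →ₗ[ℝ] E4) (LinearEquiv.ker T.symm)
    have h2 : (⇑(T.symm : E4 →ₗ[ℝ] E4) ∘ ![P, Q]) = ![T.symm P, T.symm Q] := by
      funext i
      fin_cases i <;> rfl
    rwa [h2] at h1
  obtain ⟨x, d, hd, hline⟩ := trace_line _ _ hind
  refine ⟨x, d, hd, ?_⟩
  intro ι A hconv v w₁ w₂ w₃ α β γ ω hn1 hn2 hn3 hα hβ hγ heq
  have hTne : ∀ v w, T (lift (pt A v w)) ≠ 0 := fun v w h =>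
    h3_lift_ne (pt A v w) ((LinearEquiv.map_eq_zero_iff T).1 h)
  have hpos : ∀ i j, 0 < ‖T (lift (pt A i j))‖⁻¹ := fun i j =>
    inv_pos.2 (norm_pos_iff.2 (hTne i j))
  have h2 : (α * ‖T (lift (pt A v w₁))‖⁻¹) • lift (pt A v w₁) +
      (β * ‖T (lift (pt A v w₂))‖⁻¹) • lift (pt A v w₂) +
      (γ * ‖T (lift (pt A v w₃))‖⁻¹) • lift (pt A v w₃) =
      T.symm P + ω • T.symm Q := by
    have h3 := congrArg T.symm heq
    simp only [arr, unit, map_add, map_smul, LinearEquiv.symm_apply_apply, smul_smul] at h3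
    exact h3
  have h4 : T.symm P + ω • T.symm Q ∈ Submodule.span ℝ {T.symm P, T.symm Q} :=
    Submodule.add_mem _ (Submodule.subset_span (by simp))
      (Submodule.smul_mem _ _ (Submodule.subset_span (by simp)))
  rw [← h2] at h4
  obtain ⟨w, hw, hw'⟩ := h3_cone (hconv v.1 v.2) (h3_pt_mem A hn1) (h3_pt_mem A hn2)
    (h3_pt_mem A hn3) (mul_pos hα (hpos _ _)) (mul_pos hβ (hpos _ _)) (mul_pos hγ (hpos _ _)) h4
  obtain ⟨t, ht⟩ := hline w hw'
  exact ⟨t, ht ▸ hw⟩

end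

end Pool.Agent.LP3
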