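import Pool.Agent.LP3.Defs

/-! H3b: every good pair of samples is hit. -/

namespace Pool.Agent.LP3

open Pool.Agent.LPI Pool.Agent.LPC

noncomputable section

namespace H3b97

theorem lift_ne (x : E3) : lift x ≠ 0 := by
  intro h
  have := congrArg (fun z : E4 => z 0) h
  simp [lift] at this

theorem norm_unit {w : E4} (hw : w ≠ 0) : ‖unit w‖ = 1 := by
  rw [unit, norm_smul, norm_inv, norm_norm, inv_mul_cancel₀ (norm_ne_zero_iff.2 hw)]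

theorem T_ne (T : E4 ≃ₗ[ℝ] E4) (x : E3) : T (lift x) ≠ 0 := by
  intro h
  exact lift_ne x (by simpa using h)

theorem arr_norm {ι : Type} (A : Fin 3 → ι → Set E3) (T : E4 ≃ₗ[ℝ] E4) (v w : Fin 3 × ι) :
    ‖arr A T v w‖ = 1 := norm_unit (T_ne T _)

theorem arr_symm {ι : Type} (A : Fin 3 → ι → Set E3) (T : E4 ≃ₗ[ℝ] E4) (v w : Fin 3 × ι) :
    arr A T v w = arr A T w v := by
  unfold arr pt
  rw [Set.inter_comm]

/-- The relation of the two frames. -/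
theorem rel_unit (M : E4 →L[ℝ] E4) (T T' : E4 ≃ₗ[ℝ] E4) (hM : ∀ x, M (T x) = T' x) (x : E4)
    (hx : x ≠ 0) :
    (‖M‖⁻¹ • M) (unit (T x)) = ‖(‖M‖⁻¹ • M) (unit (T x))‖ • unit (T' x) := by
  have hT : T x ≠ 0 := by simpa using hx
  have hT' : T' x ≠ 0 := by simpa using hx
  have h0 : (‖M‖⁻¹ • M) (unit (T x)) = (‖M‖⁻¹ * ‖T x‖⁻¹) • T' x := by
    rw [ContinuousLinearMap.smul_apply, unit, map_smul, hM, smul_smul]
  rw [h0, norm_smul, unit, smul_smul]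
  congr 1
  rw [Real.norm_of_nonneg (by positivity)]
  have := norm_ne_zero_iff.2 hT'
  field_simp

end H3b97

open H3b97

/-- [H3b] every good pair of samples is hit. -/
theorem sample_hit (r N : ℕ) (P Q : Fin N → E4)
    (hnet : ∀ (S : E4 →L[ℝ] E4)
      (u u' : Fin 3 × Option (Fin r ⊕ Fin r) → Fin 3 × Option (Fin r ⊕ Fin r) → E4),
      XX r none (fun a => some (Sum.inl a)) (fun a => some (Sum.inr a)) S u u' →
        ∃ k, (∃ v, Crossed u v (P k) (Q k)) ∨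
          ∃ s a, Crossed u' (s, some (Sum.inr a)) (P k) (Q k))
    {ι : Type} (A : Fin 3 → ι → Set E3) (hconv : ∀ s i, Convex ℝ (A s i)) (T T' : E4 ≃ₗ[ℝ] E4)
    (x d x' d' : Fin N → E3)
    (hline : ∀ k (v w₁ w₂ w₃ : Fin 3 × ι) (α β γ ω : ℝ),
        (A v.1 v.2 ∩ A w₁.1 w₁.2).Nonempty → (A v.1 v.2 ∩ A w₂.1 w₂.2).Nonempty →
        (A v.1 v.2 ∩ A w₃.1 w₃.2).Nonempty → 0 < α → 0 < β → 0 < γ →
        α • arr A T v w₁ + β • arr A T v w₂ + γ • arr A T v w₃ = P k + ω • Q k →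
        ∃ t : ℝ, x k + t • d k ∈ A v.1 v.2)
    (hline' : ∀ k (v w₁ w₂ w₃ : Fin 3 × ι) (α β γ ω : ℝ),
        (A v.1 v.2 ∩ A w₁.1 w₁.2).Nonempty → (A v.1 v.2 ∩ A w₂.1 w₂.2).Nonempty →
        (A v.1 v.2 ∩ A w₃.1 w₃.2).Nonempty → 0 < α → 0 < β → 0 < γ →
        α • arr A T' v w₁ + β • arr A T' v w₂ + γ • arr A T' v w₃ = P k + ω • Q k →
        ∃ t : ℝ, x' k + t • d' k ∈ A v.1 v.2)
    (g : Fin 3 → ι) (hanc : Lab (arr A T) g (0, g 0))
    (hmeet : ∀ s t, s ≠ t → (A s (g s) ∩ A t (g t)).Nonempty)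
    (hgline : ∀ k s, ¬ ∃ t : ℝ, x k + t • d k ∈ A s (g s))
    (f₀ f₁ : Fin 3 × Fin r → ι)
    (hiso : Iso3 r (fun v w => arr A T (v.1, f₀ v) (w.1, f₀ w)))
    (hiso' : Iso3 r (fun v w => arr A T' (v.1, f₁ v) (w.1, f₁ w)))
    (hlab : ∀ v, Lab (arr A T) g (v.1, f₁ v))
    (h00 : ∀ v w : Fin 3 × Fin r, v.1 ≠ w.1 → (A v.1 (f₀ v) ∩ A w.1 (f₀ w)).Nonempty)
    (h11 : ∀ v w : Fin 3 × Fin r, v.1 ≠ w.1 → (A v.1 (f₁ v) ∩ A w.1 (f₁ w)).Nonempty)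
    (h01 : ∀ v w : Fin 3 × Fin r, v.1 ≠ w.1 → (A v.1 (f₀ v) ∩ A w.1 (f₁ w)).Nonempty)
    (hg0 : ∀ (s : Fin 3) (v : Fin 3 × Fin r), s ≠ v.1 → (A s (g s) ∩ A v.1 (f₀ v)).Nonempty)
    (hg1 : ∀ (s : Fin 3) (v : Fin 3 × Fin r), s ≠ v.1 → (A s (g s) ∩ A v.1 (f₁ v)).Nonempty) :
    ∃ (k : Fin N) (v : Fin 3 × Fin r), (∃ t : ℝ, x k + t • d k ∈ A v.1 (f₀ v)) ∨
      (∃ t : ℝ, x k + t • d k ∈ A v.1 (f₁ v)) ∨ ∃ t : ℝ, x' k + t • d' k ∈ A v.1 (f₁ v) := by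
  classical
  -- the common labelling of the vertices
  let F : Fin 3 × Option (Fin r ⊕ Fin r) → ι := fun v =>
    match v.2 with
    | none => g v.1
    | some (Sum.inl a) => f₀ (v.1, a)
    | some (Sum.inr a) => f₁ (v.1, a)
  have hmt : ∀ v w : Fin 3 × Option (Fin r ⊕ Fin r), v.1 ≠ w.1 →
      (A v.1 (F v) ∩ A w.1 (F w)).Nonempty := by
    rintro ⟨s, v⟩ ⟨t, w⟩ hst
    have hst' : s ≠ t := hst
    rcases v with _ | v | v <;> rcases w with _ | w | w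
    · exact hmeet s t hst'
    · exact hg0 s (t, w) hst'
    · exact hg1 s (t, w) hst'
    · rw [Set.inter_comm]; exact hg0 t (s, v) hst'.symm
    · exact h00 (s, v) (t, w) hst'
    · exact h01 (s, v) (t, w) hst'
    · rw [Set.inter_comm]; exact hg1 t (s, v) hst'.symm
    · rw [Set.inter_comm]; exact h01 (t, w) (s, v) hst'.symm
    · exact h11 (s, v) (t, w) hst'
  let u : Fin 3 × Option (Fin r ⊕ Fin r) → Fin 3 × Option (Fin r ⊕ Fin r) → E4 :=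
    fun v w => arr A T (v.1, F v) (w.1, F w)
  let u' : Fin 3 × Option (Fin r ⊕ Fin r) → Fin 3 × Option (Fin r ⊕ Fin r) → E4 :=
    fun v w => arr A T' (v.1, F v) (w.1, F w)
  -- the comparison of the frames
  let M : E4 →L[ℝ] E4 := LinearMap.toContinuousLinearMap ((T.symm.trans T').toLinearMap)
  have hM : ∀ x, M (T x) = T' x := by
    intro x
    simp [M]
  have hM0 : ‖M‖ ≠ 0 := by
    intro h
    have h0 : M = 0 := norm_eq_zero.1 h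
    have h1 : T' (lift 0) = 0 := by rw [← hM, h0]; rfl
    exact T_ne T' 0 h1
  have hX : XX r none (fun a => some (Sum.inl a)) (fun a => some (Sum.inr a)) (‖M‖⁻¹ • M) u u' :=
    { normS := by rw [norm_smul, norm_inv, norm_norm, inv_mul_cancel₀ hM0]
      norm := fun v w => arr_norm A T _ _
      sym := fun v w => arr_symm A T _ _
      norm' := fun v w => arr_norm A T' _ _
      sym' := fun v w => arr_symm A T' _ _
      rel := fun v w => rel_unit M T T' hM _ (lift_ne _)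
      iso := hiso
      iso' := hiso'
      anc := hanc
      lab := fun s a => hlab (s, a) }
  obtain ⟨k, ⟨⟨s, v⟩, w₁, w₂, w₃, α, β, γ, ω, h1, h2, h3, hα, hβ, hγ, he⟩ |
    ⟨s, a, w₁, w₂, w₃, α, β, γ, ω, h1, h2, h3, hα, hβ, hγ, he⟩⟩ := hnet _ _ _ hX
  · have hm := hline k (s, F (s, v)) (w₁.1, F w₁) (w₂.1, F w₂) (w₃.1, F w₃) α β γ ω
      (hmt (s, v) w₁ h1) (hmt (s, v) w₂ h2) (hmt (s, v) w₃ h3) hα hβ hγ he
    rcases v with _ | v | v
    · exact absurd hm (hgline k s)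
    · exact ⟨k, (s, v), Or.inl hm⟩
    · exact ⟨k, (s, v), Or.inr (Or.inl hm)⟩
  · have hm := hline' k (s, F (s, some (Sum.inr a))) (w₁.1, F w₁) (w₂.1, F w₂) (w₃.1, F w₃) α β γ ω
      (hmt _ w₁ h1) (hmt _ w₂ h2) (hmt _ w₃ h3) hα hβ hγ he
    exact ⟨k, (s, a), Or.inr (Or.inr hm)⟩

end

end Pool.Agent.LP3
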