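import Pool.Agent.LPI.Defs

/-!
# Row D3a, linear algebra: three colours, rows of rank at most two
-/

namespace Pool.Agent.LP3.H61

open Pool.Agent.LPI Module
open scoped BigOperators

noncomputable section

/-! ### Linear algebra -/

theorem d3_span {L W : Submodule ℝ E4} (hL : finrank ℝ L ≤ 2) {x y : E4} (hx : x ∈ L) (hy : y ∈ L)
    (hxy : LinearIndependent ℝ ![x, y]) (hxW : x ∈ W) (hyW : y ∈ W) : L ≤ W := by
  have h1 : Submodule.span ℝ (Set.range ![x, y]) ≤ L := by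
    rw [Submodule.span_le]
    rintro v ⟨i, rfl⟩
    fin_cases i
    · exact hx
    · exact hy
  have h2 : finrank ℝ (Submodule.span ℝ (Set.range ![x, y])) = 2 := by
    rw [finrank_span_eq_card hxy]
    rfl
  have h3 : Submodule.span ℝ (Set.range ![x, y]) = L :=
    Submodule.eq_of_le_of_finrank_le h1 (by rw [h2]; exact hL)
  rw [← h3, Submodule.span_le]
  rintro v ⟨i, rfl⟩
  fin_cases i
  · exact hxW
  · exact hyW

/-- A plane not in `W` meets `W` in at most a line. -/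
theorem d3_T3 {L W M : Submodule ℝ E4} (hL : finrank ℝ L ≤ 2) (hLW : ¬ L ≤ W) {q z : E4}
    (hqL : q ∈ L) (hzL : z ∈ L) (hqW : q ∈ W) (hzW : z ∈ W) (hz : z ≠ 0) (hzM : z ∈ M) : q ∈ M := by
  by_contra hqM
  apply hLW
  apply d3_span hL hzL hqL _ hzW hqW
  rw [LinearIndependent.pair_iff' hz]
  intro a ha
  apply hqM
  rw [← ha]
  exact M.smul_mem a hzM

theorem d3_T0 {L M : Submodule ℝ E4} (hL : finrank ℝ L ≤ 1) {q z : E4}
    (hqL : q ∈ L) (hzL : z ∈ L) (hz : z ≠ 0) (hzM : z ∈ M) : q ∈ M := by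
  obtain ⟨v, hv⟩ := finrank_le_one_iff.1 hL
  obtain ⟨a, ha⟩ := hv ⟨z, hzL⟩
  obtain ⟨b, hb⟩ := hv ⟨q, hqL⟩
  have ha' : a • (v : E4) = z := by
    have := congrArg (Subtype.val) ha
    simpa using this
  have hb' : b • (v : E4) = q := by
    have := congrArg (Subtype.val) hb
    simpa using this
  have ha0 : a ≠ 0 := by
    rintro rfl
    rw [zero_smul] at ha'
    exact hz ha'.symm
  have : q = (b * a⁻¹) • z := by
    rw [← ha', ← hb', smul_smul, mul_assoc, inv_mul_cancel₀ ha0, mul_one]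
  rw [this]
  exact M.smul_mem _ hzM

theorem d3_fact {L₁ L₂ L : Submodule ℝ E4} (h1 : finrank ℝ L₁ ≤ 2) (h2 : finrank ℝ L₂ ≤ 2)
    (h : finrank ℝ L ≤ 2) (hne : L₁ ≠ L₂) {q x y : E4} (hq1 : q ∈ L₁) (hq2 : q ∈ L₂) (hx : x ≠ 0)
    (hxL : x ∈ L) (hx1 : x ∈ L₁) (hy : y ≠ 0) (hyL : y ∈ L) (hy2 : y ∈ L₂) :
    q ∈ L ∨ L ≤ L₁ ⊔ L₂ := by
  by_contra hcon
  push Not at hcon
  obtain ⟨hq, hW⟩ := hcon
  have hx2 : x ∈ L₂ := d3_T3 h hW hxL hyL (Submodule.mem_sup_left hx1) (Submodule.mem_sup_right hy2)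
    hy hy2
  apply hq
  by_cases h12 : L₁ ≤ L₂
  · have h21 : ¬ L₂ ≤ L₁ := fun h => hne (le_antisymm h12 h)
    exact d3_T3 h2 h21 hq2 hx2 hq1 hx1 hx hxL
  · exact d3_T3 h1 h12 hq1 hx1 hq2 hx2 hx hxL

theorem d3_sup {L₁ L₂ : Submodule ℝ E4} (h1 : finrank ℝ L₁ ≤ 2) (h2 : finrank ℝ L₂ ≤ 2) {q : E4}
    (hq : q ≠ 0) (hq1 : q ∈ L₁) (hq2 : q ∈ L₂) : finrank ℝ ↥(L₁ ⊔ L₂) ≤ 3 := by
  have h3 := Submodule.finrank_sup_add_finrank_inf_eq L₁ L₂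
  have h4 : 1 ≤ finrank ℝ ↥(L₁ ⊓ L₂) := by
    rw [Submodule.one_le_finrank_iff]
    intro h
    have : q ∈ L₁ ⊓ L₂ := ⟨hq1, hq2⟩
    rw [h] at this
    exact hq ((Submodule.mem_bot ℝ).1 this)
  omega

/-- Two different lines of a plane span it. -/
theorem d3_two {L : Submodule ℝ E4} (hL : finrank ℝ L ≤ 2) {x y : E4} (hx : x ∈ L) (hy : y ∈ L)
    (hx0 : x ≠ 0) (hne : Submodule.span ℝ {x} ≠ Submodule.span ℝ {y}) (hy0 : y ≠ 0) :
    L = Submodule.span ℝ {x} ⊔ Submodule.span ℝ {y} := by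
  refine le_antisymm ?_ ?_
  · apply d3_span hL hx hy
    · rw [LinearIndependent.pair_iff' hx0]
      intro a ha
      apply hne
      have ha0 : a ≠ 0 := by
        rintro rfl
        rw [zero_smul] at ha
        exact hy0 ha.symm
      rw [← ha]
      exact (Submodule.span_singleton_smul_eq (IsUnit.mk0 a ha0) x).symm
    · exact Submodule.mem_sup_left (Submodule.mem_span_singleton_self x)
    · exact Submodule.mem_sup_right (Submodule.mem_span_singleton_self y)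
  · rw [sup_le_iff, Submodule.span_singleton_le_iff_mem, Submodule.span_singleton_le_iff_mem]
    exact ⟨hx, hy⟩

section common

variable {r : ℕ} {u : Fin 3 × Fin r → Fin 3 × Fin r → E4} {L : Fin 3 × Fin r → Submodule ℝ E4}

theorem d3_other : ∀ s : Fin 3, ∃ k, k ≠ s := by decide

theorem d3_third : ∀ s i : Fin 3, s ≠ i → ∃ k, k ≠ s ∧ k ≠ i := by decide

theorem d3_cover : ∀ s i j c : Fin 3, i ≠ s → j ≠ s → i ≠ j → c ≠ s → c = i ∨ c = j := by decide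

theorem d3_out (h1 : ∀ v w, v.1 ≠ w.1 → u v w ∈ L v) (h2 : ∀ v w, v.1 ≠ w.1 → u v w ∈ L w)
    (H1 : ∀ W : Submodule ℝ E4, finrank ℝ W ≤ 3 → ∃ v w, v.1 ≠ w.1 ∧ u v w ∉ W)
    (s : Fin 3) (W : Submodule ℝ E4) (hW : finrank ℝ W ≤ 3) :
    ∃ x : Fin 3 × Fin r, x.1 ≠ s ∧ ¬ L x ≤ W := by
  obtain ⟨v, w, hvw, h⟩ := H1 W hW
  by_cases hv : v.1 = s
  · refine ⟨w, ?_, fun hle => h (hle (h2 v w hvw))⟩
    intro hw
    exact hvw (hv.trans hw.symm)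
  · exact ⟨v, hv, fun hle => h (hle (h1 v w hvw))⟩

/-- A nonzero vector in all `L w`, `w` not of colour `s`, is in all `L v`. -/
theorem d3_ext (hd : ∀ v, finrank ℝ (L v) ≤ 2) (h0 : ∀ v w, u v w ≠ 0)
    (h1 : ∀ v w, v.1 ≠ w.1 → u v w ∈ L v) (h2 : ∀ v w, v.1 ≠ w.1 → u v w ∈ L w)
    (H1 : ∀ W : Submodule ℝ E4, finrank ℝ W ≤ 3 → ∃ v w, v.1 ≠ w.1 ∧ u v w ∉ W)
    (s : Fin 3) {q : E4} (hq0 : q ≠ 0) (hcr : ∀ w : Fin 3 × Fin r, w.1 ≠ s → q ∈ L w) :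
    ∀ v, q ∈ L v := by
  intro v
  by_contra hqn
  have hv : v.1 = s := by
    by_contra h
    exact hqn (hcr v h)
  have hW : finrank ℝ ↥(L v ⊔ Submodule.span ℝ {q}) ≤ 3 := by
    have e1 := Submodule.finrank_add_le_finrank_add_finrank (L v) (Submodule.span ℝ {q})
    have e2 := finrank_span_singleton (K := ℝ) hq0
    have e3 := hd v
    omega
  obtain ⟨x, hx, hxW⟩ := d3_out h1 h2 H1 s _ hW
  have hvx : v.1 ≠ x.1 := by rw [hv]; exact Ne.symm hx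
  exact hqn (d3_T3 (hd x) hxW (hcr x hx) (h2 v x hvx)
    (Submodule.mem_sup_right (Submodule.mem_span_singleton_self q))
    (Submodule.mem_sup_left (h1 v x hvx)) (h0 _ _) (h1 v x hvx))

theorem d3_case1 (hr : 1 ≤ r) (hd : ∀ v, finrank ℝ (L v) ≤ 2) (h0 : ∀ v w, u v w ≠ 0)
    (h1 : ∀ v w, v.1 ≠ w.1 → u v w ∈ L v) (h2 : ∀ v w, v.1 ≠ w.1 → u v w ∈ L w)
    (H1 : ∀ W : Submodule ℝ E4, finrank ℝ W ≤ 3 → ∃ v w, v.1 ≠ w.1 ∧ u v w ∉ W)
    (v₀ : Fin 3 × Fin r) (hv₀ : finrank ℝ (L v₀) ≤ 1) : ∃ q : E4, q ≠ 0 ∧ ∀ v, q ∈ L v := by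
  obtain ⟨k, hk⟩ := d3_other v₀.1
  have hqv : u v₀ (k, ⟨0, hr⟩) ∈ L v₀ := h1 _ _ (Ne.symm hk)
  exact ⟨_, h0 _ _, d3_ext hd h0 h1 h2 H1 v₀.1 (h0 _ _) fun w hw =>
    d3_T0 hv₀ hqv (h1 v₀ w (Ne.symm hw)) (h0 _ _) (h2 v₀ w (Ne.symm hw))⟩

/-- all pairs meet -/
theorem d3_case2b (hr : 1 ≤ r) (hd : ∀ v, finrank ℝ (L v) ≤ 2) (h0 : ∀ v w, u v w ≠ 0)
    (h1 : ∀ v w, v.1 ≠ w.1 → u v w ∈ L v) (h2 : ∀ v w, v.1 ≠ w.1 → u v w ∈ L w)
    (H1 : ∀ W : Submodule ℝ E4, finrank ℝ W ≤ 3 → ∃ v w, v.1 ≠ w.1 ∧ u v w ∉ W)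
    (hc2 : ∀ a a' : Fin 3 × Fin r, a'.1 = a.1 → L a ⊓ L a' ≠ ⊥) :
    ∃ q : E4, q ≠ 0 ∧ ∀ v, q ∈ L v := by
  have meet : ∀ v w : Fin 3 × Fin r, ∃ z : E4, z ≠ 0 ∧ z ∈ L v ∧ z ∈ L w := by
    intro v w
    by_cases hvw : v.1 = w.1
    · obtain ⟨z, hz, hz0⟩ := Submodule.exists_mem_ne_zero_of_ne_bot (hc2 v w hvw.symm)
      exact ⟨z, hz0, hz.1, hz.2⟩
    · exact ⟨u v w, h0 _ _, h1 _ _ hvw, h2 _ _ hvw⟩
  obtain ⟨b, -⟩ : ∃ b : Fin 3 × Fin r, True := ⟨(0, ⟨0, hr⟩), trivial⟩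
  obtain ⟨x, -, hxb⟩ := d3_out h1 h2 H1 0 (L b) ((hd b).trans (by norm_num))
  have hxb' : L x ≠ L b := fun h => hxb h.le
  obtain ⟨q, hq0, hqx, hqb⟩ := meet x b
  have hW3 := d3_sup (hd x) (hd b) hq0 hqx hqb
  obtain ⟨c, -, hcW⟩ := d3_out h1 h2 H1 0 _ hW3
  have fct : ∀ y, q ∈ L y ∨ L y ≤ L x ⊔ L b := by
    intro y
    obtain ⟨z, hz0, hz1, hz2⟩ := meet y x
    obtain ⟨z', hz0', hz1', hz2'⟩ := meet y b
    exact d3_fact (hd x) (hd b) (hd y) hxb' hqx hqb hz0 hz1 hz2 hz0' hz1' hz2'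
  have hqc : q ∈ L c := (fct c).resolve_right hcW
  refine ⟨q, hq0, fun v => ?_⟩
  rcases fct v with h | h
  · exact h
  · obtain ⟨z, hz0, hz1, hz2⟩ := meet c v
    exact d3_T3 (hd c) hcW hqc hz1 (Submodule.mem_sup_left hqx) (h hz2) hz0 hz2

/-- The tetrahedron. -/
theorem d3_tetra (hr : 1 ≤ r) (hd : ∀ v, finrank ℝ (L v) ≤ 2) (h0 : ∀ v w, u v w ≠ 0)
    (h1 : ∀ v w, v.1 ≠ w.1 → u v w ∈ L v) (h2 : ∀ v w, v.1 ≠ w.1 → u v w ∈ L w)
    (H1 : ∀ W : Submodule ℝ E4, finrank ℝ W ≤ 3 → ∃ v w, v.1 ≠ w.1 ∧ u v w ∉ W)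
    (HS : ∀ W : Submodule ℝ E4, finrank ℝ W ≤ 2 → ∀ t : Fin 3,
      ¬ ∀ v : Fin 3 × Fin r, v.1 = t → L v = W)
    (HB : ¬ ∃ q : E4, q ≠ 0 ∧ ∀ v, q ∈ L v) :
    ∃ (s t t' : Fin 3) (x₁ x₂ y₁ y₂ : E4), t ≠ s ∧ t' ≠ s ∧ t ≠ t' ∧
      (∃ v w, x₁ = u v w) ∧ (∃ v w, x₂ = u v w) ∧ (∃ v w, y₁ = u v w) ∧ (∃ v w, y₂ = u v w) ∧
      (⊤ : Submodule ℝ E4) ≤ (Submodule.span ℝ {x₁} ⊔ Submodule.span ℝ {x₂}) ⊔
        (Submodule.span ℝ {y₁} ⊔ Submodule.span ℝ {y₂}) ∧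
      (∀ v : Fin 3 × Fin r, v.1 = s → L v = Submodule.span ℝ {x₁} ⊔ Submodule.span ℝ {x₂} ∨
        L v = Submodule.span ℝ {y₁} ⊔ Submodule.span ℝ {y₂}) ∧
      (∀ v : Fin 3 × Fin r, v.1 = t → L v = Submodule.span ℝ {x₁} ⊔ Submodule.span ℝ {y₁} ∨
        L v = Submodule.span ℝ {x₂} ⊔ Submodule.span ℝ {y₂}) ∧
      (∀ v : Fin 3 × Fin r, v.1 = t' → L v = Submodule.span ℝ {x₁} ⊔ Submodule.span ℝ {y₂} ∨
        L v = Submodule.span ℝ {x₂} ⊔ Submodule.span ℝ {y₁}) := by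
  classical
  have hd2 : ∀ v, finrank ℝ (L v) = 2 := by
    intro v
    refine le_antisymm (hd v) ?_
    by_contra h
    exact HB (d3_case1 hr hd h0 h1 h2 H1 v (by omega))
  obtain ⟨a, a', haa, hdis⟩ : ∃ a a' : Fin 3 × Fin r, a'.1 = a.1 ∧ L a ⊓ L a' = ⊥ := by
    by_contra hc
    push Not at hc
    exact HB (d3_case2b hr hd h0 h1 h2 H1 hc)
  -- coordinates of the vertices of the other colours
  obtain ⟨X, hX⟩ : ∃ X : Fin 3 × Fin r → Submodule ℝ E4,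
      ∀ w, X w = Submodule.span ℝ {u a w} := ⟨_, fun _ => rfl⟩
  obtain ⟨Y, hY⟩ : ∃ Y : Fin 3 × Fin r → Submodule ℝ E4,
      ∀ w, Y w = Submodule.span ℝ {u a' w} := ⟨_, fun _ => rfl⟩
  have mX : ∀ w, u a w ∈ X w := fun w => by rw [hX]; exact Submodule.mem_span_singleton_self _
  have mY : ∀ w, u a' w ∈ Y w := fun w => by rw [hY]; exact Submodule.mem_span_singleton_self _
  have hXa : ∀ w : Fin 3 × Fin r, w.1 ≠ a.1 → X w ≤ L a := fun w hw => by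
    rw [hX, Submodule.span_singleton_le_iff_mem]
    exact h1 a w (Ne.symm hw)
  have hYa : ∀ w : Fin 3 × Fin r, w.1 ≠ a.1 → Y w ≤ L a' := fun w hw => by
    rw [hY, Submodule.span_singleton_le_iff_mem]
    exact h1 a' w (by rw [haa]; exact Ne.symm hw)
  have hXw : ∀ w : Fin 3 × Fin r, w.1 ≠ a.1 → X w ≤ L w := fun w hw => by
    rw [hX, Submodule.span_singleton_le_iff_mem]
    exact h2 a w (Ne.symm hw)
  have hYw : ∀ w : Fin 3 × Fin r, w.1 ≠ a.1 → Y w ≤ L w := fun w hw => by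
    rw [hY, Submodule.span_singleton_le_iff_mem]
    exact h2 a' w (by rw [haa]; exact Ne.symm hw)
  have hXY : ∀ w w' : Fin 3 × Fin r, w.1 ≠ a.1 → w'.1 ≠ a.1 → X w ≠ Y w' := by
    intro w w' hw hw' h
    have e1 : u a w ∈ L a ⊓ L a' := ⟨hXa w hw (mX w), hYa w' hw' (h ▸ mX w)⟩
    rw [hdis] at e1
    exact h0 _ _ ((Submodule.mem_bot ℝ).1 e1)
  have hLw : ∀ w : Fin 3 × Fin r, w.1 ≠ a.1 → L w = X w ⊔ Y w := fun w hw => by
    have := d3_two (hd w) (hXw w hw (mX w)) (hYw w hw (mY w)) (h0 a w)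
      (by rw [← hX, ← hY]; exact hXY w w hw hw) (h0 a' w)
    rw [← hX, ← hY] at this
    exact this
  have hLa : ∀ w w' : Fin 3 × Fin r, w.1 ≠ a.1 → w'.1 ≠ a.1 → X w ≠ X w' → L a = X w ⊔ X w' :=
    fun w w' hw hw' hne => by
      have := d3_two (hd a) (hXa w hw (mX w)) (hXa w' hw' (mX w')) (h0 a w)
        (by rw [← hX, ← hX]; exact hne) (h0 a w')
      rw [← hX, ← hX] at this
      exact this
  have hLa' : ∀ w w' : Fin 3 × Fin r, w.1 ≠ a.1 → w'.1 ≠ a.1 → Y w ≠ Y w' → L a' = Y w ⊔ Y w' :=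
    fun w w' hw hw' hne => by
      have := d3_two (hd a') (hYa w hw (mY w)) (hYa w' hw' (mY w')) (h0 a' w)
        (by rw [← hY, ← hY]; exact hne) (h0 a' w')
      rw [← hY, ← hY] at this
      exact this
  have h4 : finrank ℝ ↥(L a ⊔ L a') = 4 := by
    have e3 := Submodule.finrank_sup_add_finrank_inf_eq (L a) (L a')
    rw [hdis, finrank_bot, hd2, hd2] at e3
    omega
  have htop : L a ⊔ L a' = ⊤ := by
    apply Submodule.eq_top_of_finrank_eq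
    rw [h4, finrank_euclideanSpace, Fintype.card_fin]
  -- cross vertices share a coordinate
  have share : ∀ w w' : Fin 3 × Fin r, w.1 ≠ a.1 → w'.1 ≠ a.1 → w.1 ≠ w'.1 →
      X w = X w' ∨ Y w = Y w' := by
    intro w w' hw hw' hww
    by_contra hcon
    push Not at hcon
    have e1 : L a ≤ L w ⊔ L w' := by
      rw [hLa w w' hw hw' hcon.1]
      exact sup_le_sup (hXw w hw) (hXw w' hw')
    have e2 : L a' ≤ L w ⊔ L w' := by
      rw [hLa' w w' hw hw' hcon.2]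
      exact sup_le_sup (hYw w hw) (hYw w' hw')
    have e4 : finrank ℝ ↥(L a ⊔ L a') ≤ finrank ℝ ↥(L w ⊔ L w') :=
      Submodule.finrank_mono (sup_le e1 e2)
    have e5 := d3_sup (hd w) (hd w') (h0 w w') (h1 _ _ hww) (h2 _ _ hww)
    omega
  -- no colour is constant
  have ns : ∀ t : Fin 3, t ≠ a.1 → ∀ w : Fin 3 × Fin r, w.1 = t →
      ∃ w' : Fin 3 × Fin r, w'.1 = t ∧ (X w' ≠ X w ∨ Y w' ≠ Y w) := by
    intro t ht w hw
    by_contra hcon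
    push Not at hcon
    refine HS (L w) (hd w) t fun v hv => ?_
    rw [hLw v (by rw [hv]; exact ht), hLw w (by rw [hw]; exact ht), (hcon v hv).1, (hcon v hv).2]
  by_cases hA : ∃ w₁ w₂ : Fin 3 × Fin r, w₁.1 ≠ a.1 ∧ w₂.1 = w₁.1 ∧ X w₁ ≠ X w₂ ∧ Y w₁ ≠ Y w₂
  · obtain ⟨w₁, w₂, hw₁, hw21, hXne, hYne⟩ := hA
    have hw₂ : w₂.1 ≠ a.1 := by rw [hw21]; exact hw₁
    obtain ⟨t', ht'a, ht'w⟩ := d3_third a.1 w₁.1 (Ne.symm hw₁)
    -- the other colour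
    have ho : ∀ w : Fin 3 × Fin r, w.1 = t' → (X w = X w₁ ∧ Y w = Y w₂) ∨ (X w = X w₂ ∧ Y w = Y w₁) := by
      intro w hw
      have hwa : w.1 ≠ a.1 := by rw [hw]; exact ht'a
      rcases share w w₁ hwa hw₁ (by rw [hw]; exact ht'w) with e1 | e1
      · rcases share w w₂ hwa hw₂ (by rw [hw, hw21]; exact ht'w) with e2 | e2
        · exact absurd (e1.symm.trans e2) hXne
        · exact Or.inl ⟨e1, e2⟩
      · rcases share w w₂ hwa hw₂ (by rw [hw, hw21]; exact ht'w) with e2 | e2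
        · exact Or.inr ⟨e2, e1⟩
        · exact absurd (e1.symm.trans e2) hYne
    obtain ⟨z₁, z₂, hz₁, hz₂, hz1X, hz1Y, hz2X, hz2Y⟩ : ∃ z₁ z₂ : Fin 3 × Fin r, z₁.1 = t' ∧ z₂.1 = t' ∧
        X z₁ = X w₁ ∧ Y z₁ = Y w₂ ∧ X z₂ = X w₂ ∧ Y z₂ = Y w₁ := by
      obtain ⟨z, hz⟩ : ∃ z : Fin 3 × Fin r, z.1 = t' := ⟨(t', ⟨0, hr⟩), rfl⟩
      obtain ⟨z', hz', hne⟩ := ns t' ht'a z hz
      rcases ho z hz with ⟨e1, e2⟩ | ⟨e1, e2⟩ <;> rcases ho z' hz' with ⟨f1, f2⟩ | ⟨f1, f2⟩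
      · exfalso
        rcases hne with h | h
        · exact h (f1.trans e1.symm)
        · exact h (f2.trans e2.symm)
      · exact ⟨z, z', hz, hz', e1, e2, f1, f2⟩
      · exact ⟨z', z, hz', hz, f1, f2, e1, e2⟩
      · exfalso
        rcases hne with h | h
        · exact h (f1.trans e1.symm)
        · exact h (f2.trans e2.symm)
    have hz1a : z₁.1 ≠ a.1 := by rw [hz₁]; exact ht'a
    have hz2a : z₂.1 ≠ a.1 := by rw [hz₂]; exact ht'a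
    have ht : ∀ w : Fin 3 × Fin r, w.1 = w₁.1 →
        (X w = X w₁ ∧ Y w = Y w₁) ∨ (X w = X w₂ ∧ Y w = Y w₂) := by
      intro w hw
      have hwa : w.1 ≠ a.1 := by rw [hw]; exact hw₁
      rcases share w z₁ hwa hz1a (by rw [hw, hz₁]; exact Ne.symm ht'w) with e1 | e1
      · rcases share w z₂ hwa hz2a (by rw [hw, hz₂]; exact Ne.symm ht'w) with e2 | e2
        · exact absurd ((hz1X.symm.trans e1.symm).trans (e2.trans hz2X)) hXne
        · exact Or.inl ⟨e1.trans hz1X, e2.trans hz2Y⟩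
      · rcases share w z₂ hwa hz2a (by rw [hw, hz₂]; exact Ne.symm ht'w) with e2 | e2
        · exact Or.inr ⟨e2.trans hz2X, e1.trans hz1Y⟩
        · exact absurd ((hz2Y.symm.trans e2.symm).trans (e1.trans hz1Y)) hYne
    have ea : L a = X w₁ ⊔ X w₂ := hLa w₁ w₂ hw₁ hw₂ hXne
    have ea' : L a' = Y w₁ ⊔ Y w₂ := hLa' w₁ w₂ hw₁ hw₂ hYne
    have hz1L : L z₁ = X w₁ ⊔ Y w₂ := by rw [hLw z₁ hz1a, hz1X, hz1Y]
    have hz2L : L z₂ = X w₂ ⊔ Y w₁ := by rw [hLw z₂ hz2a, hz2X, hz2Y]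
    have hsp : ∀ v : Fin 3 × Fin r, v.1 = a.1 → L v = X w₁ ⊔ X w₂ ∨ L v = Y w₁ ⊔ Y w₂ := by
      intro v hv
      have hvw₁ : v.1 ≠ w₁.1 := by rw [hv]; exact Ne.symm hw₁
      have hvw₂ : v.1 ≠ w₂.1 := by rw [hv]; exact Ne.symm hw₂
      have hvz₁ : v.1 ≠ z₁.1 := by rw [hv]; exact Ne.symm hz1a
      have hvz₂ : v.1 ≠ z₂.1 := by rw [hv]; exact Ne.symm hz2a
      have n1 : L w₁ ≠ L z₁ := by
        intro h
        -- both `Y w₁` and `Y w₂` in `L w₁`, so `L w₁ = L a'` contains `X w₁`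
        have e1 : L a' ≤ L w₁ := by
          rw [ea']
          refine sup_le (hYw w₁ hw₁) ?_
          rw [h, hz1L]
          exact le_sup_right
        have e2 : L a' = L w₁ := Submodule.eq_of_le_of_finrank_le e1 (by rw [hd2, hd2])
        have e3 : u a w₁ ∈ L a ⊓ L a' := ⟨hXa w₁ hw₁ (mX w₁), e2 ▸ hXw w₁ hw₁ (mX w₁)⟩
        rw [hdis] at e3
        exact h0 _ _ ((Submodule.mem_bot ℝ).1 e3)
      have n2 : L w₂ ≠ L z₂ := by
        intro h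
        have e1 : L a' ≤ L w₂ := by
          rw [ea']
          refine sup_le ?_ (hYw w₂ hw₂)
          rw [h, hz2L]
          exact le_sup_right
        have e2 : L a' = L w₂ := Submodule.eq_of_le_of_finrank_le e1 (by rw [hd2, hd2])
        have e3 : u a w₂ ∈ L a ⊓ L a' := ⟨hXa w₂ hw₂ (mX w₂), e2 ▸ hXw w₂ hw₂ (mX w₂)⟩
        rw [hdis] at e3
        exact h0 _ _ ((Submodule.mem_bot ℝ).1 e3)
      have q1 : u a w₁ ∈ L z₁ := by rw [hz1L]; exact Submodule.mem_sup_left (mX w₁)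
      have q2 : u a w₂ ∈ L z₂ := by rw [hz2L]; exact Submodule.mem_sup_left (mX w₂)
      have F1 := d3_fact (hd w₁) (hd z₁) (hd v) n1 (hXw w₁ hw₁ (mX w₁)) q1 (h0 v w₁)
        (h1 v w₁ hvw₁) (h2 v w₁ hvw₁) (h0 v z₁) (h1 v z₁ hvz₁) (h2 v z₁ hvz₁)
      have F2 := d3_fact (hd w₂) (hd z₂) (hd v) n2 (hXw w₂ hw₂ (mX w₂)) q2 (h0 v w₂)
        (h1 v w₂ hvw₂) (h2 v w₂ hvw₂) (h0 v z₂) (h1 v z₂ hvz₂) (h2 v z₂ hvz₂)
      -- the two hyperplanes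
      have W1 : finrank ℝ ↥(L w₁ ⊔ L z₁) ≤ 3 :=
        d3_sup (hd w₁) (hd z₁) (h0 a w₁) (hXw w₁ hw₁ (mX w₁)) q1
      have W2 : finrank ℝ ↥(L w₂ ⊔ L z₂) ≤ 3 :=
        d3_sup (hd w₂) (hd z₂) (h0 a w₂) (hXw w₂ hw₂ (mX w₂)) q2
      have A1 : L a' ≤ L w₁ ⊔ L z₁ := by
        rw [ea', hz1L]
        exact sup_le ((hYw w₁ hw₁).trans le_sup_left) (le_sup_right.trans le_sup_right)
      have A2 : L a' ≤ L w₂ ⊔ L z₂ := by
        rw [ea', hz2L]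
        exact sup_le (le_sup_right.trans le_sup_right) ((hYw w₂ hw₂).trans le_sup_left)
      have N1 : ¬ X w₂ ≤ L w₁ ⊔ L z₁ := by
        intro h
        have e1 : L a ⊔ L a' ≤ L w₁ ⊔ L z₁ := by
          refine sup_le ?_ A1
          rw [ea]
          exact sup_le ((hXw w₁ hw₁).trans le_sup_left) h
        have := Submodule.finrank_mono e1
        omega
      have N2 : ¬ X w₁ ≤ L w₂ ⊔ L z₂ := by
        intro h
        have e1 : L a ⊔ L a' ≤ L w₂ ⊔ L z₂ := by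
          refine sup_le ?_ A2
          rw [ea]
          exact sup_le h ((hXw w₂ hw₂).trans le_sup_left)
        have := Submodule.finrank_mono e1
        omega
      have Yv : u a' w₁ ∈ L v → u a' w₂ ∈ L v → L v = Y w₁ ⊔ Y w₂ := by
        intro e1 e2
        have := d3_two (hd v) e1 e2 (h0 a' w₁) (by rw [← hY, ← hY]; exact hYne) (h0 a' w₂)
        rw [← hY, ← hY] at this
        exact this
      by_cases b1 : u a w₁ ∈ L v
      · by_cases b2 : u a w₂ ∈ L v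
        · left
          have := d3_two (hd v) b1 b2 (h0 a w₁) (by rw [← hX, ← hX]; exact hXne) (h0 a w₂)
          rw [← hX, ← hX] at this
          exact this
        · right
          have hle := F2.resolve_left b2
          refine Yv ?_ ?_
          · -- `L w₁` is not in the hyperplane
            refine d3_T3 (hd w₁) (fun h => N2 ((hXw w₁ hw₁).trans h)) (hYw w₁ hw₁ (mY w₁))
              (h2 v w₁ hvw₁) (A2 (ea' ▸ Submodule.mem_sup_left (mY w₁)))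
              (hle (h1 v w₁ hvw₁)) (h0 _ _) (h1 v w₁ hvw₁)
          · refine d3_T3 (hd z₁) (fun h => N2 ((hz1L ▸ le_sup_left : X w₁ ≤ L z₁).trans h))
              (hz1L ▸ Submodule.mem_sup_right (mY w₂)) (h2 v z₁ hvz₁)
              (A2 (ea' ▸ Submodule.mem_sup_right (mY w₂))) (hle (h1 v z₁ hvz₁)) (h0 _ _)
              (h1 v z₁ hvz₁)
      · right
        have hle := F1.resolve_left b1
        refine Yv ?_ ?_
        · refine d3_T3 (hd z₂) (fun h => N1 ((hz2L ▸ le_sup_left : X w₂ ≤ L z₂).trans h))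
            (hz2L ▸ Submodule.mem_sup_right (mY w₁)) (h2 v z₂ hvz₂)
            (A1 (ea' ▸ Submodule.mem_sup_left (mY w₁))) (hle (h1 v z₂ hvz₂)) (h0 _ _)
            (h1 v z₂ hvz₂)
        · refine d3_T3 (hd w₂) (fun h => N1 ((hXw w₂ hw₂).trans h)) (hYw w₂ hw₂ (mY w₂))
            (h2 v w₂ hvw₂) (A1 (ea' ▸ Submodule.mem_sup_right (mY w₂)))
            (hle (h1 v w₂ hvw₂)) (h0 _ _) (h1 v w₂ hvw₂)
    refine ⟨a.1, w₁.1, t', u a w₁, u a w₂, u a' w₁, u a' w₂, hw₁, ht'a, Ne.symm ht'w,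
      ⟨_, _, rfl⟩, ⟨_, _, rfl⟩, ⟨_, _, rfl⟩, ⟨_, _, rfl⟩, ?_, ?_, ?_, ?_⟩
    · rw [← hX, ← hX, ← hY, ← hY, ← ea, ← ea', htop]
    · intro v hv
      rw [← hX, ← hX, ← hY, ← hY]
      exact hsp v hv
    · intro v hv
      rw [← hX, ← hX, ← hY, ← hY, hLw v (by rw [hv]; exact hw₁)]
      rcases ht v hv with ⟨e1, e2⟩ | ⟨e1, e2⟩
      · left; rw [e1, e2]
      · right; rw [e1, e2]
    · intro v hv
      rw [← hX, ← hX, ← hY, ← hY, hLw v (by rw [hv]; exact ht'a)]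
      rcases ho v hv with ⟨e1, e2⟩ | ⟨e1, e2⟩
      · left; rw [e1, e2]
      · right; rw [e1, e2]
  · exfalso
    have hA' : ∀ w₁ w₂ : Fin 3 × Fin r, w₁.1 ≠ a.1 → w₂.1 ≠ a.1 → X w₁ = X w₂ ∨ Y w₁ = Y w₂ := by
      intro w₁ w₂ e1 e2
      by_cases h : w₁.1 = w₂.1
      · by_contra hcon
        push Not at hcon
        exact hA ⟨w₁, w₂, e1, h.symm, hcon.1, hcon.2⟩
      · exact share w₁ w₂ e1 e2 h
    obtain ⟨t, ht⟩ := d3_other a.1
    obtain ⟨w, hw⟩ : ∃ w : Fin 3 × Fin r, w.1 = t := ⟨(t, ⟨0, hr⟩), rfl⟩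
    obtain ⟨w', hw', hne⟩ := ns t ht w hw
    have hwa : w.1 ≠ a.1 := by rw [hw]; exact ht
    have hwa' : w'.1 ≠ a.1 := by rw [hw']; exact ht
    rcases hne with hne | hne
    · -- all share `Y w`
      have hYY : Y w' = Y w := (hA' w' w hwa' hwa).resolve_left hne
      apply HB
      refine ⟨u a' w, h0 _ _, d3_ext hd h0 h1 h2 H1 a.1 (h0 _ _) fun z hz => ?_⟩
      have e : Y z = Y w := by
        rcases hA' z w hz hwa with e1 | e1
        · rcases hA' z w' hz hwa' with e2 | e2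
          · exact absurd (e2.symm.trans e1) hne
          · exact e2.trans hYY
        · exact e1
      exact hYw z hz (e ▸ mY w)
    · have hXX : X w' = X w := (hA' w' w hwa' hwa).resolve_right hne
      apply HB
      refine ⟨u a w, h0 _ _, d3_ext hd h0 h1 h2 H1 a.1 (h0 _ _) fun z hz => ?_⟩
      have e : X z = X w := by
        rcases hA' z w hz hwa with e1 | e1
        · exact e1
        · rcases hA' z w' hz hwa' with e2 | e2
          · exact e2.trans hXX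
          · exact absurd (e2.symm.trans e1) hne
      exact hXw z hz (e ▸ mX w)

end common

end

end Pool.Agent.LP3.H61
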