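import Pool.Agent.LP3.Defs
import Pool.Agent.LP3.H61Core

/-!
# Row D3a: a nearly isotropic three-coloured array all of whose rows have rank at most two is the
tetrahedron
-/

namespace Pool.Agent.LP3.H61

open Pool.Agent.LPI Module
open scoped BigOperators

noncomputable section

theorem chi_false : ∀ (c : Fin 3) (j : Fin 4), chi c j = false ↔ j = 0 ∨ j = c.succ := by decide

theorem chi_true : ∀ (s t t' : Fin 3) (j : Fin 4), t ≠ s → t' ≠ s → t ≠ t' →
    (chi s j = true ↔ j = t.succ ∨ j = t'.succ) := by decide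

theorem chi_other : ∀ (c c' : Fin 3) (j : Fin 4), c ≠ c' →
    ∃ i, chi c i = chi c j ∧ chi c' i ≠ chi c' j := by decide

/-! ### Counting -/

theorem d3_col (r : ℕ) (c : Fin 3 → Fin 3 → ℝ) :
    (∑ v : Fin 3 × Fin r, ∑ w : Fin 3 × Fin r, c v.1 w.1) = (r : ℝ) ^ 2 * ∑ i, ∑ j, c i j := by
  simp only [Fintype.sum_prod_type, Finset.sum_const, Finset.card_univ, Fintype.card_fin,
    nsmul_eq_mul]
  rw [Finset.mul_sum]
  refine Finset.sum_congr rfl fun i _ => ?_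
  rw [← Finset.mul_sum, ← mul_assoc, sq]

theorem d3_tot (r : ℕ) :
    (∑ v : Fin 3 × Fin r, ∑ w : Fin 3 × Fin r, if v.1 = w.1 then (0 : ℝ) else 1) = 6 * r ^ 2 := by
  rw [d3_col r (fun i j => if i = j then (0 : ℝ) else 1)]
  simp [Fin.sum_univ_three]
  ring

theorem d3_col1 (r : ℕ) (c : Fin 3 → ℝ) :
    (∑ w : Fin 3 × Fin r, c w.1) = (r : ℝ) * ∑ i, c i := by
  simp only [Fintype.sum_prod_type, Finset.sum_const, Finset.card_univ, Fintype.card_fin,
    nsmul_eq_mul]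
  rw [← Finset.mul_sum]

theorem d3_row (r : ℕ) (v : Fin 3 × Fin r) :
    (∑ w : Fin 3 × Fin r, if v.1 = w.1 then (0 : ℝ) else 1) = 2 * r := by
  rw [d3_col1 r (fun j => if v.1 = j then (0 : ℝ) else 1), mul_comm]
  congr 1
  generalize v.1 = i
  fin_cases i <;> simp [Fin.sum_univ_three] <;> norm_num

theorem d3_one' : ∀ t : Fin 3,
    (∑ i : Fin 3, ∑ j : Fin 3, if i ≠ j ∧ i ≠ t ∧ j ≠ t then 1 else 0) = 2 := by decide

theorem d3_one (r : ℕ) (t : Fin 3) :
    (∑ v : Fin 3 × Fin r, ∑ w : Fin 3 × Fin r,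
      if v.1 ≠ w.1 ∧ v.1 ≠ t ∧ w.1 ≠ t then (1 : ℝ) else 0) = 2 * r ^ 2 := by
  rw [d3_col r (fun i j => if i ≠ j ∧ i ≠ t ∧ j ≠ t then (1 : ℝ) else 0), mul_comm]
  congr 1
  have := congrArg (Nat.cast (R := ℝ)) (d3_one' t)
  push_cast at this
  convert this using 6

theorem d3_N {r : ℕ} {u : Fin 3 × Fin r → Fin 3 × Fin r → E4} (hu : Iso3 r u)
    (W : Submodule ℝ E4) [∀ v w, Decidable (v.1 ≠ w.1 ∧ u v w ∈ W)] :
    (∑ v, ∑ w, if v.1 ≠ w.1 ∧ u v w ∈ W then (1 : ℝ) else 0) ≤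
      156 / 100 * (finrank ℝ W : ℝ) * r ^ 2 := by
  have iso : ∀ ν : E4, ‖ν‖ = 1 →
      (∑ v, ∑ w, if v.1 = w.1 then (0 : ℝ) else (inner ℝ ν (u v w)) ^ 2) ≤
        156 / 100 * (r : ℝ) ^ 2 := by
    intro ν hν
    have := (abs_le.1 (hu.2.2 ν hν)).2
    linarith
  obtain ⟨e, he1, he⟩ : ∃ e : Fin (finrank ℝ W) → E4, (∀ i, ‖e i‖ = 1) ∧
      ∀ z ∈ W, ∑ i, (inner ℝ (e i) z) ^ 2 = ‖z‖ ^ 2 := by
    let b := stdOrthonormalBasis ℝ W
    refine ⟨fun i => (b i : E4), fun i => ?_, fun z hz => ?_⟩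
    · have := b.norm_eq_one i
      exact this
    · have := b.sum_sq_norm_inner_right ⟨z, hz⟩
      rw [Submodule.coe_norm] at this
      rw [← this]
      refine Finset.sum_congr rfl fun i _ => ?_
      rw [Real.norm_eq_abs, sq_abs]
      rfl
  calc (∑ v, ∑ w, if v.1 ≠ w.1 ∧ u v w ∈ W then (1 : ℝ) else 0)
      ≤ ∑ v, ∑ w, ∑ i, if v.1 = w.1 then (0 : ℝ) else (inner ℝ (e i) (u v w)) ^ 2 := by
        refine Finset.sum_le_sum fun v _ => Finset.sum_le_sum fun w _ => ?_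
        by_cases hvw : v.1 = w.1
        · rw [if_neg (fun h => h.1 hvw)]
          exact Finset.sum_nonneg fun i _ => by rw [if_pos hvw]
        · simp only [if_neg hvw]
          split_ifs with h
          · rw [he _ h.2, hu.1, one_pow]
          · exact Finset.sum_nonneg fun i _ => sq_nonneg _
    _ = ∑ i, ∑ v, ∑ w, if v.1 = w.1 then (0 : ℝ) else (inner ℝ (e i) (u v w)) ^ 2 := by
        rw [Finset.sum_comm]
        rw [Finset.sum_congr rfl fun v _ => Finset.sum_comm]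
        rw [Finset.sum_comm]
        rw [Finset.sum_congr rfl fun v _ => Finset.sum_comm]
    _ ≤ ∑ _i : Fin (finrank ℝ W), 156 / 100 * (r : ℝ) ^ 2 :=
        Finset.sum_le_sum fun i _ => iso _ (he1 i)
    _ = 156 / 100 * (finrank ℝ W : ℝ) * r ^ 2 := by
        rw [Finset.sum_const, Finset.card_univ, Fintype.card_fin, nsmul_eq_mul]
        ring

section

variable {r : ℕ} {u : Fin 3 × Fin r → Fin 3 × Fin r → E4} {L : Fin 3 × Fin r → Submodule ℝ E4}

/-- the hypotheses of the linear algebra part -/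
theorem d3_hyps (hr : 1 ≤ r) (hu : Iso3 r u) (hd : ∀ v, finrank ℝ (L v) ≤ 2)
    (h1 : ∀ v w, v.1 ≠ w.1 → u v w ∈ L v) (h2 : ∀ v w, v.1 ≠ w.1 → u v w ∈ L w) :
    (∀ W : Submodule ℝ E4, finrank ℝ W ≤ 3 → ∃ v w, v.1 ≠ w.1 ∧ u v w ∉ W) ∧
    (∀ W : Submodule ℝ E4, finrank ℝ W ≤ 2 → ∀ t : Fin 3,
      ¬ ∀ v : Fin 3 × Fin r, v.1 = t → L v = W) ∧
    ¬ ∃ q : E4, q ≠ 0 ∧ ∀ v, q ∈ L v := by
  classical
  have hr1 : (1 : ℝ) ≤ r := by exact_mod_cast hr
  have hr0 : (0 : ℝ) < (r : ℝ) ^ 2 := by positivity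
  refine ⟨?_, ?_, ?_⟩
  · intro W hW
    by_contra hall
    push Not at hall
    have e1 := d3_N hu W
    have e2 : (∑ v : Fin 3 × Fin r, ∑ w : Fin 3 × Fin r, if v.1 = w.1 then (0 : ℝ) else 1) ≤
        ∑ v, ∑ w, if v.1 ≠ w.1 ∧ u v w ∈ W then (1 : ℝ) else 0 := by
      refine Finset.sum_le_sum fun v _ => Finset.sum_le_sum fun w _ => ?_
      by_cases hvw : v.1 = w.1
      · rw [if_pos hvw]
        split_ifs <;> norm_num
      · rw [if_neg hvw, if_pos ⟨hvw, hall v w hvw⟩]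
    rw [d3_tot] at e2
    have e3 : (finrank ℝ W : ℝ) ≤ 3 := by exact_mod_cast hW
    have e4 : (finrank ℝ W : ℝ) * (r : ℝ) ^ 2 ≤ 3 * (r : ℝ) ^ 2 :=
      mul_le_mul_of_nonneg_right e3 hr0.le
    nlinarith
  · intro W hW t hall
    have e1 := d3_N hu W
    have e2 : (∑ v : Fin 3 × Fin r, ∑ w : Fin 3 × Fin r, if v.1 = w.1 then (0 : ℝ) else 1) ≤
        (∑ v, ∑ w, if v.1 ≠ w.1 ∧ u v w ∈ W then (1 : ℝ) else 0) +
        ∑ v : Fin 3 × Fin r, ∑ w : Fin 3 × Fin r,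
          if v.1 ≠ w.1 ∧ v.1 ≠ t ∧ w.1 ≠ t then (1 : ℝ) else 0 := by
      rw [← Finset.sum_add_distrib]
      refine Finset.sum_le_sum fun v _ => ?_
      rw [← Finset.sum_add_distrib]
      refine Finset.sum_le_sum fun w _ => ?_
      by_cases hvw : v.1 = w.1
      · rw [if_pos hvw]
        split_ifs <;> norm_num
      · rw [if_neg hvw]
        by_cases hv : v.1 = t
        · rw [if_pos ⟨hvw, by rw [← hall v hv]; exact h1 v w hvw⟩]
          split_ifs <;> norm_num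
        · by_cases hw : w.1 = t
          · rw [if_pos ⟨hvw, by rw [← hall w hw]; exact h2 v w hvw⟩]
            split_ifs <;> norm_num
          · rw [if_pos (⟨hvw, hv, hw⟩ : v.1 ≠ w.1 ∧ v.1 ≠ t ∧ w.1 ≠ t)]
            split_ifs <;> norm_num
    rw [d3_tot, d3_one] at e2
    have e3 : (finrank ℝ W : ℝ) ≤ 2 := by exact_mod_cast hW
    have e4 : (finrank ℝ W : ℝ) * (r : ℝ) ^ 2 ≤ 2 * (r : ℝ) ^ 2 :=
      mul_le_mul_of_nonneg_right e3 hr0.le
    nlinarith
  · rintro ⟨q, hq0, hq⟩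
    have hqu : ∀ v w, v.1 ≠ w.1 → L v ≠ L w → u v w ∈ Submodule.span ℝ {q} := by
      intro v w hvw hne
      have hqs : q ∈ Submodule.span ℝ {q} := Submodule.mem_span_singleton_self q
      by_cases h12 : L v ≤ L w
      · have h21 : ¬ L w ≤ L v := fun h => hne (le_antisymm h12 h)
        exact d3_T3 (hd w) h21 (h2 v w hvw) (hq w) (h1 v w hvw) (hq v) hq0 hqs
      · exact d3_T3 (hd v) h12 (h1 v w hvw) (hq v) (h2 v w hvw) (hq w) hq0 hqs
    -- pigeonhole
    obtain ⟨v₀, hv₀⟩ : ∃ v₀ : Fin 3 × Fin r,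
        (∑ w : Fin 3 × Fin r, if v₀.1 ≠ w.1 ∧ L v₀ ≠ L w then (1 : ℝ) else 0) ≤
          52 / 100 * (r : ℝ) := by
      by_contra hlt
      push Not at hlt
      have e1 : ∑ _v : Fin 3 × Fin r, 52 / 100 * (r : ℝ) < ∑ v : Fin 3 × Fin r,
          ∑ w : Fin 3 × Fin r, if v.1 ≠ w.1 ∧ L v ≠ L w then (1 : ℝ) else 0 :=
        Finset.sum_lt_sum_of_nonempty ⟨((0 : Fin 3), ⟨0, hr⟩), Finset.mem_univ _⟩ fun v _ => hlt v
      rw [Finset.sum_const, Finset.card_univ, Fintype.card_prod, Fintype.card_fin, Fintype.card_fin,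
        nsmul_eq_mul] at e1
      have e2 : (∑ v : Fin 3 × Fin r, ∑ w : Fin 3 × Fin r,
          if v.1 ≠ w.1 ∧ L v ≠ L w then (1 : ℝ) else 0) ≤
          ∑ v, ∑ w, if v.1 ≠ w.1 ∧ u v w ∈ Submodule.span ℝ {q} then (1 : ℝ) else 0 := by
        refine Finset.sum_le_sum fun v _ => Finset.sum_le_sum fun w _ => ?_
        by_cases h : v.1 ≠ w.1 ∧ L v ≠ L w
        · rw [if_pos h, if_pos ⟨h.1, hqu v w h.1 h.2⟩]
        · rw [if_neg h]
          split_ifs <;> norm_num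
      have e3 := d3_N hu (Submodule.span ℝ {q})
      rw [finrank_span_singleton hq0] at e3
      push_cast at e1 e3
      nlinarith
    have e1 := d3_N hu (L v₀)
    have e2 : (∑ v : Fin 3 × Fin r, ∑ w : Fin 3 × Fin r, if v.1 = w.1 then (0 : ℝ) else 1) ≤
        (∑ v, ∑ w, if v.1 ≠ w.1 ∧ u v w ∈ L v₀ then (1 : ℝ) else 0) +
        ((∑ v : Fin 3 × Fin r, ∑ w : Fin 3 × Fin r,
          (if v₀.1 ≠ v.1 ∧ L v₀ ≠ L v then (1 : ℝ) else 0) * (if v.1 = w.1 then (0 : ℝ) else 1)) +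
        ∑ v : Fin 3 × Fin r, ∑ w : Fin 3 × Fin r,
          (if v₀.1 ≠ w.1 ∧ L v₀ ≠ L w then (1 : ℝ) else 0) * (if w.1 = v.1 then (0 : ℝ) else 1)) := by
      rw [← Finset.sum_add_distrib, ← Finset.sum_add_distrib]
      refine Finset.sum_le_sum fun v _ => ?_
      rw [← Finset.sum_add_distrib, ← Finset.sum_add_distrib]
      refine Finset.sum_le_sum fun w _ => ?_
      have p1 : (0 : ℝ) ≤ if v.1 ≠ w.1 ∧ u v w ∈ L v₀ then (1 : ℝ) else 0 := by
        split_ifs <;> norm_num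
      have p2 : (0 : ℝ) ≤ if v₀.1 ≠ v.1 ∧ L v₀ ≠ L v then (1 : ℝ) else 0 := by
        split_ifs <;> norm_num
      have p3 : (0 : ℝ) ≤ if v₀.1 ≠ w.1 ∧ L v₀ ≠ L w then (1 : ℝ) else 0 := by
        split_ifs <;> norm_num
      by_cases hvw : v.1 = w.1
      · rw [if_pos hvw, if_pos hvw.symm]
        linarith
      · rw [if_neg hvw, if_neg (Ne.symm hvw), mul_one, mul_one]
        by_cases hm : u v w ∈ L v₀
        · rw [if_pos (⟨hvw, hm⟩ : v.1 ≠ w.1 ∧ u v w ∈ L v₀)]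
          linarith
        · have n1 : L v₀ ≠ L v := fun h => hm (h ▸ h1 v w hvw)
          have n2 : L v₀ ≠ L w := fun h => hm (h ▸ h2 v w hvw)
          by_cases hc : v₀.1 = v.1
          · have hc' : v₀.1 ≠ w.1 := fun h => hvw (hc.symm.trans h)
            rw [if_pos (⟨hc', n2⟩ : v₀.1 ≠ w.1 ∧ L v₀ ≠ L w)]
            linarith
          · rw [if_pos (⟨hc, n1⟩ : v₀.1 ≠ v.1 ∧ L v₀ ≠ L v)]
            linarith
    have e3 : (∑ v : Fin 3 × Fin r, ∑ w : Fin 3 × Fin r,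
        (if v₀.1 ≠ v.1 ∧ L v₀ ≠ L v then (1 : ℝ) else 0) * (if v.1 = w.1 then (0 : ℝ) else 1)) =
        (∑ w : Fin 3 × Fin r, if v₀.1 ≠ w.1 ∧ L v₀ ≠ L w then (1 : ℝ) else 0) * (2 * r) := by
      rw [Finset.sum_mul]
      refine Finset.sum_congr rfl fun v _ => ?_
      rw [← Finset.mul_sum, d3_row]
    have e4 : (∑ v : Fin 3 × Fin r, ∑ w : Fin 3 × Fin r,
        (if v₀.1 ≠ w.1 ∧ L v₀ ≠ L w then (1 : ℝ) else 0) * (if w.1 = v.1 then (0 : ℝ) else 1)) =
        (∑ w : Fin 3 × Fin r, if v₀.1 ≠ w.1 ∧ L v₀ ≠ L w then (1 : ℝ) else 0) * (2 * r) := by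
      rw [Finset.sum_comm]
      exact e3
    rw [d3_tot, e3, e4] at e2
    have e5 : (finrank ℝ (L v₀) : ℝ) ≤ 2 := by exact_mod_cast hd v₀
    have e6 : (finrank ℝ (L v₀) : ℝ) * (r : ℝ) ^ 2 ≤ 2 * (r : ℝ) ^ 2 :=
      mul_le_mul_of_nonneg_right e5 hr0.le
    have e7 : (∑ w : Fin 3 × Fin r, if v₀.1 ≠ w.1 ∧ L v₀ ≠ L w then (1 : ℝ) else 0) * (2 * r) ≤
        52 / 100 * (r : ℝ) * (2 * r) := mul_le_mul_of_nonneg_right hv₀ (by positivity)
    nlinarith

end

theorem span_two (e : Fin 4 → E4) (i j : Fin 4) :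
    Submodule.span ℝ (e '' {k | k = i ∨ k = j}) = Submodule.span ℝ {e i} ⊔ Submodule.span ℝ {e j} := by
  have : {k : Fin 4 | k = i ∨ k = j} = {i, j} := by
    ext k
    simp
  rw [this, Set.image_pair, Submodule.span_insert]

/-- [D3a] classification. -/
theorem classify (r : ℕ) (hr : 1 ≤ r) (u : Fin 3 × Fin r → Fin 3 × Fin r → E4) (hu : Iso3 r u)
    (hf : ∀ v, Flat u v) :
    ∃ (e : Fin 4 → E4) (κ : Fin 3 × Fin r → Bool), Tet u e κ ∧ ∀ s b, ∃ a, κ (s, a) = b := by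
  classical
  obtain ⟨L, hL⟩ : ∃ L : Fin 3 × Fin r → Submodule ℝ E4,
      ∀ v, L v = Submodule.span ℝ (u v '' {w | v.1 ≠ w.1}) := ⟨_, fun _ => rfl⟩
  have hd : ∀ v, finrank ℝ (L v) ≤ 2 := by
    intro v
    rw [hL]
    by_contra hc
    push Not at hc
    obtain ⟨f, hf', _, hli⟩ := Submodule.exists_fun_fin_finrank_span_eq ℝ (u v '' {w | v.1 ≠ w.1})
    have hc' : 3 ≤ finrank ℝ (Submodule.span ℝ (u v '' {w | v.1 ≠ w.1})) := hc
    have h1 : LinearIndependent ℝ (f ∘ Fin.castLE hc') := hli.comp _ (Fin.castLE_injective hc')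
    obtain ⟨b, hb0, hb⟩ := hf' (Fin.castLE hc' 0)
    obtain ⟨c, hc0, hc1⟩ := hf' (Fin.castLE hc' 1)
    obtain ⟨d, hd0, hd⟩ := hf' (Fin.castLE hc' 2)
    refine hf v b c d hb0 hc0 hd0 ?_
    have h2 : ![u v b, u v c, u v d] = f ∘ Fin.castLE hc' := by
      funext i
      fin_cases i
      · exact hb
      · exact hc1
      · exact hd
    rw [h2]
    exact h1
  have h1 : ∀ v w, v.1 ≠ w.1 → u v w ∈ L v := fun v w hvw => by
    rw [hL]
    exact Submodule.subset_span ⟨w, hvw, rfl⟩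
  have h2 : ∀ v w, v.1 ≠ w.1 → u v w ∈ L w := fun v w hvw => by
    rw [hu.2.1 v w]
    exact h1 w v (Ne.symm hvw)
  have h0 : ∀ v w, u v w ≠ 0 := fun v w h => by
    have := hu.1 v w
    rw [h, norm_zero] at this
    exact zero_ne_one this
  obtain ⟨H1, HS, HB⟩ := d3_hyps hr hu hd h1 h2
  obtain ⟨s, t, t', x₁, x₂, y₁, y₂, hts, ht's, htt, ⟨p1, p1', hx₁⟩, ⟨p2, p2', hx₂⟩,
    ⟨p3, p3', hy₁⟩, ⟨p4, p4', hy₂⟩, htop, Hs, Ht, Ht'⟩ :=
    d3_tetra hr hd h0 h1 h2 H1 HS HB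
  obtain ⟨e, he⟩ : ∃ e : Fin 4 → E4,
      e = Fin.cons x₁ (fun c : Fin 3 => if c = s then x₂ else if c = t then y₁ else y₂) := ⟨_, rfl⟩
  have e0 : e 0 = x₁ := by rw [he]; rfl
  have es : e s.succ = x₂ := by rw [he, Fin.cons_succ, if_pos rfl]
  have et : e t.succ = y₁ := by rw [he, Fin.cons_succ, if_neg hts, if_pos rfl]
  have et' : e t'.succ = y₂ := by rw [he, Fin.cons_succ, if_neg ht's, if_neg (Ne.symm htt)]
  have key : ∀ v : Fin 3 × Fin r, ∃ b : Bool, L v = Submodule.span ℝ (e '' {j | chi v.1 j = b}) := by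
    have hF : ∀ c : Fin 3, Submodule.span ℝ (e '' {j | chi c j = false}) =
        Submodule.span ℝ {e 0} ⊔ Submodule.span ℝ {e c.succ} := by
      intro c
      rw [← span_two]
      simp only [chi_false]
    have hT : ∀ c d d' : Fin 3, d ≠ c → d' ≠ c → d ≠ d' →
        Submodule.span ℝ (e '' {j | chi c j = true}) =
        Submodule.span ℝ {e d.succ} ⊔ Submodule.span ℝ {e d'.succ} := by
      intro c d d' q1 q2 q3
      rw [← span_two]
      simp only [chi_true c d d' _ q1 q2 q3]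
    intro v
    by_cases hv : v.1 = s
    · rcases Hs v hv with h | h
      · refine ⟨false, ?_⟩
        rw [hv, hF, e0, es, h]
      · refine ⟨true, ?_⟩
        rw [hv, hT s t t' hts ht's htt, et, et', h]
    · rcases d3_cover s t t' v.1 hts ht's htt hv with hv | hv
      · rcases Ht v hv with h | h
        · refine ⟨false, ?_⟩
          rw [hv, hF, e0, et, h]
        · refine ⟨true, ?_⟩
          rw [hv, hT t s t' (Ne.symm hts) (Ne.symm htt) (Ne.symm ht's), es, et', h]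
      · rcases Ht' v hv with h | h
        · refine ⟨false, ?_⟩
          rw [hv, hF, e0, et', h]
        · refine ⟨true, ?_⟩
          rw [hv, hT t' s t (Ne.symm ht's) htt (Ne.symm hts), es, et, h]
  choose κ hκ using key
  have hn : ∀ j, ‖e j‖ = 1 := by
    intro j
    refine Fin.cases ?_ (fun c => ?_) j
    · rw [e0, hx₁]
      exact hu.1 _ _
    · by_cases hc : c = s
      · rw [hc, es, hx₂]
        exact hu.1 _ _
      · rcases d3_cover s t t' c hts ht's htt hc with hc | hc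
        · rw [hc, et, hy₁]
          exact hu.1 _ _
        · rw [hc, et', hy₂]
          exact hu.1 _ _
  have hli : LinearIndependent ℝ e := by
    apply linearIndependent_of_top_le_span_of_card_eq_finrank
    · refine htop.trans ?_
      refine sup_le (sup_le ?_ ?_) (sup_le ?_ ?_) <;>
        rw [Submodule.span_singleton_le_iff_mem] <;> apply Submodule.subset_span
      · exact ⟨0, e0⟩
      · exact ⟨_, es⟩
      · exact ⟨_, et⟩
      · exact ⟨_, et'⟩
    · rw [Fintype.card_fin, finrank_euclideanSpace, Fintype.card_fin]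
  refine ⟨e, κ, ⟨hli, ?_⟩, ?_⟩
  · intro v w hvw j hj hj'
    have m1 : e j ∈ L v := by
      rw [hκ v]
      exact Submodule.subset_span ⟨j, hj, rfl⟩
    have m2 : e j ∈ L w := by
      rw [hκ w]
      exact Submodule.subset_span ⟨j, hj', rfl⟩
    obtain ⟨i, hi, hi'⟩ := chi_other v.1 w.1 j hvw
    have hle : ¬ L v ≤ L w := by
      intro h
      have m3 : e i ∈ L v := by
        rw [hκ v]
        exact Submodule.subset_span ⟨i, hi.trans hj, rfl⟩
      have m4 := h m3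
      rw [hκ w] at m4
      refine hli.notMem_span_image (s := {j | chi w.1 j = κ w}) ?_ m4
      intro h'
      exact hi' (h'.trans hj'.symm)
    have m5 : u v w ∈ Submodule.span ℝ {e j} :=
      d3_T3 (hd v) hle (h1 v w hvw) m1 (h2 v w hvw) m2
        (fun h => by have := hn j; rw [h, norm_zero] at this; exact zero_ne_one this)
        (Submodule.mem_span_singleton_self _)
    obtain ⟨c, hc⟩ := Submodule.mem_span_singleton.1 m5
    have hc1 : |c| = 1 := by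
      have := congrArg norm hc
      rw [norm_smul, hn, mul_one, hu.1, Real.norm_eq_abs] at this
      exact this
    rcases (abs_eq zero_le_one).1 hc1 with h | h
    · left
      rw [← hc, h, one_smul]
    · right
      rw [← hc, h, neg_smul, one_smul]
  · intro c b
    by_contra hcon
    push Not at hcon
    have hb : ∀ a, κ (c, a) = !b := fun a => by
      have := hcon a
      revert this
      cases κ (c, a) <;> cases b <;> simp
    refine HS (L (c, ⟨0, hr⟩)) (hd _) c fun v hv => ?_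
    obtain ⟨v1, v2⟩ := v
    have hv : v1 = c := hv
    subst hv
    rw [hκ, hκ (v1, ⟨0, hr⟩), hb, hb]

end

end Pool.Agent.LP3.H61
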