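import Pool.Agent.LP3.Defs

/-! [K1], [K2]: counting with one and with two samples. -/

set_option autoImplicit false

namespace Pool.Agent.LP3

open Finset

/-- The maps `f` with `f a ∈ H`. -/
theorem k_card_le {V ι : Type} [Fintype V] [DecidableEq V] [Fintype ι] [Nonempty ι] (a : V)
    (H : Set ι) (ε : ℝ) (hH : (Nat.card H : ℝ) ≤ ε * Fintype.card ι) :
    (Nat.card {f : V → ι // f a ∈ H} : ℝ) ≤ ε * (Fintype.card ι : ℝ) ^ Fintype.card V := by
  classical
  have hn : (0 : ℝ) < Fintype.card ι := by
    have : 0 < Fintype.card ι := Fintype.card_pos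
    exact_mod_cast this
  have h1 : (univ.filter fun f : V → ι => f a ∈ H) =
      Fintype.piFinset fun b : V => if b = a then (univ.filter fun x => x ∈ H) else Finset.univ := by
    ext f
    simp only [Finset.mem_filter, Finset.mem_univ, true_and, Fintype.mem_piFinset]
    constructor
    · intro hf b
      by_cases hb : b = a
      · subst hb
        simpa using hf
      · simp [hb]
    · intro hf
      have := hf a
      simpa using this
  rw [Nat.card_eq_fintype_card, Fintype.card_subtype, h1, Fintype.card_piFinset]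
  have h2 : ∀ b : V, (if b = a then (univ.filter fun x => x ∈ H) else
      (Finset.univ : Finset ι)).card =
      if b = a then (univ.filter fun x => x ∈ H).card else Fintype.card ι := by
    intro b
    split_ifs <;> simp
  rw [Finset.prod_congr rfl fun b _ => h2 b, ← Finset.mul_prod_erase Finset.univ _ (Finset.mem_univ a)]
  have h3 : ∏ b ∈ Finset.univ.erase a, (if b = a then (univ.filter fun x => x ∈ H).card else
      Fintype.card ι) = Fintype.card ι ^ (Fintype.card V - 1) := by
    rw [Finset.prod_congr rfl fun b hb => if_neg (Finset.ne_of_mem_erase hb), Finset.prod_const,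
      Finset.card_erase_of_mem (Finset.mem_univ a), Finset.card_univ]
  rw [h3, if_pos rfl]
  have hr : Fintype.card V - 1 + 1 = Fintype.card V := by
    have : 0 < Fintype.card V := Fintype.card_pos_iff.2 ⟨a⟩
    omega
  have h5 : ((univ.filter fun x => x ∈ H).card : ℝ) ≤ ε * Fintype.card ι := by
    rw [← Fintype.card_subtype, ← Nat.card_eq_fintype_card]
    exact hH
  push_cast
  have h4 : (Fintype.card ι : ℝ) ^ Fintype.card V =
      (Fintype.card ι : ℝ) * (Fintype.card ι : ℝ) ^ (Fintype.card V - 1) := by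
    rw [← pow_succ', hr]
  rw [h4, ← mul_assoc]
  exact mul_le_mul_of_nonneg_right h5 (by positivity)

/-- The maps `f` with `(f a, f b) ∈ D` (`a ≠ b`). -/
theorem k_card_pair {V ι : Type} [Fintype V] [DecidableEq V] [Fintype ι] [Nonempty ι] (a b : V)
    (hab : a ≠ b) (D : Set (ι × ι)) (ε : ℝ)
    (hD : (Nat.card D : ℝ) ≤ ε * (Fintype.card ι : ℝ) ^ 2) :
    (Nat.card {f : V → ι // (f a, f b) ∈ D} : ℝ) ≤
      ε * (Fintype.card ι : ℝ) ^ Fintype.card V := by
  classical
  have hn : (0 : ℝ) < Fintype.card ι := by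
    have : 0 < Fintype.card ι := Fintype.card_pos
    exact_mod_cast this
  have hD' : ((univ.filter fun x => x ∈ D).card : ℝ) ≤ ε * (Fintype.card ι : ℝ) ^ 2 := by
    rw [← Fintype.card_subtype, ← Nat.card_eq_fintype_card]
    exact hD
  have hfib : ∀ ij : ι × ι,
      ((univ.filter fun f : V → ι => f a = ij.1 ∧ f b = ij.2).card : ℝ) *
        (Fintype.card ι : ℝ) ^ 2 = (Fintype.card ι : ℝ) ^ Fintype.card V := by
    rintro ⟨i, j⟩
    have h1 : (Finset.univ.filter fun f : V → ι => f a = i ∧ f b = j) =
        Fintype.piFinset fun c : V => if c = a then {i} else if c = b then {j} else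
          Finset.univ := by
      ext f
      simp only [Finset.mem_filter, Finset.mem_univ, true_and, Fintype.mem_piFinset]
      constructor
      · rintro ⟨hfa, hfb⟩ c
        by_cases hc : c = a
        · subst hc
          simpa using hfa
        · by_cases hc' : c = b
          · subst hc'
            simpa [hc] using hfb
          · simp [hc, hc']
      · intro hf
        have h1 := hf a
        have h2 := hf b
        simp only [if_true, Finset.mem_singleton] at h1
        rw [if_neg hab.symm, if_pos rfl, Finset.mem_singleton] at h2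
        exact ⟨h1, h2⟩
    rw [h1, Fintype.card_piFinset]
    have h2 : ∀ c : V, (if c = a then ({i} : Finset ι) else if c = b then {j} else
        (Finset.univ : Finset ι)).card =
        if c = a then 1 else if c = b then 1 else Fintype.card ι := by
      intro c
      split_ifs <;> simp
    have hb : b ∈ (Finset.univ : Finset V).erase a :=
      Finset.mem_erase.2 ⟨hab.symm, Finset.mem_univ _⟩
    rw [Finset.prod_congr rfl fun c _ => h2 c,
      ← Finset.mul_prod_erase Finset.univ _ (Finset.mem_univ a), ← Finset.mul_prod_erase _ _ hb]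
    have h3 : ∏ c ∈ (Finset.univ.erase a).erase b, (if c = a then 1 else if c = b then 1 else
        Fintype.card ι) = Fintype.card ι ^ (Fintype.card V - 1 - 1) := by
      have h4 : ∀ c ∈ (Finset.univ.erase a).erase b, (if c = a then 1 else if c = b then 1 else
        Fintype.card ι) = Fintype.card ι := by
        intro c hc
        rw [Finset.mem_erase, Finset.mem_erase] at hc
        rw [if_neg hc.2.1, if_neg hc.1]
      rw [Finset.prod_congr rfl h4, Finset.prod_const,
        Finset.card_erase_of_mem hb, Finset.card_erase_of_mem (Finset.mem_univ a), Finset.card_univ]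
    rw [h3, if_pos rfl, if_neg hab.symm, if_pos rfl]
    have hr : Fintype.card V - 1 - 1 + 2 = Fintype.card V := by
      have h5 : 1 < Fintype.card V := Fintype.one_lt_card_iff.2 ⟨a, b, hab⟩
      omega
    push_cast
    rw [one_mul, one_mul, ← pow_add, hr]
  have h1 : (univ.filter fun f : V → ι => (f a, f b) ∈ D).card =
      ∑ ij ∈ univ.filter (fun x => x ∈ D),
        (univ.filter fun f : V → ι => f a = ij.1 ∧ f b = ij.2).card := by
    rw [Finset.card_eq_sum_card_fiberwise (f := fun f : V → ι => (f a, f b))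
      (t := univ.filter (fun x => x ∈ D))]
    · refine Finset.sum_congr rfl fun ij hij => ?_
      congr 1
      ext f
      simp only [Finset.mem_filter, Finset.mem_univ, true_and] at hij ⊢
      constructor
      · rintro ⟨-, h⟩
        rw [← h]
        exact ⟨rfl, rfl⟩
      · rintro ⟨h1, h2⟩
        have h3 : (f a, f b) = ij := by rw [h1, h2]
        rw [h3]
        exact ⟨hij, rfl⟩
    · intro f hf
      simpa using hf
  rw [Nat.card_eq_fintype_card, Fintype.card_subtype, h1]
  push_cast
  have h6 : (∑ ij ∈ univ.filter (fun x => x ∈ D),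
        ((univ.filter fun f : V → ι => f a = ij.1 ∧ f b = ij.2).card : ℝ)) *
        (Fintype.card ι : ℝ) ^ 2 ≤
      (ε * (Fintype.card ι : ℝ) ^ Fintype.card V) * (Fintype.card ι : ℝ) ^ 2 := by
    rw [Finset.sum_mul, Finset.sum_congr rfl fun ij _ => hfib ij, Finset.sum_const, nsmul_eq_mul]
    calc _ ≤ ε * (Fintype.card ι : ℝ) ^ 2 * (Fintype.card ι : ℝ) ^ Fintype.card V :=
          mul_le_mul_of_nonneg_right hD' (by positivity)
      _ = _ := by ring
  exact le_of_mul_le_mul_right h6 (by positivity)

/-- union bound -/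
theorem k_union {X K : Type} [Fintype X] [Fintype K] (P : K → X → Prop) (a : ℝ)
    (h : ∀ k, (Nat.card {x // P k x} : ℝ) ≤ a) :
    (Nat.card {x // ∃ k, P k x} : ℝ) ≤ Fintype.card K * a := by
  classical
  have h1 : (univ.filter fun x => ∃ k, P k x) ⊆
      (univ : Finset K).biUnion fun k => univ.filter fun x => P k x := by
    intro x hx
    rw [mem_filter] at hx
    obtain ⟨k, hk⟩ := hx.2
    rw [mem_biUnion]
    exact ⟨k, mem_univ _, by rw [mem_filter]; exact ⟨mem_univ _, hk⟩⟩
  have h2 : ((univ.filter fun x => ∃ k, P k x).card : ℝ) ≤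
      ∑ k : K, ((univ.filter fun x => P k x).card : ℝ) := by
    exact_mod_cast (card_le_card h1).trans card_biUnion_le
  rw [Nat.card_eq_fintype_card, Fintype.card_subtype]
  refine h2.trans ?_
  calc _ ≤ ∑ _k : K, a := sum_le_sum fun k _ => by
        have := h k
        rwa [Nat.card_eq_fintype_card, Fintype.card_subtype] at this
    _ = _ := by rw [sum_const, nsmul_eq_mul, card_univ]

/-- two properties -/
theorem k_or {X : Type} [Fintype X] (P Q : X → Prop) (a b : ℝ)
    (hP : (Nat.card {x // P x} : ℝ) ≤ a) (hQ : (Nat.card {x // Q x} : ℝ) ≤ b) :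
    (Nat.card {x // P x ∨ Q x} : ℝ) ≤ a + b := by
  classical
  rw [Nat.card_eq_fintype_card, Fintype.card_subtype] at hP hQ ⊢
  rw [filter_or]
  have h2 : (((univ.filter P) ∪ (univ.filter Q)).card : ℝ) ≤
      ((univ.filter P).card : ℝ) + ((univ.filter Q).card : ℝ) := by
    exact_mod_cast card_union_le _ _
  linarith

/-- complement -/
theorem k_diff {X : Type} [Fintype X] (P Q : X → Prop) (a b : ℝ)
    (hP : a ≤ (Nat.card {x // P x} : ℝ)) (hQ : (Nat.card {x // Q x} : ℝ) ≤ b) :
    a - b ≤ (Nat.card {x // P x ∧ ¬ Q x} : ℝ) := by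
  classical
  rw [Nat.card_eq_fintype_card, Fintype.card_subtype] at hP hQ ⊢
  have h1 : (univ.filter P) ⊆ (univ.filter fun x => P x ∧ ¬ Q x) ∪ (univ.filter Q) := by
    intro x hx
    rw [mem_filter] at hx
    rw [mem_union, mem_filter, mem_filter]
    by_cases h : Q x
    · exact Or.inr ⟨mem_univ _, h⟩
    · exact Or.inl ⟨mem_univ _, hx.2, h⟩
  have h2 : ((univ.filter P).card : ℝ) ≤
      ((univ.filter fun x => P x ∧ ¬ Q x).card : ℝ) + ((univ.filter Q).card : ℝ) := by
    exact_mod_cast (card_le_card h1).trans (card_union_le _ _)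
  linarith

/-- [K1] counting with one sample. -/
theorem count1 {V ι : Type} [Fintype V] [DecidableEq V] [Fintype ι] [Nonempty ι] (ε : ℝ)
    (hε : ε * ((Fintype.card V : ℝ) + (Fintype.card V : ℝ) ^ 2) ≤ 1 / 4) (G : Set (V → ι))
    (hG : (Fintype.card ι : ℝ) ^ Fintype.card V / 2 ≤ (Nat.card G : ℝ))
    (H : V → Set ι) (hH : ∀ v, (Nat.card (H v) : ℝ) ≤ ε * Fintype.card ι)
    (B : V → V → Set (ι × ι))
    (hB : ∀ v w, v ≠ w → (Nat.card (B v w) : ℝ) ≤ ε * (Fintype.card ι : ℝ) ^ 2) :
    (Fintype.card ι : ℝ) ^ Fintype.card V / 4 ≤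
      (Nat.card {f : V → ι // f ∈ G ∧ (∀ v, f v ∉ H v) ∧ ∀ v w, v ≠ w → (f v, f w) ∉ B v w} : ℝ) := by
  classical
  have hn : (0 : ℝ) < Fintype.card ι := by
    have : 0 < Fintype.card ι := Fintype.card_pos
    exact_mod_cast this
  set M : ℝ := (Fintype.card ι : ℝ) ^ Fintype.card V with hM
  have hM0 : 0 < M := by positivity
  by_cases hV : Nonempty V
  swap
  · have hVe : IsEmpty V := not_nonempty_iff.1 hV
    have h1 : {f : V → ι // f ∈ G ∧ (∀ v, f v ∉ H v) ∧ ∀ v w, v ≠ w → (f v, f w) ∉ B v w} ≃ G :=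
      Equiv.subtypeEquivRight fun f => by
        constructor
        · exact fun h => h.1
        · exact fun h => ⟨h, fun v => isEmptyElim v, fun v => isEmptyElim v⟩
    rw [Nat.card_congr h1]
    linarith
  obtain ⟨v0⟩ := hV
  have hε0 : 0 ≤ ε := by
    have h1 := hH v0
    have h2 : (0 : ℝ) ≤ (Nat.card (H v0) : ℝ) := Nat.cast_nonneg _
    by_contra hneg
    push Not at hneg
    nlinarith
  have h1 : (Nat.card {f : V → ι // ∃ v, f v ∈ H v} : ℝ) ≤ Fintype.card V * (ε * M) :=
    k_union (fun v (f : V → ι) => f v ∈ H v) (ε * M) fun v => k_card_le v (H v) ε (hH v)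
  have h2 : (Nat.card {f : V → ι // ∃ vw : V × V, vw.1 ≠ vw.2 ∧ (f vw.1, f vw.2) ∈ B vw.1 vw.2} : ℝ)
      ≤ Fintype.card (V × V) * (ε * M) :=
    k_union (fun (vw : V × V) (f : V → ι) => vw.1 ≠ vw.2 ∧ (f vw.1, f vw.2) ∈ B vw.1 vw.2) (ε * M)
      fun vw => by
        by_cases h : vw.1 = vw.2
        · simp only [h, ne_eq, not_true_eq_false, false_and, Nat.card_of_isEmpty, Nat.cast_zero]
          positivity
        · refine le_trans (le_of_eq ?_) (k_card_pair vw.1 vw.2 h (B vw.1 vw.2) ε (hB _ _ h))
          congr 1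
          refine Nat.card_congr (Equiv.subtypeEquivRight fun f => ?_)
          simp [h]
  have h3 := k_or _ _ _ _ h1 h2
  have h4 := k_diff (fun f : V → ι => f ∈ G) _ (M / 2) _ hG h3
  have h5 : (Nat.card {f : V → ι // f ∈ G ∧ ¬ ((∃ v, f v ∈ H v) ∨
      ∃ vw : V × V, vw.1 ≠ vw.2 ∧ (f vw.1, f vw.2) ∈ B vw.1 vw.2)} : ℝ) =
      (Nat.card {f : V → ι // f ∈ G ∧ (∀ v, f v ∉ H v) ∧
        ∀ v w, v ≠ w → (f v, f w) ∉ B v w} : ℝ) := by
    congr 1
    refine Nat.card_congr (Equiv.subtypeEquivRight fun f => ?_)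
    simp only [not_or, not_exists, not_and, Prod.forall]
  rw [← h5]
  refine le_trans ?_ h4
  rw [Fintype.card_prod]
  push_cast
  nlinarith

end Pool.Agent.LP3
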