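import Pool.Agent.LP3.K1

/-! [K2]: counting with two samples. -/

set_option autoImplicit false

namespace Pool.Agent.LP3

open Finset

/-- product of an event of the first sample with everything -/
theorem k_fst {X Y : Type} [Fintype X] [Fintype Y] (P : X → Prop) (a : ℝ)
    (h : (Nat.card {x // P x} : ℝ) ≤ a) :
    (Nat.card {xy : X × Y // P xy.1} : ℝ) ≤ a * Fintype.card Y := by
  classical
  have h1 : Nat.card {xy : X × Y // P xy.1} = Nat.card {x // P x} * Nat.card Y := by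
    rw [← Nat.card_prod]
    exact Nat.card_congr Equiv.prodSubtypeFstEquivSubtypeProd
  rw [h1, Nat.card_eq_fintype_card (α := Y)]
  push_cast
  exact mul_le_mul_of_nonneg_right h (Nat.cast_nonneg _)

theorem k_snd {X Y : Type} [Fintype X] [Fintype Y] (P : Y → Prop) (a : ℝ)
    (h : (Nat.card {y // P y} : ℝ) ≤ a) :
    (Nat.card {xy : X × Y // P xy.2} : ℝ) ≤ Fintype.card X * a := by
  have h1 := k_fst (Y := X) P a h
  have h2 : Nat.card {xy : X × Y // P xy.2} = Nat.card {yx : Y × X // P yx.1} :=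
    Nat.card_congr ((Equiv.prodComm X Y).subtypeEquiv fun xy => Iff.rfl)
  rw [h2, mul_comm]
  exact h1

/-- one value of each of the two samples -/
theorem k_card_mix {V ι κ : Type} [Fintype V] [DecidableEq V] [Fintype ι] [Nonempty ι] [Fintype κ]
    [Nonempty κ] (a b : V) (D : Set (ι × κ)) (ε : ℝ)
    (hD : (Nat.card D : ℝ) ≤ ε * (Fintype.card ι * Fintype.card κ : ℝ)) :
    (Nat.card {ff : (V → ι) × (V → κ) // (ff.1 a, ff.2 b) ∈ D} : ℝ) ≤
      ε * ((Fintype.card ι : ℝ) ^ Fintype.card V * (Fintype.card κ : ℝ) ^ Fintype.card V) := by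
  classical
  have hn : (0 : ℝ) < Fintype.card ι := by
    have : 0 < Fintype.card ι := Fintype.card_pos
    exact_mod_cast this
  have hk : (0 : ℝ) < Fintype.card κ := by
    have : 0 < Fintype.card κ := Fintype.card_pos
    exact_mod_cast this
  have hD' : ((univ.filter fun x => x ∈ D).card : ℝ) ≤
      ε * (Fintype.card ι * Fintype.card κ : ℝ) := by
    rw [← Fintype.card_subtype, ← Nat.card_eq_fintype_card]
    exact hD
  have e1 : ∀ i : ι, ((univ.filter fun f : V → ι => f a = i).card : ℝ) * Fintype.card ι ≤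
      (Fintype.card ι : ℝ) ^ Fintype.card V := by
    intro i
    have h1 := k_card_le (V := V) a ({i} : Set ι) (1 / Fintype.card ι) (by
      rw [Nat.card_unique]
      field_simp
      simp)
    rw [Nat.card_eq_fintype_card, Fintype.card_subtype] at h1
    have h2 : (univ.filter fun f : V → ι => f a ∈ ({i} : Set ι)) =
        univ.filter fun f : V → ι => f a = i := by
      ext f
      simp
    rw [h2] at h1
    calc _ ≤ (1 / Fintype.card ι * (Fintype.card ι : ℝ) ^ Fintype.card V) * Fintype.card ι :=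
          mul_le_mul_of_nonneg_right h1 hn.le
      _ = _ := by field_simp
  have e2 : ∀ j : κ, ((univ.filter fun f : V → κ => f b = j).card : ℝ) * Fintype.card κ ≤
      (Fintype.card κ : ℝ) ^ Fintype.card V := by
    intro j
    have h1 := k_card_le (V := V) b ({j} : Set κ) (1 / Fintype.card κ) (by
      rw [Nat.card_unique]
      field_simp
      simp)
    rw [Nat.card_eq_fintype_card, Fintype.card_subtype] at h1
    have h2 : (univ.filter fun f : V → κ => f b ∈ ({j} : Set κ)) =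
        univ.filter fun f : V → κ => f b = j := by
      ext f
      simp
    rw [h2] at h1
    calc _ ≤ (1 / Fintype.card κ * (Fintype.card κ : ℝ) ^ Fintype.card V) * Fintype.card κ :=
          mul_le_mul_of_nonneg_right h1 hk.le
      _ = _ := by field_simp
  have h1 : (univ.filter fun ff : (V → ι) × (V → κ) => (ff.1 a, ff.2 b) ∈ D).card =
      ∑ ij ∈ univ.filter (fun x => x ∈ D),
        (univ.filter fun f : V → ι => f a = ij.1).card *
          (univ.filter fun f : V → κ => f b = ij.2).card := by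
    rw [Finset.card_eq_sum_card_fiberwise (f := fun ff : (V → ι) × (V → κ) => (ff.1 a, ff.2 b))
      (t := univ.filter (fun x => x ∈ D))]
    · refine Finset.sum_congr rfl fun ij hij => ?_
      rw [← Finset.card_product]
      congr 1
      ext ff
      simp only [Finset.mem_filter, Finset.mem_univ, true_and, Finset.mem_product] at hij ⊢
      constructor
      · rintro ⟨-, h⟩
        rw [← h]
        exact ⟨rfl, rfl⟩
      · rintro ⟨h1, h2⟩
        have h3 : (ff.1 a, ff.2 b) = ij := by rw [h1, h2]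
        rw [h3]
        exact ⟨hij, rfl⟩
    · intro f hf
      simpa using hf
  rw [Nat.card_eq_fintype_card, Fintype.card_subtype, h1]
  push_cast
  have h6 : (∑ ij ∈ univ.filter (fun x => x ∈ D),
        ((univ.filter fun f : V → ι => f a = ij.1).card : ℝ) *
          ((univ.filter fun f : V → κ => f b = ij.2).card : ℝ)) *
        (Fintype.card ι * Fintype.card κ) ≤
      (ε * ((Fintype.card ι : ℝ) ^ Fintype.card V * (Fintype.card κ : ℝ) ^ Fintype.card V)) *
        (Fintype.card ι * Fintype.card κ) := by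
    rw [Finset.sum_mul]
    calc _ ≤ ∑ _ij ∈ univ.filter (fun x => x ∈ D),
          (Fintype.card ι : ℝ) ^ Fintype.card V * (Fintype.card κ : ℝ) ^ Fintype.card V :=
          Finset.sum_le_sum fun ij _ => by
            have h7 := mul_le_mul (e1 ij.1) (e2 ij.2) (by positivity) (by positivity)
            calc _ = _ := ?_
              _ ≤ _ := h7
            ring
      _ = ((univ.filter fun x => x ∈ D).card : ℝ) *
          ((Fintype.card ι : ℝ) ^ Fintype.card V * (Fintype.card κ : ℝ) ^ Fintype.card V) := by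
          rw [Finset.sum_const, nsmul_eq_mul]
      _ ≤ ε * (Fintype.card ι * Fintype.card κ : ℝ) *
          ((Fintype.card ι : ℝ) ^ Fintype.card V * (Fintype.card κ : ℝ) ^ Fintype.card V) :=
          mul_le_mul_of_nonneg_right hD' (by positivity)
      _ = _ := by ring
  exact le_of_mul_le_mul_right h6 (by positivity)

/-- bad events of one sample -/
theorem k_bad {V ι : Type} [Fintype V] [DecidableEq V] [Fintype ι] [Nonempty ι] (ε : ℝ)
    (hε0 : 0 ≤ ε) (H : V → Set ι) (hH : ∀ v, (Nat.card (H v) : ℝ) ≤ ε * Fintype.card ι)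
    (B : V → V → Set (ι × ι))
    (hB : ∀ v w, v ≠ w → (Nat.card (B v w) : ℝ) ≤ ε * (Fintype.card ι : ℝ) ^ 2) :
    (Nat.card {f : V → ι // (∃ v, f v ∈ H v) ∨
      ∃ vw : V × V, vw.1 ≠ vw.2 ∧ (f vw.1, f vw.2) ∈ B vw.1 vw.2} : ℝ) ≤
      ε * ((Fintype.card V : ℝ) + (Fintype.card V : ℝ) ^ 2) *
        (Fintype.card ι : ℝ) ^ Fintype.card V := by
  classical
  have hn : (0 : ℝ) < Fintype.card ι := by
    have : 0 < Fintype.card ι := Fintype.card_pos
    exact_mod_cast this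
  set M : ℝ := (Fintype.card ι : ℝ) ^ Fintype.card V with hM
  have hM0 : 0 < M := by positivity
  have h1 : (Nat.card {f : V → ι // ∃ v, f v ∈ H v} : ℝ) ≤ Fintype.card V * (ε * M) :=
    k_union (fun v (f : V → ι) => f v ∈ H v) (ε * M) fun v => k_card_le v (H v) ε (hH v)
  have h2 : (Nat.card {f : V → ι // ∃ vw : V × V, vw.1 ≠ vw.2 ∧ (f vw.1, f vw.2) ∈ B vw.1 vw.2} : ℝ)
      ≤ Fintype.card (V × V) * (ε * M) :=
    k_union (fun (vw : V × V) (f : V → ι) => vw.1 ≠ vw.2 ∧ (f vw.1, f vw.2) ∈ B vw.1 vw.2) (ε * M)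
      fun vw => by
        by_cases h : vw.1 = vw.2
        · simp only [h, ne_eq, not_true_eq_false, false_and, Nat.card_of_isEmpty, Nat.cast_zero]
          positivity
        · refine le_trans (le_of_eq ?_) (k_card_pair vw.1 vw.2 h (B vw.1 vw.2) ε (hB _ _ h))
          congr 1
          refine Nat.card_congr (Equiv.subtypeEquivRight fun f => ?_)
          simp [h]
  refine (k_or _ _ _ _ h1 h2).trans (le_of_eq ?_)
  rw [Fintype.card_prod]
  push_cast
  ring

/-- [K2] counting with two samples. -/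
theorem count2 {V ι κ : Type} [Fintype V] [DecidableEq V] [Fintype ι] [Nonempty ι] [Fintype κ]
    [Nonempty κ] (ε : ℝ)
    (hε : ε * (2 * (Fintype.card V : ℝ) + 3 * (Fintype.card V : ℝ) ^ 2) < 1 / 4)
    (G₀ : Set (V → ι)) (G₁ : Set (V → κ))
    (hG₀ : (Fintype.card ι : ℝ) ^ Fintype.card V / 2 ≤ (Nat.card G₀ : ℝ))
    (hG₁ : (Fintype.card κ : ℝ) ^ Fintype.card V / 2 ≤ (Nat.card G₁ : ℝ))
    (H₀ : V → Set ι) (hH₀ : ∀ v, (Nat.card (H₀ v) : ℝ) ≤ ε * Fintype.card ι)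
    (H₁ : V → Set κ) (hH₁ : ∀ v, (Nat.card (H₁ v) : ℝ) ≤ ε * Fintype.card κ)
    (B₀₀ : V → V → Set (ι × ι))
    (hB₀₀ : ∀ v w, v ≠ w → (Nat.card (B₀₀ v w) : ℝ) ≤ ε * (Fintype.card ι : ℝ) ^ 2)
    (B₁₁ : V → V → Set (κ × κ))
    (hB₁₁ : ∀ v w, v ≠ w → (Nat.card (B₁₁ v w) : ℝ) ≤ ε * (Fintype.card κ : ℝ) ^ 2)
    (B₀₁ : V → V → Set (ι × κ))
    (hB₀₁ : ∀ v w, (Nat.card (B₀₁ v w) : ℝ) ≤ ε * (Fintype.card ι * Fintype.card κ : ℝ)) :
    ∃ f₀ ∈ G₀, ∃ f₁ ∈ G₁, (∀ v, f₀ v ∉ H₀ v) ∧ (∀ v, f₁ v ∉ H₁ v) ∧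
      (∀ v w, v ≠ w → (f₀ v, f₀ w) ∉ B₀₀ v w) ∧ (∀ v w, v ≠ w → (f₁ v, f₁ w) ∉ B₁₁ v w) ∧
      ∀ v w, (f₀ v, f₁ w) ∉ B₀₁ v w := by
  classical
  have hn : (0 : ℝ) < Fintype.card ι := by
    have : 0 < Fintype.card ι := Fintype.card_pos
    exact_mod_cast this
  have hk : (0 : ℝ) < Fintype.card κ := by
    have : 0 < Fintype.card κ := Fintype.card_pos
    exact_mod_cast this
  set M : ℝ := (Fintype.card ι : ℝ) ^ Fintype.card V with hM
  set M' : ℝ := (Fintype.card κ : ℝ) ^ Fintype.card V with hM'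
  have hM0 : 0 < M := by positivity
  have hM'0 : 0 < M' := by positivity
  have hcM : (Fintype.card (V → ι) : ℝ) = M := by
    rw [Fintype.card_fun]
    push_cast
    rfl
  have hcM' : (Fintype.card (V → κ) : ℝ) = M' := by
    rw [Fintype.card_fun]
    push_cast
    rfl
  by_cases hV : Nonempty V
  swap
  · have hVe : IsEmpty V := not_nonempty_iff.1 hV
    have h0 : (0 : ℝ) < (Nat.card G₀ : ℝ) := by linarith
    have h1 : (0 : ℝ) < (Nat.card G₁ : ℝ) := by linarith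
    have h0' : 0 < Nat.card G₀ := by exact_mod_cast h0
    have h1' : 0 < Nat.card G₁ := by exact_mod_cast h1
    obtain ⟨f₀, hf₀⟩ := (Nat.card_pos_iff.1 h0').1
    obtain ⟨f₁, hf₁⟩ := (Nat.card_pos_iff.1 h1').1
    exact ⟨f₀, hf₀, f₁, hf₁, fun v => isEmptyElim v, fun v => isEmptyElim v,
      fun v => isEmptyElim v, fun v => isEmptyElim v, fun v => isEmptyElim v⟩
  obtain ⟨v0⟩ := hV
  have hε0 : 0 ≤ ε := by
    have h1 := hH₀ v0
    have h2 : (0 : ℝ) ≤ (Nat.card (H₀ v0) : ℝ) := Nat.cast_nonneg _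
    by_contra hneg
    push Not at hneg
    nlinarith
  have hb0 := k_fst (Y := V → κ) _ _ (k_bad ε hε0 H₀ hH₀ B₀₀ hB₀₀)
  have hb1 := k_snd (X := V → ι) _ _ (k_bad ε hε0 H₁ hH₁ B₁₁ hB₁₁)
  have hb2 : (Nat.card {ff : (V → ι) × (V → κ) //
      ∃ vw : V × V, (ff.1 vw.1, ff.2 vw.2) ∈ B₀₁ vw.1 vw.2} : ℝ) ≤
      Fintype.card (V × V) * (ε * (M * M')) :=
    k_union (fun (vw : V × V) (ff : (V → ι) × (V → κ)) => (ff.1 vw.1, ff.2 vw.2) ∈ B₀₁ vw.1 vw.2)
      (ε * (M * M')) fun vw => k_card_mix vw.1 vw.2 (B₀₁ vw.1 vw.2) ε (hB₀₁ _ _)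
  rw [hcM'] at hb0
  rw [hcM] at hb1
  have hbad := k_or _ _ _ _ (k_or _ _ _ _ hb0 hb1) hb2
  have hG : M * M' / 4 ≤
      (Nat.card {ff : (V → ι) × (V → κ) // ff.1 ∈ G₀ ∧ ff.2 ∈ G₁} : ℝ) := by
    have h1 : Nat.card {ff : (V → ι) × (V → κ) // ff.1 ∈ G₀ ∧ ff.2 ∈ G₁} =
        Nat.card G₀ * Nat.card G₁ := by
      rw [← Nat.card_prod]
      exact Nat.card_congr Equiv.subtypeProdEquivProd
    rw [h1]
    push_cast
    have h2 := mul_le_mul hG₀ hG₁ (by positivity) (Nat.cast_nonneg _)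
    calc M * M' / 4 = M / 2 * (M' / 2) := by ring
      _ ≤ _ := h2
  have hfin := k_diff _ _ _ _ hG hbad
  have hpos : 0 < M * M' / 4 - (ε * ((Fintype.card V : ℝ) + (Fintype.card V : ℝ) ^ 2) * M * M' +
      M * (ε * ((Fintype.card V : ℝ) + (Fintype.card V : ℝ) ^ 2) * M') +
      Fintype.card (V × V) * (ε * (M * M'))) := by
    rw [Fintype.card_prod]
    push_cast
    have h3 : 0 < M * M' := by positivity
    nlinarith
  have h7 := lt_of_lt_of_le hpos hfin
  have h8 : 0 < Nat.card {ff : (V → ι) × (V → κ) // (ff.1 ∈ G₀ ∧ ff.2 ∈ G₁) ∧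
      ¬ ((((∃ v, ff.1 v ∈ H₀ v) ∨
        ∃ vw : V × V, vw.1 ≠ vw.2 ∧ (ff.1 vw.1, ff.1 vw.2) ∈ B₀₀ vw.1 vw.2) ∨
        ((∃ v, ff.2 v ∈ H₁ v) ∨
        ∃ vw : V × V, vw.1 ≠ vw.2 ∧ (ff.2 vw.1, ff.2 vw.2) ∈ B₁₁ vw.1 vw.2)) ∨
        ∃ vw : V × V, (ff.1 vw.1, ff.2 vw.2) ∈ B₀₁ vw.1 vw.2)} := by
    exact_mod_cast h7
  obtain ⟨⟨⟨f₀, f₁⟩, ⟨h1, h2⟩, h3⟩⟩ := (Nat.card_pos_iff.1 h8).1
  simp only [not_or, not_exists, not_and, Prod.forall] at h3
  obtain ⟨⟨⟨a1, a2⟩, a3, a4⟩, a5⟩ := h3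
  exact ⟨f₀, h1, f₁, h2, a1, a3, a2, a4, a5⟩

end Pool.Agent.LP3
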