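import Pool.Agent.LP3.Defs
import Pool.Agent.LPI.RowC
import Pool.Agent.LPC.C4

/-! [C3a], [C3]: the two finite nets of planes. -/

namespace Pool.Agent.LP3

open Pool.Agent.LPI Pool.Agent.LPC
open scoped Topology

noncomputable section

theorem net_gen {Y : Type} [TopologicalSpace Y] (Z : Set Y) (hZ : IsCompact Z)
    (good : Y → E4 → E4 → Prop)
    (h : ∀ z ∈ Z, ∃ P Q : E4, LinearIndependent ℝ ![P, Q] ∧ {z' | good z' P Q} ∈ 𝓝 z) :
    ∃ (N : ℕ) (P Q : Fin N → E4), (∀ k, LinearIndependent ℝ ![P k, Q k]) ∧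
      ∀ z ∈ Z, ∃ k, good z (P k) (Q k) := by
  choose! fS fW hfi hfn using h
  obtain ⟨t, ht, hcov⟩ := hZ.elim_nhds_subcover _ (fun u hu => hfn u hu)
  set e := t.equivFin with he
  refine ⟨t.card, fun k => fS (e.symm k).1, fun k => fW (e.symm k).1, ?_, ?_⟩
  · intro k
    exact hfi _ (ht _ (e.symm k).2)
  · intro u hu
    have hm := hcov hu
    rw [Set.mem_iUnion₂] at hm
    obtain ⟨u0, hu0, hg⟩ := hm
    refine ⟨e ⟨u0, hu0⟩, ?_⟩
    simp only [Equiv.symm_apply_apply]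
    exact hg

theorem crossed_nhds {K : Type} [Fintype K] (u : Fin 3 × K → Fin 3 × K → E4) (v : Fin 3 × K)
    (h : ¬ Flat u v) :
    ∃ P Q : E4, LinearIndependent ℝ ![P, Q] ∧ {u' | Crossed u' v P Q} ∈ 𝓝 u := by
  unfold Flat at h
  push Not at h
  obtain ⟨w₁, w₂, w₃, g1, g2, g3, h⟩ := h
  obtain ⟨w, hw⟩ := rowC_det _ _ _ h
  refine ⟨u v w₁ + u v w₂ + u v w₃, w, ?_, ?_⟩
  · rw [LinearIndependent.pair_iff]
    intro s' t' hst
    by_contra hne
    apply hw
    apply Matrix.exists_mulVec_eq_zero_iff.1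
    refine ⟨![s', s', s', -t'], ?_, ?_⟩
    · intro h0
      apply hne
      have e0 := congrFun h0 0
      have e3 := congrFun h0 3
      simp at e0 e3
      exact ⟨e0, e3⟩
    · funext i
      rw [rowC_mulVec]
      have := congrArg (fun v : E4 => v i) hst
      simp only [PiLp.add_apply, PiLp.smul_apply, smul_eq_mul, PiLp.zero_apply] at this
      simp
      linarith
  · refine Filter.mem_of_superset (rowC4_nhds u v w₁ w₂ w₃ w hw) ?_
    rintro u' ⟨α, β, γ, ω, h1, h2, h3, h4⟩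
    exact ⟨w₁, w₂, w₃, α, β, γ, ω, g1, g2, g3, h1, h2, h3, h4⟩

theorem iso3_closed (r : ℕ) :
    IsClosed {u : Fin 3 × Fin r → Fin 3 × Fin r → E4 | Iso3 r u} := by
  unfold Iso3
  simp only [Set.ofPred_and, Set.ofPred_forall]
  refine IsClosed.inter ?_ (IsClosed.inter ?_ ?_)
  · refine isClosed_iInter fun a => isClosed_iInter fun b => ?_
    exact isClosed_eq (by fun_prop) continuous_const
  · refine isClosed_iInter fun a => isClosed_iInter fun b => ?_
    exact isClosed_eq (by fun_prop) (by fun_prop)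
  · refine isClosed_iInter fun ν => isClosed_iInter fun _ => ?_
    refine isClosed_le ?_ continuous_const
    refine continuous_abs.comp (Continuous.sub ?_ continuous_const)
    refine continuous_finsetSum _ fun a _ => continuous_finsetSum _ fun b _ => ?_
    by_cases hab : a.1 = b.1
    · simp only [hab, if_true]
      exact continuous_const
    · simp only [hab, if_false]
      fun_prop

theorem slab_open {K : Type} (g : Fin 3 → K) (v : Fin 3 × K) :
    IsOpen {u : Fin 3 × K → Fin 3 × K → E4 | SLab u g v} := by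
  unfold SLab
  simp only [Set.ofPred_forall]
  refine isOpen_iInter_of_finite fun t => isOpen_iInter_of_finite fun t' =>
    isOpen_iInter_of_finite fun _ => isOpen_iInter_of_finite fun _ =>
    isOpen_iInter_of_finite fun _ => ?_
  exact isOpen_lt continuous_const (by fun_prop)

theorem lab_closed {K : Type} (g : Fin 3 → K) (v : Fin 3 × K) :
    IsClosed {u : Fin 3 × K → Fin 3 × K → E4 | Lab u g v} := by
  unfold Lab
  simp only [Set.ofPred_forall]
  refine isClosed_iInter fun t => isClosed_iInter fun t' =>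
    isClosed_iInter fun _ => isClosed_iInter fun _ =>
    isClosed_iInter fun _ => ?_
  exact isClosed_le continuous_const (by fun_prop)

theorem pp_open (r : ℕ) : IsOpen {u : Fin 3 × Fin r → Fin 3 × Fin r → E4 | PP r u} := by
  unfold PP
  simp only [Set.ofPred_exists]
  refine isOpen_iUnion fun a => isOpen_iUnion fun b => ?_
  simp only [Set.ofPred_and, Set.ofPred_forall]
  refine IsOpen.inter (isOpen_iInter_of_finite fun s => isOpen_iInter_of_finite fun _ =>
    isOpen_const) (IsOpen.inter ?_ ?_)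
  · exact slab_open a (0, a 0)
  · exact isOpen_iInter_of_finite fun s => slab_open a (s, b s)

theorem net1_compact (r : ℕ) :
    IsCompact {u : Fin 3 × Fin r → Fin 3 × Fin r → E4 | Iso3 r u ∧ ¬ PP r u} := by
  refine Metric.isCompact_of_isClosed_isBounded ?_ ?_
  · exact (iso3_closed r).inter (pp_open r).isClosed_compl
  refine (Metric.isBounded_closedBall (x := (0 : Fin 3 × Fin r → Fin 3 × Fin r → E4))
    (r := 1)).subset ?_
  intro u hu
  rw [mem_closedBall_zero_iff]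
  rw [pi_norm_le_iff_of_nonneg zero_le_one]
  intro a
  rw [pi_norm_le_iff_of_nonneg zero_le_one]
  intro b
  exact (hu.1.1 a b).le

/-- [C3a] net of stage 1. -/
theorem net1 (r : ℕ) (hrow : ∀ u : Fin 3 × Fin r → Fin 3 × Fin r → E4, Iso3 r u → ¬ PP r u →
      ∃ v, ¬ Flat u v) :
    ∃ (N : ℕ) (P Q : Fin N → E4), (∀ k, LinearIndependent ℝ ![P k, Q k]) ∧
      ∀ u : Fin 3 × Fin r → Fin 3 × Fin r → E4, Iso3 r u → ¬ PP r u →
        ∃ k v, Crossed u v (P k) (Q k) := by
  obtain ⟨N, P, Q, h1, h2⟩ := net_gen _ (net1_compact r)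
    (fun u P Q => ∃ v, Crossed u v P Q) (fun u hu => by
      obtain ⟨v, hv⟩ := hrow u hu.1 hu.2
      obtain ⟨P, Q, hPQ, hn⟩ := crossed_nhds u v hv
      exact ⟨P, Q, hPQ, Filter.mem_of_superset hn fun u' hu' => ⟨v, hu'⟩⟩)
  exact ⟨N, P, Q, h1, fun u hu hp => h2 u ⟨hu, hp⟩⟩

theorem net2_compact (r : ℕ) {K : Type} [Fintype K] (o : K) (j₀ j₁ : Fin r → K) :
    IsCompact {z : (E4 →L[ℝ] E4) × (Fin 3 × K → Fin 3 × K → E4) ×
      (Fin 3 × K → Fin 3 × K → E4) | XX r o j₀ j₁ z.1 z.2.1 z.2.2} := by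
  have hset : {z : (E4 →L[ℝ] E4) × (Fin 3 × K → Fin 3 × K → E4) ×
      (Fin 3 × K → Fin 3 × K → E4) | XX r o j₀ j₁ z.1 z.2.1 z.2.2} =
      {z | ‖z.1‖ = 1 ∧ (∀ v w, ‖z.2.1 v w‖ = 1) ∧ (∀ v w, z.2.1 v w = z.2.1 w v) ∧
        (∀ v w, ‖z.2.2 v w‖ = 1) ∧ (∀ v w, z.2.2 v w = z.2.2 w v) ∧
        (∀ v w, z.1 (z.2.1 v w) = ‖z.1 (z.2.1 v w)‖ • z.2.2 v w) ∧
        Iso3 r (res j₀ z.2.1) ∧ Iso3 r (res j₁ z.2.2) ∧ Lab z.2.1 (fun _ => o) (0, o) ∧
        ∀ s a, Lab z.2.1 (fun _ => o) (s, j₁ a)} := by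
    ext z
    exact ⟨fun h => ⟨h.1, h.2, h.3, h.4, h.5, h.6, h.7, h.8, h.9, h.10⟩,
      fun ⟨h1, h2, h3, h4, h5, h6, h7, h8, h9, h10⟩ => ⟨h1, h2, h3, h4, h5, h6, h7, h8, h9, h10⟩⟩
  refine Metric.isCompact_of_isClosed_isBounded ?_ ?_
  · rw [hset]
    simp only [Set.ofPred_and, Set.ofPred_forall]
    refine IsClosed.inter (isClosed_eq (by fun_prop) continuous_const)
      (IsClosed.inter ?_ (IsClosed.inter ?_ (IsClosed.inter ?_ (IsClosed.inter ?_
      (IsClosed.inter ?_ (IsClosed.inter ?_ (IsClosed.inter ?_ (IsClosed.inter ?_ ?_))))))))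
    · exact isClosed_iInter fun a => isClosed_iInter fun b =>
        isClosed_eq (by fun_prop) continuous_const
    · exact isClosed_iInter fun a => isClosed_iInter fun b =>
        isClosed_eq (by fun_prop) (by fun_prop)
    · exact isClosed_iInter fun a => isClosed_iInter fun b =>
        isClosed_eq (by fun_prop) continuous_const
    · exact isClosed_iInter fun a => isClosed_iInter fun b =>
        isClosed_eq (by fun_prop) (by fun_prop)
    · exact isClosed_iInter fun a => isClosed_iInter fun b =>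
        isClosed_eq (by fun_prop) (by fun_prop)
    · exact (iso3_closed r).preimage (f := fun z : (E4 →L[ℝ] E4) ×
        (Fin 3 × K → Fin 3 × K → E4) × (Fin 3 × K → Fin 3 × K → E4) => res j₀ z.2.1)
        (by unfold res; fun_prop)
    · exact (iso3_closed r).preimage (f := fun z : (E4 →L[ℝ] E4) ×
        (Fin 3 × K → Fin 3 × K → E4) × (Fin 3 × K → Fin 3 × K → E4) => res j₁ z.2.2)
        (by unfold res; fun_prop)
    · exact (lab_closed (fun _ => o) (0, o)).preimage (f := fun z : (E4 →L[ℝ] E4) ×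
        (Fin 3 × K → Fin 3 × K → E4) × (Fin 3 × K → Fin 3 × K → E4) => z.2.1) (by fun_prop)
    · exact isClosed_iInter fun s => isClosed_iInter fun a =>
        (lab_closed (fun _ => o) (s, j₁ a)).preimage (f := fun z : (E4 →L[ℝ] E4) ×
        (Fin 3 × K → Fin 3 × K → E4) × (Fin 3 × K → Fin 3 × K → E4) => z.2.1) (by fun_prop)
  · refine (Metric.isBounded_closedBall (x := (0 : (E4 →L[ℝ] E4) ×
      (Fin 3 × K → Fin 3 × K → E4) × (Fin 3 × K → Fin 3 × K → E4)))
      (r := 1)).subset ?_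
    intro z hz
    rw [mem_closedBall_zero_iff, Prod.norm_def, Prod.norm_def]
    refine max_le hz.normS.le (max_le ?_ ?_)
    · rw [pi_norm_le_iff_of_nonneg zero_le_one]
      intro a
      rw [pi_norm_le_iff_of_nonneg zero_le_one]
      intro b
      exact (hz.norm a b).le
    · rw [pi_norm_le_iff_of_nonneg zero_le_one]
      intro a
      rw [pi_norm_le_iff_of_nonneg zero_le_one]
      intro b
      exact (hz.norm' a b).le

/-- [C3] net of stage 2. -/
theorem net2 (r : ℕ) {K : Type} [Fintype K] (o : K) (j₀ j₁ : Fin r → K)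
    (hrow : ∀ (S : E4 →L[ℝ] E4) (u u' : Fin 3 × K → Fin 3 × K → E4), XX r o j₀ j₁ S u u' →
      (∃ v, ¬ Flat u v) ∨ ∃ s a, ¬ Flat u' (s, j₁ a)) :
    ∃ (N : ℕ) (P Q : Fin N → E4), (∀ k, LinearIndependent ℝ ![P k, Q k]) ∧
      ∀ (S : E4 →L[ℝ] E4) (u u' : Fin 3 × K → Fin 3 × K → E4), XX r o j₀ j₁ S u u' →
        ∃ k, (∃ v, Crossed u v (P k) (Q k)) ∨ ∃ s a, Crossed u' (s, j₁ a) (P k) (Q k) := by
  obtain ⟨N, P, Q, h1, h2⟩ := net_gen _ (net2_compact r o j₀ j₁)
    (fun z P Q => (∃ v, Crossed z.2.1 v P Q) ∨ ∃ s a, Crossed z.2.2 (s, j₁ a) P Q)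
    (fun z hz => by
      rcases hrow z.1 z.2.1 z.2.2 hz with ⟨v, hv⟩ | ⟨s, a, hv⟩
      · obtain ⟨P, Q, hPQ, hn⟩ := crossed_nhds z.2.1 v hv
        refine ⟨P, Q, hPQ, ?_⟩
        have hc : ContinuousAt (fun z : (E4 →L[ℝ] E4) × (Fin 3 × K → Fin 3 × K → E4) ×
          (Fin 3 × K → Fin 3 × K → E4) => z.2.1) z := by fun_prop
        exact Filter.mem_of_superset (hc.preimage_mem_nhds hn) fun z' hz' => Or.inl ⟨v, hz'⟩
      · obtain ⟨P, Q, hPQ, hn⟩ := crossed_nhds z.2.2 _ hv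
        refine ⟨P, Q, hPQ, ?_⟩
        have hc : ContinuousAt (fun z : (E4 →L[ℝ] E4) × (Fin 3 × K → Fin 3 × K → E4) ×
          (Fin 3 × K → Fin 3 × K → E4) => z.2.2) z := by fun_prop
        exact Filter.mem_of_superset (hc.preimage_mem_nhds hn) fun z' hz' =>
          Or.inr ⟨s, a, hz'⟩)
  exact ⟨N, P, Q, h1, fun S u u' hX => h2 (S, u, u') hX⟩

end

end Pool.Agent.LP3
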