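import Pool.Agent.LP3.Anch
import Pool.Agent.LP3.F3
import Pool.Agent.LP3.S3
import Pool.Agent.LP3.Net
import Pool.Agent.LP3.D3f25
import Pool.Agent.LP3.H3
import Pool.Agent.LP3.H3b
import Pool.Agent.LP3.K2

/-! Row Z3b: stage 2 of the three-colour robust theorem. -/

set_option autoImplicit false

namespace Pool.Agent.LP3

open Pool.Agent.LPI Pool.Agent.LPC

noncomputable section

theorem zb_card_or {α : Type} [Finite α] (p q : α → Prop) :
    Nat.card {x : α // p x ∨ q x} ≤ Nat.card {x : α // p x} + Nat.card {x : α // q x} := by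
  classical
  have := Fintype.ofFinite α
  simp only [Nat.card_eq_fintype_card]
  exact Fintype.card_subtype_or p q

theorem zb_card_exists {α κ : Type} [Finite α] [Fintype κ] (p : κ → α → Prop) (c : ℝ)
    (hc : ∀ k, (Nat.card {x : α // p k x} : ℝ) ≤ c) :
    (Nat.card {x : α // ∃ k, p k x} : ℝ) ≤ Fintype.card κ * c := by
  classical
  have := Fintype.ofFinite α
  have h1 : Nat.card {x : α // ∃ k, p k x} ≤ ∑ k, Nat.card {x : α // p k x} := by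
    rw [Nat.subtype_card (Finset.univ.biUnion fun k => Finset.univ.filter (p k)) (by simp)]
    refine Finset.card_biUnion_le.trans (le_of_eq ?_)
    refine Finset.sum_congr rfl fun k _ => ?_
    rw [Nat.subtype_card (Finset.univ.filter (p k)) (by simp)]
  calc (Nat.card {x : α // ∃ k, p k x} : ℝ) ≤ ((∑ k, Nat.card {x : α // p k x} : ℕ) : ℝ) := by
        exact_mod_cast h1
    _ = ∑ k, (Nat.card {x : α // p k x} : ℝ) := by push_cast; rfl
    _ ≤ ∑ _k : κ, c := Finset.sum_le_sum fun k _ => hc k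
    _ = Fintype.card κ * c := by simp

theorem zb_card_map {α β : Type} [Finite β] (j : α → β) (hj : Function.Injective j)
    (p : α → Prop) (q : β → Prop) (h : ∀ x, p x → q (j x)) :
    (Nat.card {x : α // p x} : ℝ) ≤ (Nat.card {y : β // q y} : ℝ) := by
  have h1 : Nat.card {x : α // p x} ≤ Nat.card {y : β // q y} :=
    Nat.card_le_card_of_injective (fun x : {x : α // p x} => (⟨j x.1, h _ x.2⟩ : {y : β // q y}))
      fun x y hxy => Subtype.ext (hj (congrArg Subtype.val hxy))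
  exact_mod_cast h1

theorem zb_norm_arr {ι : Type} (A : Fin 3 → ι → Set E3) (T : E4 ≃ₗ[ℝ] E4) (v w : Fin 3 × ι) :
    ‖arr A T v w‖ = 1 := by
  have h : T (lift (pt A v w)) ≠ 0 := by
    intro h
    have h1 : lift (pt A v w) = 0 := T.map_eq_zero_iff.1 h
    have h2 : lift (pt A v w) 0 = 0 := by rw [h1]; rfl
    have h3 : lift (pt A v w) 0 = 1 := rfl
    rw [h3] at h2
    exact one_ne_zero h2
  unfold arr unit
  rw [norm_smul, norm_inv, norm_norm, inv_mul_cancel₀ (norm_ne_zero_iff.2 h)]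

theorem zb_arr_sym {ι : Type} (A : Fin 3 → ι → Set E3) (T : E4 ≃ₗ[ℝ] E4) (v w : Fin 3 × ι) :
    arr A T v w = arr A T w v := by
  unfold arr pt
  rw [Set.inter_comm]

/-- [Z3b] stage 2 (from F3, S3, C3, D3, H3, H3b, K2). -/
theorem stage2 (δ : ℝ) (hδ : 0 < δ) : ∃ (N : ℕ) (P Q : Fin N → E4) (ρ c e : ℝ),
    (∀ k, LinearIndependent ℝ ![P k, Q k]) ∧ 0 < ρ ∧ 0 < c ∧ 0 < e ∧
    ∀ (ι : Type) [Fintype ι] [Nonempty ι] (A : Fin 3 → ι → Set E3), Fam c e A →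
    ∀ T : E4 ≃ₗ[ℝ] E4, IsoF A T → ∀ x d : Fin N → E3, (∀ k, d k ≠ 0) →
    (∀ k (v w₁ w₂ w₃ : Fin 3 × ι) (α β γ ω : ℝ),
        (A v.1 v.2 ∩ A w₁.1 w₁.2).Nonempty → (A v.1 v.2 ∩ A w₂.1 w₂.2).Nonempty →
        (A v.1 v.2 ∩ A w₃.1 w₃.2).Nonempty → 0 < α → 0 < β → 0 < γ →
        α • arr A T v w₁ + β • arr A T v w₂ + γ • arr A T v w₃ = P k + ω • Q k →
        ∃ t : ℝ, x k + t • d k ∈ A v.1 v.2) →
    ∀ g : Fin 3 → ι, Anch A T δ ρ g → (∀ k s, ¬ ∃ t : ℝ, x k + t • d k ∈ A s (g s)) → False := by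
  classical
  obtain ⟨r, hr13, hr1, hsamp⟩ := sampling 13
  obtain ⟨N, P, Q, hPQ, hnet⟩ := net2 r (K := Option (Fin r ⊕ Fin r)) none
    (fun a => some (Sum.inl a)) (fun a => some (Sum.inr a))
    (fun S u u' hX => two_frames r hr13 _ _ _ S u u' hX)
  obtain ⟨X, hX⟩ : ∃ X : ℝ, X = 2 * (Fintype.card (Fin 3 × Fin r) : ℝ) +
    3 * (Fintype.card (Fin 3 × Fin r) : ℝ) ^ 2 := ⟨_, rfl⟩
  have hX0 : 0 ≤ X := by rw [hX]; positivity
  obtain ⟨ε, hε⟩ : ∃ ε : ℝ, ε = 1 / (4 * (X + 1)) := ⟨_, rfl⟩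
  have hε0 : 0 < ε := by rw [hε]; positivity
  have hεX : ε * X < 1 / 4 := by
    rw [hε, one_div, inv_mul_eq_div, div_lt_div_iff₀ (by positivity) (by norm_num)]
    linarith
  obtain ⟨m, hm⟩ : ∃ m : ℝ, m = min 1 δ := ⟨_, rfl⟩
  have hm0 : 0 < m := by rw [hm]; exact lt_min one_pos hδ
  have hm1 : m ≤ 1 := by rw [hm]; exact min_le_left _ _
  have hmδ : m ≤ δ := by rw [hm]; exact min_le_right _ _
  have hN0 : (0 : ℝ) ≤ N := Nat.cast_nonneg N
  refine ⟨N, P, Q, ε * m / 8, min (δ / 16000) (ε * m / (8 * (N + 1))),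
    min (δ ^ 2 / 8000) (ε * m ^ 2), hPQ, by positivity, by positivity, by positivity, ?_⟩
  intro ι _ _ A hF T hT x d hd hline g hg hgl
  obtain ⟨c, hc⟩ : ∃ c : ℝ, c = min (δ / 16000) (ε * m / (8 * (N + 1))) := ⟨_, rfl⟩
  obtain ⟨e, he⟩ : ∃ e : ℝ, e = min (δ ^ 2 / 8000) (ε * m ^ 2) := ⟨_, rfl⟩
  rw [← hc, ← he] at hF
  have hc0 : 0 < c := by rw [hc]; positivity
  have he0 : 0 < e := by rw [he]; positivity
  have hc1 : c ≤ δ / 16000 := by rw [hc]; exact min_le_left _ _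
  have hc2 : N * c ≤ ε * m / 8 := by
    have h1 : c ≤ ε * m / (8 * (N + 1)) := by rw [hc]; exact min_le_right _ _
    calc N * c ≤ N * (ε * m / (8 * (N + 1))) := mul_le_mul_of_nonneg_left h1 hN0
      _ ≤ (N + 1) * (ε * m / (8 * (N + 1))) :=
          mul_le_mul_of_nonneg_right (by linarith) (by positivity)
      _ = ε * m / 8 := by field_simp
  have he1 : e ≤ δ ^ 2 / 8000 := by rw [he]; exact min_le_left _ _
  have he2 : e ≤ ε * m ^ 2 := by rw [he]; exact min_le_right _ _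
  obtain ⟨n, hn⟩ : ∃ n : ℝ, n = (Fintype.card ι : ℝ) := ⟨_, rfl⟩
  have hn0 : 0 < n := by rw [hn]; exact_mod_cast Fintype.card_pos
  -- the sub-families
  obtain ⟨k, hk⟩ : ∃ k : ℕ, k = ⌈δ * n⌉₊ := ⟨_, rfl⟩
  have hk1 : δ * n ≤ k := by rw [hk]; exact Nat.le_ceil _
  have hk0 : 0 < k := by
    rw [hk]
    exact Nat.ceil_pos.2 (mul_pos hδ hn0)
  have hkR : (0 : ℝ) < k := by exact_mod_cast hk0
  have hj : ∀ s : Fin 3, ∃ j : Fin k → ι, Function.Injective j ∧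
      ∀ i, Lab (arr A T) g (s, j i) := by
    intro s
    have h1 := hg.many s
    rw [← hn] at h1
    have h2 : k ≤ Nat.card {i : ι // Lab (arr A T) g (s, i)} := by
      rw [hk]
      exact Nat.ceil_le.2 h1
    rw [Nat.card_eq_fintype_card] at h2
    have h3 : Fintype.card (Fin k) ≤ Fintype.card {i : ι // Lab (arr A T) g (s, i)} := by
      rw [Fintype.card_fin]
      exact h2
    obtain ⟨f⟩ := Function.Embedding.nonempty_of_card_le h3
    exact ⟨fun i => (f i).1, fun a b h => f.injective (Subtype.ext h), fun i => (f i).2⟩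
  choose j hjinj hjlab using hj
  have hne : Nonempty (Fin k) := ⟨⟨0, hk0⟩⟩
  have hdisj : ∀ s t : Fin 3, s ≠ t →
      (Nat.card {ij : ι × ι // ¬ (A s ij.1 ∩ A t ij.2).Nonempty} : ℝ) ≤ e * n ^ 2 := by
    intro s t hst
    rw [hn]
    exact hF.disj s t hst
  have hfew : ∀ s (x d : E3), d ≠ 0 → (met (A s) x d : ℝ) ≤ c * n := by
    intro s x d hd
    rw [hn]
    exact (hF.few s x d hd).le
  have hnbr : ∀ s t : Fin 3, s ≠ t →
      (Nat.card {i : ι // ¬ (A s (g s) ∩ A t i).Nonempty} : ℝ) ≤ ε * m / 8 * n := by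
    intro s t hst
    rw [hn]
    exact hg.nbr s t hst
  have hδn : (δ * n) ^ 2 ≤ (k : ℝ) ^ 2 := pow_le_pow_left₀ (by positivity) hk1 2
  have hF' : Fam (1 / 16000) (1 / 8000) (fun s i => A s (j s i)) :=
    { conv := fun s i => hF.conv s _
      disj := fun s t hst => by
        have h1 : (Nat.card {ij : Fin k × Fin k // ¬ (A s (j s ij.1) ∩ A t (j t ij.2)).Nonempty} : ℝ)
            ≤ (Nat.card {ij : ι × ι // ¬ (A s ij.1 ∩ A t ij.2).Nonempty} : ℝ) :=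
          zb_card_map (Prod.map (j s) (j t)) ((hjinj s).prodMap (hjinj t)) _ _ fun p hp => hp
        rw [Fintype.card_fin]
        calc (Nat.card {ij : Fin k × Fin k // ¬ (A s (j s ij.1) ∩ A t (j t ij.2)).Nonempty} : ℝ)
            ≤ e * n ^ 2 := h1.trans (hdisj s t hst)
          _ ≤ δ ^ 2 / 8000 * n ^ 2 := mul_le_mul_of_nonneg_right he1 (by positivity)
          _ = 1 / 8000 * (δ * n) ^ 2 := by ring
          _ ≤ 1 / 8000 * (k : ℝ) ^ 2 := mul_le_mul_of_nonneg_left hδn (by norm_num)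
      few := fun s x d hd => by
        have h1 : (met (fun i => A s (j s i)) x d : ℝ) ≤ (met (A s) x d : ℝ) :=
          zb_card_map (j s) (hjinj s) _ _ fun p hp => hp
        rw [Fintype.card_fin]
        have h2 := hF.few s x d hd
        rw [← hn] at h2
        calc (met (fun i => A s (j s i)) x d : ℝ) ≤ (met (A s) x d : ℝ) := h1
          _ < c * n := h2
          _ ≤ δ / 16000 * n := mul_le_mul_of_nonneg_right hc1 hn0.le
          _ = 1 / 16000 * (δ * n) := by ring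
          _ ≤ 1 / 16000 * (k : ℝ) := mul_le_mul_of_nonneg_left hk1 (by norm_num) }
  obtain ⟨T', hT'⟩ := frame (fun s i => A s (j s i)) hF'
  have hx' : ∀ l, ∃ x d : E3, d ≠ 0 ∧ ∀ (v w₁ w₂ w₃ : Fin 3 × ι) (α β γ ω : ℝ),
      (A v.1 v.2 ∩ A w₁.1 w₁.2).Nonempty → (A v.1 v.2 ∩ A w₂.1 w₂.2).Nonempty →
      (A v.1 v.2 ∩ A w₃.1 w₃.2).Nonempty → 0 < α → 0 < β → 0 < γ →
      α • arr A T' v w₁ + β • arr A T' v w₂ + γ • arr A T' v w₃ = P l + ω • Q l →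
      ∃ t : ℝ, x + t • d ∈ A v.1 v.2 := by
    intro l
    obtain ⟨x, d, hd, h⟩ := cross_line T' (P l) (Q l) (hPQ l)
    exact ⟨x, d, hd, h A hF.conv⟩
  choose x' d' hd' hline' using hx'
  -- the samples
  have hcV : Fintype.card (Fin 3 × Fin r) = 3 * r := by simp
  have hG₀ : (Fintype.card ι : ℝ) ^ Fintype.card (Fin 3 × Fin r) / 2 ≤
      (Nat.card {f : Fin 3 × Fin r → ι |
        Iso3 r (fun v w => arr A T (v.1, f v) (w.1, f w))} : ℝ) := by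
    rw [hcV]
    exact hsamp ι (arr A T) (zb_norm_arr A T) (zb_arr_sym A T) hT
  have hG₁ : (Fintype.card (Fin k) : ℝ) ^ Fintype.card (Fin 3 × Fin r) / 2 ≤
      (Nat.card {f : Fin 3 × Fin r → Fin k |
        Iso3 r (fun v w => arr (fun s i => A s (j s i)) T' (v.1, f v) (w.1, f w))} : ℝ) := by
    rw [hcV]
    exact hsamp (Fin k) (arr (fun s i => A s (j s i)) T') (zb_norm_arr _ T') (zb_arr_sym _ T') hT'
  -- bad members
  have hline₁ : ∀ (s : Fin 3) (y f : Fin N → E3), (∀ l, f l ≠ 0) →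
      (Nat.card {i : ι // ∃ l : Fin N, ∃ t : ℝ, y l + t • f l ∈ A s i} : ℝ) ≤ ε * m / 8 * n := by
    intro s y f hf
    have h1 := zb_card_exists (fun (l : Fin N) (i : ι) => ∃ t : ℝ, y l + t • f l ∈ A s i) (c * n)
      fun l => hfew s (y l) (f l) (hf l)
    rw [Fintype.card_fin] at h1
    calc (Nat.card {i : ι // ∃ l : Fin N, ∃ t : ℝ, y l + t • f l ∈ A s i} : ℝ) ≤ N * (c * n) := h1
      _ = (N * c) * n := by ring
      _ ≤ ε * m / 8 * n := mul_le_mul_of_nonneg_right hc2 hn0.le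
  have hdis₁ : ∀ t : Fin 3,
      (Nat.card {i : ι // ∃ s : Fin 3, s ≠ t ∧ ¬ (A s (g s) ∩ A t i).Nonempty} : ℝ) ≤
        3 * (ε * m / 8 * n) := by
    intro t
    have h1 := zb_card_exists (fun (s : Fin 3) (i : ι) => s ≠ t ∧ ¬ (A s (g s) ∩ A t i).Nonempty)
      (ε * m / 8 * n) fun s => by
        by_cases hst : s = t
        · have : IsEmpty {i : ι // s ≠ t ∧ ¬ (A s (g s) ∩ A t i).Nonempty} :=
            ⟨fun i => i.2.1 hst⟩
          rw [Nat.card_of_isEmpty]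
          simp only [Nat.cast_zero]
          positivity
        · exact (zb_card_map id Function.injective_id _ _ fun i hi => hi.2).trans (hnbr s t hst)
    rw [Fintype.card_fin] at h1
    exact_mod_cast h1
  have hεm : ε * m * n ≤ ε * n := by
    have := mul_le_mul_of_nonneg_left hm1 (mul_nonneg hε0.le hn0.le)
    nlinarith
  have hεmk : ε * m * n ≤ ε * k := by
    have h1 : m * n ≤ k := (mul_le_mul_of_nonneg_right hmδ hn0.le).trans hk1
    calc ε * m * n = ε * (m * n) := by ring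
      _ ≤ ε * k := mul_le_mul_of_nonneg_left h1 hε0.le
  have hmn0 : 0 ≤ ε * m * n := by positivity
  have hH₀ : ∀ v : Fin 3 × Fin r, (Nat.card {i : ι | (∃ l : Fin N, ∃ t : ℝ, x l + t • d l ∈ A v.1 i) ∨
      ∃ s : Fin 3, s ≠ v.1 ∧ ¬ (A s (g s) ∩ A v.1 i).Nonempty} : ℝ) ≤ ε * Fintype.card ι := by
    intro v
    have h1 := zb_card_or (fun i : ι => ∃ l : Fin N, ∃ t : ℝ, x l + t • d l ∈ A v.1 i)
      (fun i : ι => ∃ s : Fin 3, s ≠ v.1 ∧ ¬ (A s (g s) ∩ A v.1 i).Nonempty)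
    have h2 : (Nat.card {i : ι // (∃ l : Fin N, ∃ t : ℝ, x l + t • d l ∈ A v.1 i) ∨
        ∃ s : Fin 3, s ≠ v.1 ∧ ¬ (A s (g s) ∩ A v.1 i).Nonempty} : ℝ) ≤
        (Nat.card {i : ι // ∃ l : Fin N, ∃ t : ℝ, x l + t • d l ∈ A v.1 i} : ℝ) +
        (Nat.card {i : ι // ∃ s : Fin 3, s ≠ v.1 ∧ ¬ (A s (g s) ∩ A v.1 i).Nonempty} : ℝ) := by
      exact_mod_cast h1
    have h3 := hline₁ v.1 x d hd
    have h4 := hdis₁ v.1
    rw [← hn]
    refine h2.trans ?_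
    linarith
  have hH₁ : ∀ v : Fin 3 × Fin r, (Nat.card {i : Fin k |
      ((∃ l : Fin N, ∃ t : ℝ, x l + t • d l ∈ A v.1 (j v.1 i)) ∨
        ∃ l : Fin N, ∃ t : ℝ, x' l + t • d' l ∈ A v.1 (j v.1 i)) ∨
      ∃ s : Fin 3, s ≠ v.1 ∧ ¬ (A s (g s) ∩ A v.1 (j v.1 i)).Nonempty} : ℝ) ≤
        ε * Fintype.card (Fin k) := by
    intro v
    have h0 : (Nat.card {i : Fin k //
        ((∃ l : Fin N, ∃ t : ℝ, x l + t • d l ∈ A v.1 (j v.1 i)) ∨
          ∃ l : Fin N, ∃ t : ℝ, x' l + t • d' l ∈ A v.1 (j v.1 i)) ∨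
        ∃ s : Fin 3, s ≠ v.1 ∧ ¬ (A s (g s) ∩ A v.1 (j v.1 i)).Nonempty} : ℝ) ≤
        (Nat.card {i : ι // ((∃ l : Fin N, ∃ t : ℝ, x l + t • d l ∈ A v.1 i) ∨
          ∃ l : Fin N, ∃ t : ℝ, x' l + t • d' l ∈ A v.1 i) ∨
          ∃ s : Fin 3, s ≠ v.1 ∧ ¬ (A s (g s) ∩ A v.1 i).Nonempty} : ℝ) :=
      zb_card_map (j v.1) (hjinj v.1) _ _ fun p hp => hp
    have h1 := zb_card_or (fun i : ι => (∃ l : Fin N, ∃ t : ℝ, x l + t • d l ∈ A v.1 i) ∨
        ∃ l : Fin N, ∃ t : ℝ, x' l + t • d' l ∈ A v.1 i)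
      (fun i : ι => ∃ s : Fin 3, s ≠ v.1 ∧ ¬ (A s (g s) ∩ A v.1 i).Nonempty)
    have h1' := zb_card_or (fun i : ι => ∃ l : Fin N, ∃ t : ℝ, x l + t • d l ∈ A v.1 i)
      (fun i : ι => ∃ l : Fin N, ∃ t : ℝ, x' l + t • d' l ∈ A v.1 i)
    have h2 : (Nat.card {i : ι // ((∃ l : Fin N, ∃ t : ℝ, x l + t • d l ∈ A v.1 i) ∨
          ∃ l : Fin N, ∃ t : ℝ, x' l + t • d' l ∈ A v.1 i) ∨
          ∃ s : Fin 3, s ≠ v.1 ∧ ¬ (A s (g s) ∩ A v.1 i).Nonempty} : ℝ) ≤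
        (Nat.card {i : ι // (∃ l : Fin N, ∃ t : ℝ, x l + t • d l ∈ A v.1 i) ∨
          ∃ l : Fin N, ∃ t : ℝ, x' l + t • d' l ∈ A v.1 i} : ℝ) +
        (Nat.card {i : ι // ∃ s : Fin 3, s ≠ v.1 ∧ ¬ (A s (g s) ∩ A v.1 i).Nonempty} : ℝ) := by
      exact_mod_cast h1
    have h2' : (Nat.card {i : ι // (∃ l : Fin N, ∃ t : ℝ, x l + t • d l ∈ A v.1 i) ∨
          ∃ l : Fin N, ∃ t : ℝ, x' l + t • d' l ∈ A v.1 i} : ℝ) ≤
        (Nat.card {i : ι // ∃ l : Fin N, ∃ t : ℝ, x l + t • d l ∈ A v.1 i} : ℝ) +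
        (Nat.card {i : ι // ∃ l : Fin N, ∃ t : ℝ, x' l + t • d' l ∈ A v.1 i} : ℝ) := by
      exact_mod_cast h1'
    have h3 := hline₁ v.1 x d hd
    have h3' := hline₁ v.1 x' d' hd'
    have h4 := hdis₁ v.1
    rw [Fintype.card_fin]
    refine h0.trans (h2.trans ?_)
    linarith
  have hen : ∀ s t : Fin 3, s ≠ t →
      (Nat.card {ij : ι × ι // ¬ (A s ij.1 ∩ A t ij.2).Nonempty} : ℝ) ≤ ε * (m * n) ^ 2 := by
    intro s t hst
    refine (hdisj s t hst).trans ?_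
    calc e * n ^ 2 ≤ ε * m ^ 2 * n ^ 2 := mul_le_mul_of_nonneg_right he2 (by positivity)
      _ = ε * (m * n) ^ 2 := by ring
  have hmn : m * n ≤ n := by
    calc m * n ≤ 1 * n := mul_le_mul_of_nonneg_right hm1 hn0.le
      _ = n := one_mul n
  have hmk : m * n ≤ k := (mul_le_mul_of_nonneg_right hmδ hn0.le).trans hk1
  have hmn1 : 0 ≤ m * n := by positivity
  have hB₀₀ : ∀ v w : Fin 3 × Fin r, v ≠ w → (Nat.card {p : ι × ι | v.1 ≠ w.1 ∧
      ¬ (A v.1 p.1 ∩ A w.1 p.2).Nonempty} : ℝ) ≤ ε * (Fintype.card ι : ℝ) ^ 2 := by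
    intro v w _
    rw [← hn]
    by_cases hvw : v.1 = w.1
    · have : IsEmpty {p : ι × ι | v.1 ≠ w.1 ∧ ¬ (A v.1 p.1 ∩ A w.1 p.2).Nonempty} :=
        ⟨fun p => p.2.1 hvw⟩
      rw [Nat.card_of_isEmpty]
      simp only [Nat.cast_zero]
      positivity
    · refine ((zb_card_map id Function.injective_id (fun p : ι × ι => v.1 ≠ w.1 ∧
        ¬ (A v.1 p.1 ∩ A w.1 p.2).Nonempty) _ fun p hp => hp.2).trans (hen v.1 w.1 hvw)).trans ?_
      exact mul_le_mul_of_nonneg_left (pow_le_pow_left₀ hmn1 hmn 2) hε0.le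
  have hB₁₁ : ∀ v w : Fin 3 × Fin r, v ≠ w → (Nat.card {p : Fin k × Fin k | v.1 ≠ w.1 ∧
      ¬ (A v.1 (j v.1 p.1) ∩ A w.1 (j w.1 p.2)).Nonempty} : ℝ) ≤
        ε * (Fintype.card (Fin k) : ℝ) ^ 2 := by
    intro v w _
    rw [Fintype.card_fin]
    by_cases hvw : v.1 = w.1
    · have : IsEmpty {p : Fin k × Fin k | v.1 ≠ w.1 ∧
          ¬ (A v.1 (j v.1 p.1) ∩ A w.1 (j w.1 p.2)).Nonempty} := ⟨fun p => p.2.1 hvw⟩
      rw [Nat.card_of_isEmpty]
      simp only [Nat.cast_zero]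
      positivity
    · refine ((zb_card_map (Prod.map (j v.1) (j w.1)) ((hjinj v.1).prodMap (hjinj w.1))
        (fun p : Fin k × Fin k => v.1 ≠ w.1 ∧ ¬ (A v.1 (j v.1 p.1) ∩ A w.1 (j w.1 p.2)).Nonempty)
        _ fun p hp => hp.2).trans (hen v.1 w.1 hvw)).trans ?_
      exact mul_le_mul_of_nonneg_left (pow_le_pow_left₀ hmn1 hmk 2) hε0.le
  have hB₀₁ : ∀ v w : Fin 3 × Fin r, (Nat.card {p : ι × Fin k | v.1 ≠ w.1 ∧
      ¬ (A v.1 p.1 ∩ A w.1 (j w.1 p.2)).Nonempty} : ℝ) ≤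
        ε * (Fintype.card ι * Fintype.card (Fin k) : ℝ) := by
    intro v w
    rw [← hn, Fintype.card_fin]
    by_cases hvw : v.1 = w.1
    · have : IsEmpty {p : ι × Fin k | v.1 ≠ w.1 ∧
          ¬ (A v.1 p.1 ∩ A w.1 (j w.1 p.2)).Nonempty} := ⟨fun p => p.2.1 hvw⟩
      rw [Nat.card_of_isEmpty]
      simp only [Nat.cast_zero]
      positivity
    · refine ((zb_card_map (Prod.map id (j w.1)) (Function.injective_id.prodMap (hjinj w.1))
        (fun p : ι × Fin k => v.1 ≠ w.1 ∧ ¬ (A v.1 p.1 ∩ A w.1 (j w.1 p.2)).Nonempty)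
        _ fun p hp => hp.2).trans (hen v.1 w.1 hvw)).trans ?_
      have h1 : (m * n) ^ 2 ≤ n * k := by
        rw [sq]
        exact mul_le_mul hmn hmk hmn1 hn0.le
      exact mul_le_mul_of_nonneg_left h1 hε0.le
  obtain ⟨f₀, hf₀, f₁, hf₁, hb0, hb1, hb00, hb11, hb01⟩ :=
    count2 (V := Fin 3 × Fin r) (ι := ι) (κ := Fin k) ε (by rw [← hX]; exact hεX) _ _ hG₀ hG₁
      _ hH₀ _ hH₁ _ hB₀₀ _ hB₁₁ _ hB₀₁
  obtain ⟨l, v, h⟩ := sample_hit r N P Q hnet A hF.conv T T' x d x' d' hline hline' g hg.anc hg.meet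
    hgl f₀ (fun v => j v.1 (f₁ v)) hf₀ hf₁ (fun v => hjlab v.1 (f₁ v))
    (fun v w hvw => by
      by_contra hcon
      exact hb00 v w (fun h => hvw (h ▸ rfl)) ⟨hvw, hcon⟩)
    (fun v w hvw => by
      by_contra hcon
      exact hb11 v w (fun h => hvw (h ▸ rfl)) ⟨hvw, hcon⟩)
    (fun v w hvw => by
      by_contra hcon
      exact hb01 v w ⟨hvw, hcon⟩)
    (fun s v hs => by
      by_contra hcon
      exact hb0 v (Or.inr ⟨s, hs, hcon⟩))
    (fun s v hs => by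
      by_contra hcon
      exact hb1 v (Or.inr ⟨s, hs, hcon⟩))
  rcases h with h | h | h
  · exact hb0 v (Or.inl ⟨l, h⟩)
  · exact hb1 v (Or.inl (Or.inl ⟨l, h⟩))
  · exact hb1 v (Or.inl (Or.inr ⟨l, h⟩))

end

end Pool.Agent.LP3
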